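import Pool.Graph.R_seed8.Results.MP_456481_pr.Cutoff

/-!
Characters of the `a x + b` walk at arbitrary real frequencies, periodic products, lower bounds for
the total variation distance.
-/

set_option autoImplicit false

open Finset Filter Topology

namespace Pool.Agent.KS6_18.MX

open H942R3.AX

/-- `e(x) = exp(2 π i x)` -/
noncomputable def e1 (x : ℝ) : ℂ := Complex.exp (2 * Real.pi * Complex.I * x)

theorem e1_add (x y : ℝ) : e1 (x + y) = e1 x * e1 y := by
  rw [e1, e1, e1, ← Complex.exp_add]; congr 1; push_cast; ring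

theorem e1_zero : e1 0 = 1 := by simp [e1]

theorem e1_int (n : ℤ) : e1 n = 1 := by
  rw [e1, Complex.exp_eq_one_iff]
  exact ⟨n, by push_cast; ring⟩

theorem e1_add_int (x : ℝ) (n : ℤ) : e1 (x + n) = e1 x := by rw [e1_add, e1_int, mul_one]

theorem e1_norm (x : ℝ) : ‖e1 x‖ = 1 := by
  rw [e1, show (2 * (Real.pi : ℂ) * Complex.I * x) = ((2 * Real.pi * x : ℝ) : ℂ) * Complex.I by
    push_cast; ring]
  exact Complex.norm_exp_ofReal_mul_I _

theorem e1_conj (x : ℝ) : (starRingEnd ℂ) (e1 x) = e1 (-x) := by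
  rw [e1, e1, ← Complex.exp_conj]
  congr 1
  simp only [map_mul, Complex.conj_I, map_ofNat, Complex.conj_ofReal]
  push_cast
  ring

theorem e1_mul_conj (x y : ℝ) : e1 x * (starRingEnd ℂ) (e1 y) = e1 (x - y) := by
  rw [e1_conj, ← e1_add]; congr 1

theorem norm_one_add_e1 (x : ℝ) : ‖(1 + e1 x) / 2‖ = |Real.cos (Real.pi * x)| := by
  have h1 : (1 + e1 x) / 2 = Complex.exp ((Real.pi * x : ℝ) * Complex.I) *
      ((Real.cos (Real.pi * x) : ℝ) : ℂ) := by
    rw [Complex.ofReal_cos, Complex.cos, e1]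
    rw [← mul_div_assoc, mul_add, ← Complex.exp_add, ← Complex.exp_add]
    congr 1
    rw [add_comm]
    congr 1
    · congr 1; push_cast; ring
    · rw [show ((Real.pi * x : ℝ) : ℂ) * Complex.I + -((Real.pi * x : ℝ) : ℂ) * Complex.I = 0 by ring,
        Complex.exp_zero]
  rw [h1, norm_mul, Complex.norm_exp_ofReal_mul_I, one_mul, Complex.norm_real, Real.norm_eq_abs]

theorem sum_digits_real (a n : ℕ) (θ : ℝ) :
    ∑ b : Fin n → Fin 2, e1 (θ * (pos a n b : ℕ)) = ∏ j ∈ range n, (1 + e1 (θ * (a ^ j : ℕ))) := by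
  induction n generalizing θ with
  | zero => simp [pos, e1_zero]
  | succ n ih =>
    rw [← Equiv.sum_comp (Fin.snocEquiv (fun _ => Fin 2)), Fintype.sum_prod_type]
    have h1 : ∀ (c : Fin 2) (b : Fin n → Fin 2),
        e1 (θ * (pos a (n + 1) (Fin.snocEquiv (fun _ => Fin 2) (c, b)) : ℕ)) =
        e1 (θ * (c : ℕ)) * e1 ((θ * a) * (pos a n b : ℕ)) := by
      intro c b
      have h2 : pos a (n + 1) (Fin.snocEquiv (fun _ => Fin 2) (c, b)) =
          a * pos a n b + (c : ℕ) := by
        rw [Pool.Agent.Results.MP_456481_pr.Cutoff.pos_succ]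
        simp [Fin.snocEquiv]
      rw [h2, ← e1_add]
      congr 1
      push_cast
      ring
    simp only [h1]
    rw [Fin.sum_univ_two, ← Finset.mul_sum, ← Finset.mul_sum, ih]
    rw [Finset.prod_range_succ']
    have h3 : ∏ j ∈ range n, (1 + e1 (θ * a * (a ^ j : ℕ))) =
        ∏ j ∈ range n, (1 + e1 (θ * (a ^ (j + 1) : ℕ))) := by
      refine Finset.prod_congr rfl fun j _ => ?_
      congr 2
      push_cast
      ring
    rw [h3]
    simp [e1_zero]
    ring

/-- shift of a periodic product -/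
theorem prod_shift {M : Type*} [CommMonoid M] (g : ℕ → M) (w : ℕ) (hg : ∀ j, g (j + w) = g j) (i : ℕ) :
    ∏ j ∈ range w, g (i + j) = ∏ j ∈ range w, g j := by
  induction i with
  | zero => simp
  | succ i ih =>
    rw [← ih]
    cases w with
    | zero => simp
    | succ w =>
      rw [Finset.prod_range_succ, Finset.prod_range_succ']
      have h1 : g (i + 1 + w) = g (i + 0) := by
        rw [show i + 1 + w = i + (w + 1) by ring, hg, add_zero]
      rw [h1]
      congr 1
      refine Finset.prod_congr rfl fun j _ => ?_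
      congr 1
      ring

theorem prod_periodic {M : Type*} [CommMonoid M] (g : ℕ → M) (w : ℕ) (hg : ∀ j, g (j + w) = g j)
    (h i : ℕ) : ∏ j ∈ range (w * h), g (i + j) = (∏ j ∈ range w, g j) ^ h := by
  induction h with
  | zero => simp
  | succ h ih =>
    rw [mul_add, mul_one, Finset.prod_range_add, ih, pow_succ]
    congr 1
    rw [← prod_shift g w hg (i + w * h)]
    refine Finset.prod_congr rfl fun j _ => ?_
    congr 1
    ring

theorem sum_shift {M : Type*} [AddCommMonoid M] (g : ℕ → M) (w : ℕ) (hg : ∀ j, g (j + w) = g j) (i : ℕ) :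
    ∑ j ∈ range w, g (i + j) = ∑ j ∈ range w, g j := by
  induction i with
  | zero => simp
  | succ i ih =>
    rw [← ih]
    cases w with
    | zero => simp
    | succ w =>
      rw [Finset.sum_range_succ, Finset.sum_range_succ']
      have h1 : g (i + 1 + w) = g (i + 0) := by
        rw [show i + 1 + w = i + (w + 1) by ring, hg, add_zero]
      rw [h1]
      congr 1
      refine Finset.sum_congr rfl fun j _ => ?_
      congr 1
      ring

/-- the expectation of a function of the position modulo `q` -/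
theorem sum_law_fun (a q n : ℕ) (hq : 0 < q) (F : ℕ → ℂ) :
    ∑ x ∈ range q, (law a q n x : ℂ) * F x =
      (∑ b : Fin n → Fin 2, F (pos a n b % q)) / 2 ^ n := by
  classical
  rw [← Finset.sum_fiberwise_of_maps_to (s := (univ : Finset (Fin n → Fin 2)))
    (t := range q) (g := fun b => pos a n b % q)
    (fun b _ => Finset.mem_range.2 (Nat.mod_lt _ hq)), Finset.sum_div]
  refine Finset.sum_congr rfl fun x _ => ?_
  rw [Finset.sum_congr rfl (g := fun _ => F x)
    (fun b hb => by rw [(Finset.mem_filter.1 hb).2])]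
  rw [Finset.sum_const, nsmul_eq_mul, law]
  push_cast
  ring

theorem sum_law_real (a q n : ℕ) (hq : 0 < q) (F : ℕ → ℝ) :
    ∑ x ∈ range q, law a q n x * F x =
      (∑ b : Fin n → Fin 2, F (pos a n b % q)) / 2 ^ n := by
  classical
  rw [← Finset.sum_fiberwise_of_maps_to (s := (univ : Finset (Fin n → Fin 2)))
    (t := range q) (g := fun b => pos a n b % q)
    (fun b _ => Finset.mem_range.2 (Nat.mod_lt _ hq)), Finset.sum_div]
  refine Finset.sum_congr rfl fun x _ => ?_
  rw [Finset.sum_congr rfl (g := fun _ => F x)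
    (fun b hb => by rw [(Finset.mem_filter.1 hb).2])]
  rw [Finset.sum_const, nsmul_eq_mul, law]
  ring

theorem law_nonneg (a q n x : ℕ) : 0 ≤ law a q n x := by rw [law]; positivity

/-- lower bound for the distance by a character -/
theorem tv_ge_char (a q n : ℕ) (F : ℕ → ℂ) (hF : ∀ x, ‖F x‖ ≤ 1)
    (hU : ∑ x ∈ range q, F x = 0) :
    ‖∑ x ∈ range q, (law a q n x : ℂ) * F x‖ / 2 ≤ tv a q n := by
  have h1 : ∑ x ∈ range q, (law a q n x : ℂ) * F x =
      ∑ x ∈ range q, ((law a q n x - 1 / q : ℝ) : ℂ) * F x := by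
    have : ∀ x, ((law a q n x - 1 / q : ℝ) : ℂ) * F x = (law a q n x : ℂ) * F x - (1 / q : ℂ) * F x := by
      intro x; push_cast; ring
    simp only [this]
    rw [Finset.sum_sub_distrib, ← Finset.mul_sum, hU, mul_zero, sub_zero]
  rw [h1, tv]
  have h2 : ‖∑ x ∈ range q, ((law a q n x - 1 / q : ℝ) : ℂ) * F x‖ ≤
      ∑ x ∈ range q, |law a q n x - 1 / q| := by
    refine (norm_sum_le _ _).trans (Finset.sum_le_sum fun x _ => ?_)
    rw [norm_mul, Complex.norm_real, Real.norm_eq_abs]
    exact mul_le_of_le_one_right (abs_nonneg _) (hF x)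
  linarith

/-- lower bound for the distance by an event -/
theorem tv_ge_event (a q n : ℕ) (hq : 0 < q) (B : Finset ℕ) (hB : B ⊆ range q) :
    ∑ x ∈ B, law a q n x - (B.card : ℝ) / q ≤ tv a q n := by
  classical
  have hq' : (0:ℝ) < q := by exact_mod_cast hq
  have h0 : ∑ x ∈ range q, (law a q n x - 1 / q) = 0 := by
    rw [Finset.sum_sub_distrib, sum_law a q n hq, Finset.sum_const, Finset.card_range, nsmul_eq_mul]
    field_simp
    ring
  have h1 : ∑ x ∈ B, (law a q n x - 1 / q) = ∑ x ∈ B, law a q n x - (B.card : ℝ) / q := by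
    rw [Finset.sum_sub_distrib, Finset.sum_const, nsmul_eq_mul]; ring
  have h2 := Finset.sum_sdiff (f := fun x => law a q n x - 1 / q) hB
  have h3 := Finset.sum_sdiff (f := fun x => |law a q n x - 1 / q|) hB
  have h4 : ∑ x ∈ B, (law a q n x - 1 / q) ≤ ∑ x ∈ B, |law a q n x - 1 / q| :=
    Finset.sum_le_sum fun x _ => le_abs_self _
  have h5 : -∑ x ∈ range q \ B, (law a q n x - 1 / q) ≤ ∑ x ∈ range q \ B, |law a q n x - 1 / q| := by
    rw [← Finset.sum_neg_distrib]
    exact Finset.sum_le_sum fun x _ => neg_le_abs _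
  rw [← h1, tv]
  rw [h0] at h2
  linarith

end Pool.Agent.KS6_18.MX
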