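import Pool.Agent.KS6_18.MX.Large

/-!
The count of the moduli with a large distance after `R m` steps.
-/

set_option autoImplicit false

open Finset Filter Topology

namespace Pool.Agent.KS6_18.MX

open H942R3.AX

open Classical in
theorem count_core (a : ℕ) (ha : 4 ≤ a) (R : ℕ) (hR : 2 ≤ R) :
    ∃ lam C : ℝ, 0 < lam ∧ lam < 1 ∧ 0 < C ∧ ∀ X m w0 N : ℕ, ∀ E : ℝ, 0 < E → 1 ≤ N →
      N * w0 ≤ R * m → Nat.log 2 X + 1 ≤ (R - 1) * m →
      N * ((1 + 2 * a * (1 - 1 / (a:ℝ) ^ 2) ^ N) ^ w0 - 1) ≤ 2 * E ^ 2 →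
      (((Icc 1 X).filter (fun q : ℕ => q.Coprime a ∧ E < tv a q (R * m))).card : ℝ) ≤
        X * (16 / 3 * (5 / 8) ^ (w0 + 1)) + X * (C * lam ^ m / E ^ 2) := by
  have ha1 : (1:ℝ) < a := by
    have : 1 < a := by omega
    exact_mod_cast this
  have ha0 : (0:ℝ) < a := by linarith
  obtain ⟨h, hhpos, hQ⟩ := Qs_small a ha
  have hQh := hQ h le_rfl
  -- the contraction factor
  set ρ : ℝ := 1 - 1 / (a:ℝ) ^ 2 with hρ
  have hρ0 : 0 < ρ := by
    rw [hρ, sub_pos, div_lt_one (by positivity)]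
    nlinarith
  have hρ1 : ρ < 1 := by
    rw [hρ]
    have : 0 < 1 / (a:ℝ) ^ 2 := by positivity
    linarith
  set κ : ℝ := ρ ^ ((1:ℝ) / h) with hκd
  have hhr : (0:ℝ) < h := by exact_mod_cast hhpos
  have hκ0 : 0 < κ := Real.rpow_pos_of_pos hρ0 _
  have hκ1 : κ < 1 := Real.rpow_lt_one hρ0.le hρ1 (by positivity)
  have hκ : κ ^ h = 1 - 1 / (a:ℝ) ^ 2 := by
    rw [hκd, ← Real.rpow_natCast, ← Real.rpow_mul hρ0.le, one_div_mul_cancel hhr.ne', Real.rpow_one]
  -- the exponent in the divisor bound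
  have hRr : (0:ℝ) < R := by
    have : 0 < R := by omega
    exact_mod_cast this
  have hla : 0 < Real.log a := Real.log_pos ha1
  have hlκ : Real.log κ < 0 := Real.log_neg hκ0 hκ1
  set e1 : ℝ := -Real.log κ / (2 * R * Real.log a) with he1
  have he1pos : 0 < e1 := by
    rw [he1]; apply div_pos <;> [linarith; positivity]
  obtain ⟨C, hC0, hC⟩ := H353.divisor_bound_real e1 he1pos
  set κ' : ℝ := κ * (a:ℝ) ^ (R * e1) with hκ'
  have hκ'eq : κ' = Real.exp (Real.log κ / 2) := by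
    rw [hκ', Real.rpow_def_of_pos ha0, ← Real.exp_log hκ0, ← Real.exp_add, Real.log_exp]
    congr 1
    rw [he1]
    field_simp
    ring
  have hκ'0 : 0 < κ' := by rw [hκ'eq]; exact Real.exp_pos _
  have hκ'1 : κ' < 1 := by
    rw [hκ'eq, Real.exp_lt_one_iff]; linarith
  have hκκ' : κ ≤ κ' := by
    rw [hκ'eq, ← Real.log_le_iff_le_exp hκ0]
    linarith
  refine ⟨κ', R * (1 + C), hκ'0, hκ'1, by positivity, fun X m w0 N E hE hN hNw hm hsmall => ?_⟩
  set W := Nat.log 2 X + 1 with hW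
  have hXW : X < 2 ^ W := Nat.lt_pow_succ_log_self (by norm_num) X
  have hWL : W ≤ R * m := by
    have h1 : (R - 1) * m ≤ R * m := Nat.mul_le_mul_right m (by omega)
    omega
  set L := R * m with hL
  set bad := (Icc 1 X).filter (fun q : ℕ => q.Coprime a ∧ ∃ k : ℕ, 0 < k ∧ k < q ∧
      2 ^ w0 ≤ den q k ∧ h * na a ((k : ℝ) / q) L < L) with hbad
  set G := (Icc 1 X).filter (fun q : ℕ => (q.Coprime a ∧ E < tv a q L) ∧ ¬ (∃ k : ℕ, 0 < k ∧
      k < q ∧ 2 ^ w0 ≤ den q k ∧ h * na a ((k : ℝ) / q) L < L)) with hG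
  have hcover : ((Icc 1 X).filter (fun q : ℕ => q.Coprime a ∧ E < tv a q L)) ⊆ bad ∪ G := by
    intro q hq
    rw [Finset.mem_filter] at hq
    rw [Finset.mem_union, hbad, hG, Finset.mem_filter, Finset.mem_filter]
    by_cases hb : ∃ k : ℕ, 0 < k ∧ k < q ∧ 2 ^ w0 ≤ den q k ∧ h * na a ((k : ℝ) / q) L < L
    · left; exact ⟨hq.1, hq.2.1, hb⟩
    · right; exact ⟨hq.1, hq.2, hb⟩
  have hb1 : (bad.card : ℝ) ≤ X * (16 / 3 * (5 / 8) ^ (w0 + 1)) :=
    bad_card' a ha h W L X w0 hXW hWL hQh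
  -- the good moduli
  set τ : ℝ := C * ((a:ℝ) ^ L) ^ e1 with hτ
  have hτ0 : 0 ≤ τ := by rw [hτ]; positivity
  have hτb : ∀ n : ℕ, n ≠ 0 → n < a ^ L → (n.divisors.card : ℝ) ≤ τ := by
    intro n hn hnL
    refine (hC n hn).trans ?_
    rw [hτ]
    apply mul_le_mul_of_nonneg_left _ hC0.le
    apply Real.rpow_le_rpow (Nat.cast_nonneg _) _ he1pos.le
    exact_mod_cast hnL.le
  have hGsum : (G.card : ℝ) * (2 * E ^ 2) ≤ ∑ q ∈ G, ∑ r ∈ range R, κ ^ m * ∑ k ∈ range q,
            ∏ j ∈ range (R * m) \ Ico (r * m) (r * m + m), cs q k (a ^ j) := by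
    rw [← nsmul_eq_mul, ← Finset.sum_const]
    apply Finset.sum_le_sum
    intro q hq
    rw [hG, Finset.mem_filter, Finset.mem_Icc] at hq
    have h1 := hq.2.1.2
    have h2 := tv_bound a q L (by omega)
    have h3 := split_bound a ha h R m q w0 N (by omega) (by omega) hq.2.1.1 κ hκ0.le hκ1.le hκ hN
      hNw (by
        intro k hk hkq hkd
        by_contra hcon
        push Not at hcon
        exact hq.2.2 ⟨k, hk, hkq, hkd, hcon⟩)
    have h4 : (2 * E) ^ 2 < (2 * tv a q L) ^ 2 := by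
      apply pow_lt_pow_left₀ (by linarith) (by positivity) (by norm_num)
    nlinarith
  have hGsum2 : ∑ q ∈ G, ∑ r ∈ range R, κ ^ m * ∑ k ∈ range q,
            ∏ j ∈ range (R * m) \ Ico (r * m) (r * m + m), cs q k (a ^ j) ≤
            R * (κ ^ m * (X * (1 + τ))) := by
    calc ∑ q ∈ G, ∑ r ∈ range R, κ ^ m * ∑ k ∈ range q,
            ∏ j ∈ range (R * m) \ Ico (r * m) (r * m + m), cs q k (a ^ j)
        ≤ ∑ q ∈ Icc 1 X, ∑ r ∈ range R, κ ^ m * ∑ k ∈ range q,
            ∏ j ∈ range (R * m) \ Ico (r * m) (r * m + m), cs q k (a ^ j) := by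
          apply Finset.sum_le_sum_of_subset_of_nonneg
          · rw [hG]; exact Finset.filter_subset _ _
          · intro q _ _
            apply Finset.sum_nonneg
            intro r _
            apply mul_nonneg (pow_nonneg hκ0.le _)
            apply Finset.sum_nonneg
            intro k _
            exact Finset.prod_nonneg fun j _ => cs_nonneg _ _ _
      _ = ∑ r ∈ range R, κ ^ m * ∑ q ∈ Icc 1 X, ∑ k ∈ range q,
            ∏ j ∈ range (R * m) \ Ico (r * m) (r * m + m), cs q k (a ^ j) := by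
          rw [Finset.sum_comm]
          refine Finset.sum_congr rfl fun r _ => ?_
          rw [Finset.mul_sum]
      _ ≤ ∑ r ∈ range R, κ ^ m * (X * (1 + τ)) := by
          apply Finset.sum_le_sum
          intro r hr
          rw [Finset.mem_range] at hr
          apply mul_le_mul_of_nonneg_left _ (pow_nonneg hκ0.le _)
          have hsub : Ico (r * m) (r * m + m) ⊆ range (R * m) := by
            intro j hj
            rw [Finset.mem_Ico] at hj
            rw [Finset.mem_range]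
            have : (r + 1) * m ≤ R * m := Nat.mul_le_mul_right m hr
            have h3 : (r + 1) * m = r * m + m := by ring
            omega
          have hcard : (range (R * m) \ Ico (r * m) (r * m + m)).card = (R - 1) * m := by
            rw [Finset.card_sdiff_of_subset hsub, Finset.card_range, Nat.card_Ico,
              Nat.add_sub_cancel_left, Nat.sub_mul, one_mul]
          refine (sum_mod a (by omega) L X _ Finset.sdiff_subset τ hτ0 hτb).trans ?_
          rw [hcard]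
          apply mul_le_mul_of_nonneg_left _ (Nat.cast_nonneg X)
          have h5 : (X : ℝ) ≤ 2 ^ ((R - 1) * m) := by
            have h6 : X ≤ 2 ^ ((R - 1) * m) := by
              calc X ≤ 2 ^ W := hXW.le
                _ ≤ 2 ^ ((R - 1) * m) := Nat.pow_le_pow_right (by norm_num) hm
            exact_mod_cast h6
          have h7 : (X : ℝ) / 2 ^ ((R - 1) * m) ≤ 1 := by
            rw [div_le_one (by positivity)]; exact h5
          linarith
      _ = R * (κ ^ m * (X * (1 + τ))) := by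
          rw [Finset.sum_const, Finset.card_range, nsmul_eq_mul]
  have hτκ : κ ^ m * τ = C * κ' ^ m := by
    rw [hτ, hκ', mul_pow, ← Real.rpow_natCast ((a:ℝ) ^ (R * e1)) m, ← Real.rpow_mul ha0.le,
      ← Real.rpow_natCast (a:ℝ) L, ← Real.rpow_mul ha0.le, hL]
    push_cast
    rw [show (R:ℝ) * m * e1 = R * e1 * m by ring]
    ring
  have hX0 : (0:ℝ) ≤ X := Nat.cast_nonneg X
  have hGcard : (G.card : ℝ) ≤ X * (R * (1 + C) * κ' ^ m / E ^ 2) := by
    have h2 : (G.card : ℝ) * (2 * E ^ 2) ≤ R * (κ ^ m * (X * (1 + τ))) := hGsum.trans hGsum2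
    have h3 : R * (κ ^ m * (X * (1 + τ))) = R * (κ ^ m + C * κ' ^ m) * X := by
      rw [← hτκ]; ring
    rw [h3] at h2
    have h4 : κ ^ m ≤ κ' ^ m := pow_le_pow_left₀ hκ0.le hκκ' m
    have hE2 : 0 < E ^ 2 := by positivity
    have h5 : R * (κ ^ m + C * κ' ^ m) * X ≤ R * (κ' ^ m + C * κ' ^ m) * X := by
      gcongr
    have h6 : (G.card : ℝ) * E ^ 2 ≤ R * (κ' ^ m + C * κ' ^ m) * X := by
      have : (0:ℝ) ≤ G.card := Nat.cast_nonneg _
      nlinarith
    rw [← mul_div_assoc, le_div_iff₀ hE2]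
    calc (G.card : ℝ) * E ^ 2 ≤ R * (κ' ^ m + C * κ' ^ m) * X := h6
      _ = X * (R * (1 + C) * κ' ^ m) := by ring
  have hfin : (((Icc 1 X).filter (fun q : ℕ => q.Coprime a ∧ E < tv a q L)).card : ℝ) ≤
      bad.card + G.card := by
    have := (Finset.card_le_card hcover).trans (Finset.card_union_le _ _)
    exact_mod_cast this
  linarith

end Pool.Agent.KS6_18.MX
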