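import Pool.Agent.KS6_18.MX.Low
import Pool.Graph.R_seed8.H942R3.AXMain

/-!
The lower bound for the number of exceptional moduli.
-/

set_option autoImplicit false

open Finset Filter Topology

namespace Pool.Agent.KS6_18.MX

open H942R3.AX

theorem nat_aw_ge (a w : ℕ) (ha : 4 ≤ a) (hw : 2 ≤ w) : 16 ≤ a ^ w := by
  calc 16 = 4 ^ 2 := by norm_num
    _ ≤ a ^ 2 := Nat.pow_le_pow_left ha 2
    _ ≤ a ^ w := Nat.pow_le_pow_right (by omega) hw

theorem coprime_r (a w : ℕ) (ha : 4 ≤ a) (hw : 2 ≤ w) : Nat.Coprime (a ^ w - 1) a := by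
  have h16 := nat_aw_ge a w ha hw
  have h1 : Nat.Coprime (a ^ w - 1) (a ^ w) := by
    have : a ^ w = (a ^ w - 1) + 1 := by omega
    rw [this]
    simp
  exact Nat.Coprime.coprime_dvd_right (dvd_pow_self a (by omega)) h1

open Classical in
/-- the number of multiples of `a ^ w - 1` -/
theorem count_mult (a w X : ℕ) (ha : 4 ≤ a) (hw : 2 ≤ w) (hX : 4 * a * a ^ w ≤ X) (P : ℕ → Prop)
    (hP : ∀ s : ℕ, 1 ≤ s → s.Coprime a → (a ^ w - 1) * s ≤ X → P ((a ^ w - 1) * s)) :
    (X:ℝ) / (4 * a * (a:ℝ) ^ w) ≤ (((Icc 2 X).filter (fun q : ℕ => q.Coprime a ∧ P q)).card : ℝ) := by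
  have h16 := nat_aw_ge a w ha hw
  have ha0 : (0:ℝ) < a := by
    have : 0 < a := by omega
    exact_mod_cast this
  obtain ⟨r, hr⟩ : ∃ r, r = a ^ w - 1 := ⟨_, rfl⟩
  obtain ⟨Y, hY⟩ : ∃ Y, Y = X / r := ⟨_, rfl⟩
  have hr0 : 0 < r := by omega
  have hrw : r < a ^ w := by omega
  have haY : a ≤ Y := by
    rw [hY, Nat.le_div_iff_mul_le hr0]
    calc a * r ≤ a * a ^ w := Nat.mul_le_mul_left a hrw.le
      _ ≤ 4 * a * a ^ w := by nlinarith [Nat.zero_le (a * a ^ w)]
      _ ≤ X := hX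
  have h1 := coprime_card a (by omega) Y haY
  have h2 : ((Icc 1 Y).filter (fun q : ℕ => q.Coprime a)).card ≤
      ((Icc 2 X).filter (fun q : ℕ => q.Coprime a ∧ P q)).card := by
    apply Finset.card_le_card_of_injOn (fun s => r * s)
    · intro s hs
      rw [Finset.mem_coe, Finset.mem_filter, Finset.mem_Icc] at hs
      obtain ⟨⟨hs1, hs2⟩, hs3⟩ := hs
      have h3 : r * s ≤ X := by
        calc r * s ≤ r * (X / r) := Nat.mul_le_mul_left r (by rw [← hY]; exact hs2)
          _ ≤ X := Nat.mul_div_le X r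
      have h4 : 15 * 1 ≤ r * s := Nat.mul_le_mul (by omega) hs1
      show r * s ∈ _
      rw [Finset.mem_coe, Finset.mem_filter, Finset.mem_Icc]
      refine ⟨⟨by omega, h3⟩, ?_, ?_⟩
      · have hc := coprime_r a w ha hw
        rw [← hr] at hc
        exact Nat.Coprime.mul_left hc hs3
      · have := hP s hs1 hs3 (by rw [← hr]; exact h3)
        rw [← hr] at this
        exact this
    · intro s _ t _ hst
      exact Nat.eq_of_mul_eq_mul_left hr0 hst
  have h3 : (X:ℝ) / (4 * a * (a:ℝ) ^ w) ≤ (Y:ℝ) / (2 * a) := by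
    have e1 : X < r * (Y + 1) := by
      rw [hY]; exact Nat.lt_mul_div_succ X hr0
    have e2 : r * (Y + 1) ≤ a ^ w * (2 * Y) := Nat.mul_le_mul hrw.le (by omega)
    have e3 : X ≤ a ^ w * (2 * Y) := by omega
    have e4 : (X:ℝ) ≤ (a:ℝ) ^ w * (2 * Y) := by exact_mod_cast e3
    rw [div_le_div_iff₀ (by positivity) (by positivity)]
    calc (X:ℝ) * (2 * a) ≤ ((a:ℝ) ^ w * (2 * Y)) * (2 * a) :=
          mul_le_mul_of_nonneg_right e4 (by positivity)
      _ = Y * (4 * a * (a:ℝ) ^ w) := by ring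
  refine h3.trans (h1.trans ?_)
  exact_mod_cast h2

/-- the second moment bound, in a form ready for use -/
theorem tv_eta (a : ℕ) (ha : 4 ≤ a) (η : ℝ) (hη0 : 0 < η) (hη1 : η < 1) :
    ∃ y0 : ℝ, 1 ≤ y0 ∧ ∀ (y : ℝ) (w h s : ℕ), y0 ≤ y → 2 ≤ w → 1 ≤ s →
      Real.exp y / (2 * y) ≤ w → (h:ℝ) ≤ y / 8 → η ≤ tv a ((a ^ w - 1) * s) (w * h) := by
  have h4 : (4:ℝ) ≤ a := by exact_mod_cast ha
  obtain ⟨κ, hκ⟩ : ∃ κ, κ = 1 - η := ⟨_, rfl⟩
  have hκ0 : 0 < κ := by rw [hκ]; linarith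
  obtain ⟨D0, hD0⟩ := pow_unbounded_of_one_lt (96 / κ) (show (1:ℝ) < a by linarith)
  have hlit : ∀ᶠ y : ℝ in atTop, y ^ 2 ≤ Real.exp (1 / 4 * y) := by
    have := (isLittleO_pow_exp_pos_mul_atTop 2 (show (0:ℝ) < 1 / 4 by norm_num)).bound
      (show (0:ℝ) < 1 by norm_num)
    filter_upwards [this] with y hy
    rw [Real.norm_eq_abs, Real.norm_eq_abs, one_mul, abs_of_pos (Real.exp_pos _)] at hy
    exact (le_abs_self _).trans hy
  have hbig : ∀ᶠ y : ℝ in atTop, 2 * (16 / κ + 1) ≤ Real.exp (1 / 2 * y) := by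
    have : Tendsto (fun y : ℝ => Real.exp (1 / 2 * y)) atTop atTop :=
      Real.tendsto_exp_atTop.comp (tendsto_id.const_mul_atTop (by norm_num))
    exact this.eventually (eventually_ge_atTop _)
  obtain ⟨y1, hy1⟩ := Filter.eventually_atTop.1 (hlit.and hbig)
  refine ⟨max (max y1 1) (2 * (D0 + 1)), le_trans (le_max_right _ _) (le_max_left _ _), ?_⟩
  intro y w h s hy hw hs hwy hh
  have hyy1 : y1 ≤ y := le_trans (le_trans (le_max_left _ _) (le_max_left _ _)) hy
  have hy1' : 1 ≤ y := le_trans (le_trans (le_max_right _ _) (le_max_left _ _)) hy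
  have hyD : 2 * ((D0:ℝ) + 1) ≤ y := le_trans (le_max_right _ _) hy
  obtain ⟨hsq, hex⟩ := hy1 y hyy1
  obtain ⟨D, hD⟩ : ∃ D, D = h + D0 + 1 := ⟨_, rfl⟩
  have hD1 : 1 ≤ D := by omega
  have hDy : (D:ℝ) ≤ y := by
    rw [hD]; push_cast; linarith
  obtain ⟨M, hM⟩ : ∃ M, M = w / D := ⟨_, rfl⟩
  have hD0' : (0:ℝ) < D := by
    have : 0 < D := hD1
    exact_mod_cast this
  -- `M` is large
  have hMbig : 16 / κ * Real.exp (1 / 4 * y) ≤ M := by
    have e1 : (w:ℝ) / D ≤ M + 1 := by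
      have : w < D * (M + 1) := by rw [hM]; exact Nat.lt_mul_div_succ w hD1
      rw [div_le_iff₀ hD0', mul_comm]
      exact_mod_cast this.le
    have hypos : 0 < y := by linarith
    have e2 : Real.exp y / (2 * y ^ 2) ≤ (w:ℝ) / D := by
      calc Real.exp y / (2 * y ^ 2) = (Real.exp y / (2 * y)) / y := by field_simp
        _ ≤ (w:ℝ) / D := by
            apply div_le_div₀ (Nat.cast_nonneg _) hwy hD0' hDy
    have e3 : Real.exp (3 / 4 * y) / 2 ≤ Real.exp y / (2 * y ^ 2) := by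
      rw [div_le_div_iff₀ (by norm_num) (by positivity)]
      have : Real.exp y = Real.exp (3 / 4 * y) * Real.exp (1 / 4 * y) := by
        rw [← Real.exp_add]; congr 1; ring
      rw [this]
      have h3 := mul_le_mul_of_nonneg_left hsq (Real.exp_pos (3 / 4 * y)).le
      linarith
    have e4 : Real.exp (3 / 4 * y) = Real.exp (1 / 4 * y) * Real.exp (1 / 2 * y) := by
      rw [← Real.exp_add]; congr 1; ring
    have e5 : 1 ≤ Real.exp (1 / 4 * y) := Real.one_le_exp (by linarith)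
    have e6 : Real.exp (1 / 4 * y) * (2 * (16 / κ + 1)) ≤ Real.exp (3 / 4 * y) := by
      rw [e4]; exact mul_le_mul_of_nonneg_left hex (by positivity)
    linarith
  have hMpos : 0 < (M:ℝ) := lt_of_lt_of_le (by positivity) hMbig
  have hM1 : 1 ≤ M := by
    have : 0 < M := by exact_mod_cast hMpos
    exact this
  have hMD : M * D ≤ w := by rw [hM]; exact Nat.div_mul_le_self w D
  have hmain := tv_low a w h D M s ha hw hD1 hM1 hMD hs
  -- first error
  have hC : Real.exp (-(1 / 4 * y)) ≤ (C1 a w) ^ (2 * h) := by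
    have e1 := C1_ge a w ha hw
    have e2 := pow_le_pow_left₀ (Real.exp_pos (-1)).le e1 (2 * h)
    refine le_trans ?_ e2
    rw [← Real.exp_nat_mul, Real.exp_le_exp]
    push_cast
    linarith
  have hMC : 16 / κ ≤ M * (C1 a w) ^ (2 * h) := by
    calc 16 / κ = (16 / κ * Real.exp (1 / 4 * y)) * Real.exp (-(1 / 4 * y)) := by
          rw [mul_assoc, ← Real.exp_add, add_neg_cancel, Real.exp_zero, mul_one]
      _ ≤ M * (C1 a w) ^ (2 * h) := mul_le_mul hMbig hC (Real.exp_pos _).le hMpos.le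
  have herr1 : 8 / (M * (C1 a w) ^ (2 * h)) ≤ κ / 2 := by
    have e0 : 0 < M * (C1 a w) ^ (2 * h) := lt_of_lt_of_le (by positivity) hMC
    rw [div_le_iff₀ e0]
    have : κ / 2 * (16 / κ) ≤ κ / 2 * (M * (C1 a w) ^ (2 * h)) :=
      mul_le_mul_of_nonneg_left hMC (by positivity)
    have e1 : κ / 2 * (16 / κ) = 8 := by field_simp; norm_num
    linarith
  -- second error
  have haD : 96 / κ * h ≤ (a:ℝ) ^ D := by
    have e1 : (h:ℝ) ≤ (a:ℝ) ^ h := by
      have : h < a ^ h := Nat.lt_pow_self (by omega)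
      exact_mod_cast this.le
    have e2 : (a:ℝ) ^ D = (a:ℝ) ^ D0 * (a:ℝ) ^ h * a := by rw [hD]; ring
    rw [e2]
    calc 96 / κ * h ≤ (a:ℝ) ^ D0 * (a:ℝ) ^ h := mul_le_mul hD0.le e1 (Nat.cast_nonneg _) (by positivity)
      _ ≤ (a:ℝ) ^ D0 * (a:ℝ) ^ h * a := le_mul_of_one_le_right (by positivity) (by linarith)
  have hε : 6 * (h:ℝ) / (a:ℝ) ^ D ≤ κ / 16 := by
    rw [div_le_iff₀ (by positivity)]
    have : κ / 16 * (96 / κ * h) ≤ κ / 16 * (a:ℝ) ^ D := mul_le_mul_of_nonneg_left haD (by positivity)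
    have e1 : κ / 16 * (96 / κ * h) = 6 * h := by field_simp; ring
    linarith
  have hε0 : 0 ≤ 6 * (h:ℝ) / (a:ℝ) ^ D := by positivity
  have hexp : Real.exp (6 * h / (a:ℝ) ^ D) - 1 ≤ 2 * (κ / 16) := by
    have hκ1 : κ ≤ 1 := by rw [hκ]; linarith
    have e1 := Real.abs_exp_sub_one_le (x := 6 * (h:ℝ) / (a:ℝ) ^ D)
      (by rw [abs_of_nonneg hε0]; linarith)
    rw [abs_of_nonneg hε0] at e1
    have e2 := (abs_le.1 e1).2
    linarith
  rw [show η = 1 - κ by rw [hκ]; ring]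
  linarith

open Classical in
/-- the lower bound, uniform in the level and in the time -/
theorem lowerT (a : ℕ) (ha : 4 ≤ a) (η : ℝ) (hη0 : 0 < η) (hη1 : η < 1) :
    ∃ C : ℝ, 0 < C ∧ ∃ X0 : ℕ, ∀ X ≥ X0, ∀ T : ℕ, Real.log X ≤ T → ∀ H : ℝ, 0 ≤ H → H ≤ T →
      C * T ≤ Real.log X * (H + Real.log (Real.log X)) →
      X * Real.exp (-(C * T / (H + Real.log (Real.log X)))) ≤
      (((Icc 2 X).filter (fun q : ℕ => q.Coprime a ∧ η * Real.exp (-H) ≤ tv a q T)).card : ℝ) := by
  have h4 : (4:ℝ) ≤ a := by exact_mod_cast ha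
  have hloga : 0 < Real.log a := Real.log_pos (by linarith)
  have hlog4a : 0 < Real.log (4 * a) := Real.log_pos (by linarith)
  obtain ⟨C, hC⟩ : ∃ C, C = 32 * Real.log a + 2 * (3 * Real.log a + Real.log (4 * a)) := ⟨_, rfl⟩
  have hC0 : 0 < C := by rw [hC]; positivity
  obtain ⟨y0, hy01, hy0⟩ := tv_eta a ha η hη0 hη1
  have hll : Tendsto (fun X : ℕ => Real.log (Real.log X)) atTop atTop :=
    Real.tendsto_log_atTop.comp (Real.tendsto_log_atTop.comp tendsto_natCast_atTop_atTop)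
  obtain ⟨X0, hX0⟩ := Filter.eventually_atTop.1
    (hll.eventually (eventually_ge_atTop (max y0 16)))
  refine ⟨C, hC0, X0, fun X hX T hTX H hH0 hH hCT => ?_⟩
  obtain ⟨l, hl⟩ : ∃ l, l = Real.log X := ⟨_, rfl⟩
  obtain ⟨y, hy⟩ : ∃ y, y = Real.log l := ⟨_, rfl⟩
  have hbig := hX0 X hX
  rw [← hl] at hbig hTX hCT ⊢
  rw [← hy] at hbig hCT ⊢
  have hyy0 : y0 ≤ y := le_trans (le_max_left _ _) hbig
  have hy16 : 16 ≤ y := le_trans (le_max_right _ _) hbig
  have hl0 : 0 < l := by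
    have h2 : 0 ≤ l := by rw [hl]; exact Real.log_natCast_nonneg X
    rcases h2.lt_or_eq with h | h
    · exact h
    · rw [hy, ← h, Real.log_zero] at hy16
      norm_num at hy16
  have hly : l = Real.exp y := by rw [hy, Real.exp_log hl0]
  have hyl : y + 1 ≤ l := by rw [hly]; exact Real.add_one_le_exp y
  have hXpos : (0:ℝ) < X := by
    rcases Nat.eq_zero_or_pos X with h0 | h0
    · rw [h0] at hl; rw [hl] at hl0; simp at hl0
    · exact_mod_cast h0
  have hXe : (X:ℝ) = Real.exp l := by rw [hl, Real.exp_log hXpos]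
  have hT0 : (0:ℝ) < T := by linarith
  obtain ⟨Lam, hLam⟩ : ∃ Lam, Lam = H + y := ⟨_, rfl⟩
  rw [← hLam] at hCT ⊢
  have hLam0 : 0 < Lam := by rw [hLam]; linarith
  have hLT : Lam ≤ 2 * T := by rw [hLam]; linarith
  have hTL : 1 / 2 ≤ T / Lam := by
    rw [div_le_div_iff₀ (by norm_num) hLam0]; linarith
  obtain ⟨w, hw⟩ : ∃ w, w = ⌈32 * (T / Lam)⌉₊ + 2 := ⟨_, rfl⟩
  have hw2 : 2 ≤ w := by omega
  have hwlow : 32 * (T / Lam) ≤ w := by
    have := Nat.le_ceil (32 * (T / Lam))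
    rw [hw]; push_cast; linarith
  have hwup : (w:ℝ) ≤ 32 * (T / Lam) + 3 := by
    have := (Nat.ceil_lt_add_one (show 0 ≤ 32 * (T / Lam) by positivity)).le
    rw [hw]; push_cast; linarith
  have hwpos : (0:ℝ) < w := by
    have : 0 < w := by omega
    exact_mod_cast this
  obtain ⟨h, hh⟩ : ∃ h, h = ⌈(T:ℝ) / w⌉₊ := ⟨_, rfl⟩
  have hhlow : (T:ℝ) ≤ (w * h : ℕ) := by
    have := Nat.le_ceil ((T:ℝ) / w)
    rw [← hh, div_le_iff₀ hwpos] at this
    push_cast
    linarith
  have hhup : (h:ℝ) ≤ Lam / 32 + 1 := by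
    have h1 := (Nat.ceil_lt_add_one (show 0 ≤ (T:ℝ) / w by positivity)).le
    rw [← hh] at h1
    have h2 : (T:ℝ) / w ≤ Lam / 32 := by
      rw [div_le_iff₀ hwpos]
      calc (T:ℝ) = Lam / 32 * (32 * (T / Lam)) := by field_simp
        _ ≤ Lam / 32 * w := mul_le_mul_of_nonneg_left hwlow (by positivity)
    linarith
  -- the size of `a ^ w`
  have hexpo : w * Real.log a + Real.log (4 * a) ≤ C * (T / Lam) := by
    have e1 : w * Real.log a ≤ (32 * (T / Lam) + 3) * Real.log a := mul_le_mul_of_nonneg_right hwup hloga.le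
    have e2 : 3 * Real.log a + Real.log (4 * a) ≤ 2 * (3 * Real.log a + Real.log (4 * a)) * (T / Lam) := by
      have : 0 < 3 * Real.log a + Real.log (4 * a) := by positivity
      nlinarith
    calc w * Real.log a + Real.log (4 * a) ≤ 32 * (T / Lam) * Real.log a + (3 * Real.log a + Real.log (4 * a)) := by linarith
      _ ≤ 32 * (T / Lam) * Real.log a + 2 * (3 * Real.log a + Real.log (4 * a)) * (T / Lam) := by linarith
      _ = C * (T / Lam) := by rw [hC]; ring
  have haw : 4 * a * (a:ℝ) ^ w = Real.exp (w * Real.log a + Real.log (4 * a)) := by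
    rw [Real.exp_add, Real.exp_log (by positivity), Real.exp_nat_mul, Real.exp_log (by positivity)]
    ring
  have hCl : C * (T / Lam) ≤ l := by
    rw [mul_div_assoc', div_le_iff₀ hLam0]
    exact hCT
  have hfit : 4 * a * a ^ w ≤ X := by
    have : 4 * a * (a:ℝ) ^ w ≤ X := by
      rw [haw, hXe, Real.exp_le_exp]; linarith
    exact_mod_cast this
  have hcount := count_mult a w X ha hw2 hfit
    (fun q => η * Real.exp (-H) ≤ tv a q T) (by
      intro s hs hsa hsX
      obtain ⟨q, hq⟩ : ∃ q, q = (a ^ w - 1) * s := ⟨_, rfl⟩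
      rw [← hq] at hsX ⊢
      have h16 := nat_aw_ge a w ha hw2
      have hqpos : 0 < q := by rw [hq]; exact Nat.mul_pos (by omega) hs
      have hnw : T ≤ w * h := by exact_mod_cast hhlow
      have hcop : q.Coprime a := by
        rw [hq]
        exact Nat.Coprime.mul_left (coprime_r a w ha hw2) hsa
      refine le_trans ?_ (Pool.Agent.Results.MP_456481_pr.Cutoff.tv_mono a q hqpos hcop hnw)
      rcases le_total y H with hcase | hcase
      · -- one character
        have e1 := tv_low_char a w h s ha hw2 hs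
        rw [← hq] at e1
        refine le_trans ?_ e1
        have e2 : Lam ≤ 2 * H := by rw [hLam]; linarith
        have e3 : (h:ℝ) ≤ H / 16 + 1 := by linarith
        have e4 : Real.exp (-H) ≤ Real.exp (-h) / 2 := by
          have e5 : (2:ℝ) ≤ Real.exp 1 := by have := Real.add_one_le_exp (1:ℝ); linarith
          have e6 : Real.exp (-H) * Real.exp 1 ≤ Real.exp (-h) := by
            rw [← Real.exp_add, Real.exp_le_exp]; linarith
          have e7 := Real.exp_pos (-H)
          nlinarith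
        have e8 := Real.exp_pos (-H)
        nlinarith
      · -- second moment
        have e1 : (h:ℝ) ≤ y / 8 := by
          have e2 : Lam ≤ 2 * y := by rw [hLam]; linarith
          linarith
        have e2 : Real.exp y / (2 * y) ≤ w := by
          refine le_trans ?_ hwlow
          rw [← hly]
          have e3 : l / (2 * y) ≤ T / Lam := by
            apply div_le_div₀ hT0.le hTX hLam0
            rw [hLam]; linarith
          have e4 : 0 ≤ T / Lam := by positivity
          linarith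
        have e3 := hy0 y w h s hyy0 hw2 hs e2 e1
        rw [← hq] at e3
        have e4 : Real.exp (-H) ≤ 1 := by
          rw [Real.exp_le_one_iff]; linarith
        nlinarith)
  refine le_trans ?_ hcount
  rw [haw, hXe, ← Real.exp_add, ← Real.exp_sub, Real.exp_le_exp]
  have : C * T / Lam = C * (T / Lam) := by ring
  rw [this]
  linarith

end Pool.Agent.KS6_18.MX
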