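import Pool.Agent.KS6_18.MX.UpT
import Pool.Agent.KS6_18.MX.LowAn

/-!
The exceptional set of the question: two-sided bound.
-/

set_option autoImplicit false

open Finset Filter Topology

namespace Pool.Agent.KS6_18.MX

open H942R3.AX

/-- the exceptional moduli -/
def ExcP (a : ℕ) (δ η : ℝ) (q : ℕ) : Prop :=
  ¬ ∃ t : ℕ, IsLeast {n : ℕ | tv a q n ≤ η} t ∧ |(t : ℝ) / Real.logb 2 q - 1| ≤ δ

open Classical in
theorem exc_upper (a : ℕ) (ha : 4 ≤ a) (δ : ℝ) (hδ : 0 < δ) (η : ℝ) (hη0 : 0 < η) (hη1 : η < 1) :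
    ∃ c : ℝ, 0 < c ∧ ∃ X0 : ℕ, ∀ X ≥ X0,
      (((Icc 2 X).filter (fun q : ℕ => q.Coprime a ∧ ExcP a δ η q)).card : ℝ) ≤
        X * Real.exp (-(c * Real.log X / Real.log (Real.log X))) := by
  obtain ⟨c, hc0, X0, hX0⟩ := upper a ha (δ / 2) (by positivity)
  -- a threshold for `q`
  have hlogb : Tendsto (fun q : ℕ => Real.logb 2 q) atTop atTop :=
    (Real.tendsto_logb_atTop (by norm_num)).comp tendsto_natCast_atTop_atTop
  have hpow : Tendsto (fun q : ℕ => (q:ℝ) ^ (-(δ / 2))) atTop (𝓝 0) :=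
    (tendsto_rpow_neg_atTop (by positivity)).comp tendsto_natCast_atTop_atTop
  obtain ⟨Q1, hQ1⟩ := Filter.eventually_atTop.1 (hlogb.eventually (eventually_ge_atTop (2 / δ)))
  obtain ⟨Q2, hQ2⟩ := Filter.eventually_atTop.1
    (hpow.eventually (gt_mem_nhds (show 0 < 1 - η by linarith)))
  obtain ⟨Q0, hQ0⟩ : ∃ Q0, Q0 = max Q1 Q2 := ⟨_, rfl⟩
  obtain ⟨H, hH⟩ : ∃ H, H = -Real.log η := ⟨_, rfl⟩
  have hH0 : 0 < H := by rw [hH]; have := Real.log_neg hη0 hη1; linarith
  have hHη : Real.exp (-H) = η := by rw [hH, neg_neg, Real.exp_log hη0]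
  have hincl : ∀ q, Q0 ≤ q → 2 ≤ q → q.Coprime a → ExcP a δ η q →
      ∃ n : ℕ, (1 + δ / 2) * Real.logb 2 q ≤ n ∧ Real.exp (-H) ≤ tv a q n := by
    intro q hq hq2 hqa hno
    by_contra hcon
    push Not at hcon
    apply hno
    rw [hHη] at hcon
    have h1 := hQ1 q (le_trans (le_trans (le_max_left _ _) hQ0.ge) hq)
    have h2 := hQ2 q (le_trans (le_trans (le_max_right _ _) hQ0.ge) hq)
    obtain ⟨Lq, hLq⟩ : ∃ Lq, Lq = Real.logb 2 q := ⟨_, rfl⟩
    rw [← hLq] at h1 hcon ⊢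
    have hLqpos : 0 < Lq := lt_of_lt_of_le (by positivity) h1
    have hδL : 1 ≤ δ / 2 * Lq := by
      rw [div_le_iff₀ hδ] at h1
      linarith
    obtain ⟨n0, hn0⟩ : ∃ n0, n0 = ⌈(1 + δ / 2) * Lq⌉₊ := ⟨_, rfl⟩
    have hn0l : (1 + δ / 2) * Lq ≤ n0 := by rw [hn0]; exact Nat.le_ceil _
    have hn0' : (n0 : ℝ) ≤ (1 + δ) * Lq := by
      have h3 := (Nat.ceil_lt_add_one (show 0 ≤ (1 + δ / 2) * Lq by positivity)).le
      rw [← hn0] at h3
      nlinarith
    have htv0 := (hcon n0 hn0l).le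
    have hex : ∃ n : ℕ, tv a q n ≤ η := ⟨n0, htv0⟩
    refine ⟨Nat.find hex, ⟨Nat.find_spec hex, fun n hn => Nat.find_min' hex hn⟩, ?_⟩
    have hup : ((Nat.find hex : ℕ) : ℝ) ≤ (1 + δ) * Lq := by
      have h3 : Nat.find hex ≤ n0 := Nat.find_min' hex htv0
      have h4 : ((Nat.find hex : ℕ) : ℝ) ≤ n0 := by exact_mod_cast h3
      linarith
    have hlow : (1 - δ) * Lq ≤ ((Nat.find hex : ℕ) : ℝ) := by
      by_contra hcon'
      push Not at hcon'
      have h3 := Pool.Agent.Results.MP_456481_pr.Cutoff.cut_lower a q (by omega) (δ / 2)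
        (Nat.find hex) (by rw [← hLq]; nlinarith)
      have h4 : tv a q (Nat.find hex) ≤ η := Nat.find_spec hex
      linarith
    rw [abs_le]
    constructor
    · rw [neg_le_sub_iff_le_add]
      have : 1 - δ ≤ ((Nat.find hex : ℕ) : ℝ) / Lq := by
        rw [le_div_iff₀ hLqpos]; exact hlow
      linarith
    · have : ((Nat.find hex : ℕ) : ℝ) / Lq ≤ 1 + δ := by
        rw [div_le_iff₀ hLqpos]; exact hup
      linarith
  -- the counting
  have hlogX : Tendsto (fun X : ℕ => Real.log X) atTop atTop :=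
    Real.tendsto_log_atTop.comp tendsto_natCast_atTop_atTop
  have hllX : Tendsto (fun X : ℕ => Real.log (Real.log X)) atTop atTop :=
    Real.tendsto_log_atTop.comp hlogX
  have hratio : ∀ᶠ y : ℝ in atTop, Real.log y ≤ c / 4 * y := by
    have h1 := Real.isLittleO_log_id_atTop.bound (show 0 < c / 4 by positivity)
    filter_upwards [h1, eventually_ge_atTop 1] with y hy hy1
    rw [Real.norm_eq_abs, Real.norm_eq_abs, abs_of_nonneg (Real.log_nonneg hy1)] at hy
    simpa [abs_of_nonneg (by linarith : (0:ℝ) ≤ y)] using hy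
  obtain ⟨X1, hX1⟩ := Filter.eventually_atTop.1 ((hlogX.eventually (hratio.and
    (eventually_ge_atTop (max (max (H / c) 1) (2 * Q0))))).and
    (hllX.eventually (eventually_ge_atTop (max (max H c) 1))))
  refine ⟨c / 4, by positivity, max X0 (max X1 2), fun X hX => ?_⟩
  have hX2 : 2 ≤ X := le_trans ((le_max_right _ _).trans (le_max_right _ _)) hX
  have hXpos : (0:ℝ) < X := by
    have : 0 < X := by omega
    exact_mod_cast this
  obtain ⟨⟨hr, hb⟩, hll⟩ := hX1 X (le_trans ((le_max_left _ _).trans (le_max_right _ _)) hX)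
  have hm := hX0 X (le_trans (le_max_left _ _) hX) H hH0.le (by
    have h1 := (le_max_left (H / c) 1).trans ((le_max_left _ _).trans hb)
    rw [div_le_iff₀ hc0] at h1
    linarith)
  obtain ⟨l, hl⟩ : ∃ l, l = Real.log X := ⟨_, rfl⟩
  obtain ⟨y, hy⟩ : ∃ y, y = Real.log l := ⟨_, rfl⟩
  rw [← hl] at hr hb hll hm ⊢
  rw [← hy] at hr hll hm ⊢
  have hyH : H ≤ y := (le_max_left _ _).trans ((le_max_left _ _).trans hll)
  have hyc : c ≤ y := (le_max_right _ _).trans ((le_max_left _ _).trans hll)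
  have hy1 : 1 ≤ y := (le_max_right _ _).trans hll
  have hl1 : 1 ≤ l := (le_max_right (H / c) 1).trans ((le_max_left _ _).trans hb)
  have hlQ : 2 * (Q0:ℝ) ≤ l := (le_max_right _ _).trans hb
  have hsplit := Pool.Agent.Results.MP_456481_pr.Cutoff.card_split a
    (fun q => ∃ n : ℕ, (1 + δ / 2) * Real.logb 2 q ≤ n ∧ Real.exp (-H) ≤ tv a q n)
    (fun q => ExcP a δ η q) Q0 X hincl
  have hXe : (X:ℝ) = Real.exp l := by rw [hl, Real.exp_log hXpos]
  obtain ⟨z, hz⟩ : ∃ z, z = l / y := ⟨_, rfl⟩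
  have hz0 : 0 ≤ z := by rw [hz]; positivity
  have hzc : 1 ≤ c / 4 * z := by
    rw [hz, mul_div_assoc', le_div_iff₀ (by linarith), one_mul]; exact hr
  have hzl : c * z ≤ l := by
    rw [hz, mul_div_assoc', div_le_iff₀ (by linarith)]
    nlinarith
  have h1 : Real.exp (-(c * l / (H + y))) ≤ Real.exp (-(c / 2 * z)) := by
    rw [Real.exp_le_exp, neg_le_neg_iff, hz, mul_div_assoc', div_le_div_iff₀ (by linarith) (by linarith)]
    have : c / 2 * l * (H + y) ≤ c / 2 * l * (2 * y) :=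
      mul_le_mul_of_nonneg_left (by linarith) (by positivity)
    linarith
  have h2 : (Q0:ℝ) ≤ X * Real.exp (-(c / 2 * z)) := by
    rw [hXe, ← Real.exp_add]
    have e1 : l / 2 ≤ l + -(c / 2 * z) := by linarith
    have e2 : l / 2 + 1 ≤ Real.exp (l / 2) := Real.add_one_le_exp _
    have e3 : Real.exp (l / 2) ≤ Real.exp (l + -(c / 2 * z)) := Real.exp_le_exp.2 e1
    linarith
  have h3 : 2 * Real.exp (-(c / 2 * z)) ≤ Real.exp (-(c / 4 * z)) := by
    have e1 : (2:ℝ) ≤ Real.exp (c / 4 * z) := by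
      have := Real.add_one_le_exp (c / 4 * z)
      linarith
    have e2 : Real.exp (-(c / 4 * z)) = Real.exp (c / 4 * z) * Real.exp (-(c / 2 * z)) := by
      rw [← Real.exp_add]; congr 1; ring
    rw [e2]
    exact mul_le_mul_of_nonneg_right e1 (Real.exp_pos _).le
  have h4 : c / 4 * l / y = c / 4 * z := by rw [hz]; ring
  rw [h4]
  have h5 : X * Real.exp (-(c * l / (H + y))) ≤ X * Real.exp (-(c / 2 * z)) :=
    mul_le_mul_of_nonneg_left h1 hXpos.le
  have h6 : X * (2 * Real.exp (-(c / 2 * z))) ≤ X * Real.exp (-(c / 4 * z)) :=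
    mul_le_mul_of_nonneg_left h3 hXpos.le
  linarith

open Classical in
theorem exc_lower (a : ℕ) (ha : 4 ≤ a) (δ : ℝ) (hδ : 0 < δ) (η : ℝ) (hη0 : 0 < η) (hη1 : η < 1) :
    ∃ C : ℝ, 0 < C ∧ ∃ X0 : ℕ, ∀ X ≥ X0,
      X * Real.exp (-(C * Real.log X / Real.log (Real.log X))) ≤
      (((Icc 2 X).filter (fun q : ℕ => q.Coprime a ∧ ExcP a δ η q)).card : ℝ) := by
  obtain ⟨C, hC0, X0, hX0⟩ := lowerT a ha ((1 + η) / 2) (by linarith) (by linarith)
  have hlog2 : 0 < Real.log 2 := Real.log_pos (by norm_num)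
  have hlog2' : Real.log 2 < 1 := by have := Real.log_two_lt_d9; linarith
  obtain ⟨K, hK⟩ : ∃ K, K = (1 + δ) / Real.log 2 + 1 := ⟨_, rfl⟩
  have hK0 : 0 < K := by rw [hK]; positivity
  have hlogX : Tendsto (fun X : ℕ => Real.log X) atTop atTop :=
    Real.tendsto_log_atTop.comp tendsto_natCast_atTop_atTop
  have hllX : Tendsto (fun X : ℕ => Real.log (Real.log X)) atTop atTop :=
    Real.tendsto_log_atTop.comp hlogX
  obtain ⟨X1, hX1⟩ := Filter.eventually_atTop.1 ((hlogX.eventually (eventually_ge_atTop 1)).and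
    (hllX.eventually (eventually_ge_atTop (max (C * K) 1))))
  refine ⟨C * K, by positivity, max X0 (max X1 2), fun X hX => ?_⟩
  have hX2 : 2 ≤ X := le_trans ((le_max_right _ _).trans (le_max_right _ _)) hX
  have hXpos : (0:ℝ) < X := by
    have : 0 < X := by omega
    exact_mod_cast this
  obtain ⟨hl1, hll⟩ := hX1 X (le_trans ((le_max_left _ _).trans (le_max_right _ _)) hX)
  obtain ⟨T, hT⟩ : ∃ T, T = ⌈(1 + δ) * Real.logb 2 X⌉₊ := ⟨_, rfl⟩
  have hLX0 : 0 ≤ Real.logb 2 X := by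
    rw [Real.logb]; positivity
  have hTlow : (1 + δ) * Real.logb 2 X ≤ T := by rw [hT]; exact Nat.le_ceil _
  have hTup : (T:ℝ) ≤ (1 + δ) * Real.logb 2 X + 1 := by
    rw [hT]; exact (Nat.ceil_lt_add_one (by positivity)).le
  have hm := hX0 X (le_trans (le_max_left _ _) hX) T
  obtain ⟨l, hl⟩ : ∃ l, l = Real.log X := ⟨_, rfl⟩
  obtain ⟨y, hy⟩ : ∃ y, y = Real.log l := ⟨_, rfl⟩
  have hLXl : Real.logb 2 X = l / Real.log 2 := by rw [hl, Real.logb]
  have hlL : l ≤ Real.logb 2 X := by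
    rw [hLXl, le_div_iff₀ hlog2]
    rw [← hl] at hl1
    exact mul_le_of_le_one_right (by linarith) hlog2'.le
  rw [← hl] at hl1 hll hm ⊢
  rw [← hy] at hll hm ⊢
  have hyK : C * K ≤ y := (le_max_left _ _).trans hll
  have hy1 : 1 ≤ y := (le_max_right _ _).trans hll
  have hTK : (T:ℝ) ≤ K * l := by
    rw [hLXl] at hTup
    rw [hK]
    have e1 : (1 + δ) * (l / Real.log 2) + 1 ≤ (1 + δ) * (l / Real.log 2) + l := by linarith
    calc (T:ℝ) ≤ (1 + δ) * (l / Real.log 2) + 1 := hTup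
      _ ≤ (1 + δ) * (l / Real.log 2) + l := e1
      _ = ((1 + δ) / Real.log 2 + 1) * l := by ring
  have hlT : l ≤ T := by nlinarith
  have hCT : C * T ≤ C * K * l := by
    rw [mul_assoc]
    exact mul_le_mul_of_nonneg_left hTK hC0.le
  have hm2 := hm hlT 0 le_rfl (Nat.cast_nonneg T) (by
    rw [zero_add]
    calc C * T ≤ C * K * l := hCT
      _ ≤ y * l := mul_le_mul_of_nonneg_right hyK (by linarith)
      _ = l * y := by ring)
  rw [zero_add, neg_zero, Real.exp_zero, mul_one] at hm2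
  calc X * Real.exp (-(C * K * l / y)) ≤ X * Real.exp (-(C * T / y)) := by
        apply mul_le_mul_of_nonneg_left _ hXpos.le
        rw [Real.exp_le_exp, neg_le_neg_iff]
        exact div_le_div_of_nonneg_right hCT (by linarith)
    _ ≤ _ := hm2
    _ ≤ _ := by
        have : ((Icc 2 X).filter (fun q : ℕ => q.Coprime a ∧ (1 + η) / 2 ≤ tv a q T)) ⊆
            ((Icc 2 X).filter (fun q : ℕ => q.Coprime a ∧ ExcP a δ η q)) := by
          intro q hq
          rw [Finset.mem_filter, Finset.mem_Icc] at hq ⊢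
          obtain ⟨⟨hq2, hqX⟩, hqa, htv⟩ := hq
          refine ⟨⟨hq2, hqX⟩, hqa, ?_⟩
          rintro ⟨t, ht, habs⟩
          have ht1 : tv a q t ≤ η := ht.1
          have hqpos : (0:ℝ) < q := by
            have : 0 < q := by omega
            exact_mod_cast this
          have hLq : 0 < Real.logb 2 q := by
            apply Real.logb_pos (by norm_num)
            have : 1 < q := by omega
            exact_mod_cast this
          have h1 : (t:ℝ) / Real.logb 2 q ≤ 1 + δ := by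
            have := (abs_le.1 habs).2
            linarith
          rw [div_le_iff₀ hLq] at h1
          have h2 : Real.logb 2 q ≤ Real.logb 2 X := by
            apply Real.logb_le_logb_of_le (by norm_num) hqpos
            exact_mod_cast hqX
          have h3 : (t:ℝ) ≤ T := by
            have : (1 + δ) * Real.logb 2 q ≤ (1 + δ) * Real.logb 2 X :=
              mul_le_mul_of_nonneg_left h2 (by linarith)
            linarith
          have h4 : t ≤ T := by exact_mod_cast h3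
          have h5 := Pool.Agent.Results.MP_456481_pr.Cutoff.tv_mono a q (by omega) hqa h4
          linarith
        exact_mod_cast Finset.card_le_card this

end Pool.Agent.KS6_18.MX
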