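import Pool.Agent.KS6_18.MX.Small

/-!
Frequencies with a large reduced denominator: the moduli which have a frequency of reduced
denominator `≥ 2 ^ w0` with few active positions are rare, `≪ X (5/8) ^ w0` of them up to `X`.
-/

set_option autoImplicit false

open Finset Filter Topology

namespace Pool.Agent.KS6_18.MX

open H942R3.AX

theorem bad_dvd' (a : ℕ) (ha : 4 ≤ a) (h W L X q k w0 : ℕ) (hX : X < 2 ^ W) (hWL : W ≤ L)
    (hq : q ≤ X) (hqa : q.Coprime a) (hk : 0 < k) (hkq : k < q) (hden : 2 ^ w0 ≤ den q k)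
    (hL : h * na a ((k : ℝ) / q) L < L) :
    ∃ w ∈ Ioc w0 W, ∃ q' ∈ (Qs a h w).filter (fun q' => 2 ^ (w - 1) ≤ q'), q' ∣ q := by
  obtain ⟨g, hg⟩ : ∃ g, g = Nat.gcd k q := ⟨_, rfl⟩
  have hgpos : 0 < g := by rw [hg]; exact Nat.gcd_pos_of_pos_left _ hk
  obtain ⟨p', hp'⟩ := Nat.gcd_dvd_left k q
  obtain ⟨q', hq'⟩ := Nat.gcd_dvd_right k q
  have hgk : g ≤ k := by rw [hg]; exact Nat.gcd_le_left _ hk
  have hcop0 := Nat.coprime_div_gcd_div_gcd (m := k) (n := q) (by rw [← hg]; exact hgpos)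
  rw [den, ← hg] at hden
  rw [← hg] at hp' hq' hcop0
  have e1 : k / g = p' := by rw [hp']; exact Nat.mul_div_cancel_left _ hgpos
  have e2 : q / g = q' := by rw [hq']; exact Nat.mul_div_cancel_left _ hgpos
  rw [e2] at hden
  have hcop : Nat.Coprime p' q' := by rwa [e1, e2] at hcop0
  have hq'2 : 2 ≤ q' := by
    by_contra hcon
    push Not at hcon
    interval_cases q' <;> omega
  have hq'a : Nat.Coprime q' a := Nat.Coprime.coprime_dvd_left ⟨g, by rw [hq']; ring⟩ hqa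
  set w := Nat.log 2 q' + 1 with hw
  have hq'lt : q' < 2 ^ w := Nat.lt_pow_succ_log_self (by norm_num) q'
  have hq'ge : 2 ^ (w - 1) ≤ q' := by
    rw [hw, Nat.add_sub_cancel]
    exact Nat.pow_log_le_self 2 (by omega)
  have hq'q : q' ≤ q := Nat.le_of_dvd (by omega) ⟨g, by rw [hq']; ring⟩
  have hwW : w ≤ W := by
    rw [hw]
    have : Nat.log 2 q' < W := by
      apply Nat.log_lt_of_lt_pow (by omega)
      omega
    omega
  have hw0 : w0 < w := by
    have : w0 ≤ Nat.log 2 q' := (Nat.le_log_iff_pow_le (by norm_num) (by omega)).2 hden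
    omega
  obtain ⟨r, hr⟩ := pigeon a ((k : ℝ) / q) h w L (by omega) (by omega) hL
  have hx : (k : ℝ) / q * (a:ℝ) ^ (r * w) = (((p' * a ^ (r * w) : ℕ) : ℤ) : ℝ) / q' := by
    rw [hp', hq']
    push_cast
    have h1 : (g : ℝ) ≠ 0 := by exact_mod_cast hgpos.ne'
    have h2 : (q' : ℝ) ≠ 0 := by
      have : q' ≠ 0 := by omega
      exact_mod_cast this
    field_simp
  rw [hx] at hr
  have hc : IsCoprime (((p' * a ^ (r * w) : ℕ) : ℤ)) (q' : ℤ) := by
    apply Nat.isCoprime_iff_coprime.2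
    exact Nat.Coprime.mul_left hcop (Nat.Coprime.pow_left _ hq'a.symm)
  have hmem : q' ∈ Qs a h w := by
    classical
    rw [Qs, Finset.mem_filter, Finset.mem_range]
    exact ⟨hq'lt, by omega, _, hc, hr⟩
  refine ⟨w, ?_, q', ?_, ⟨g, by rw [hq']; ring⟩⟩
  · rw [Finset.mem_Ioc]; exact ⟨hw0, hwW⟩
  · rw [Finset.mem_filter]; exact ⟨hmem, hq'ge⟩

open Classical in
/-- counting the bad moduli -/
theorem bad_card' (a : ℕ) (ha : 4 ≤ a) (h W L X w0 : ℕ) (hX : X < 2 ^ W) (hWL : W ≤ L)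
    (hQ : ∀ w : ℕ, ((Qs a h w).card : ℝ) ≤ (5 / 4) ^ w) :
    (((Icc 1 X).filter (fun q : ℕ => q.Coprime a ∧ ∃ k : ℕ, 0 < k ∧ k < q ∧ 2 ^ w0 ≤ den q k ∧
      h * na a ((k : ℝ) / q) L < L)).card : ℝ) ≤ X * (16 / 3 * (5 / 8) ^ (w0 + 1)) := by
  have hsub : ((Icc 1 X).filter (fun q : ℕ => q.Coprime a ∧ ∃ k : ℕ, 0 < k ∧ k < q ∧
      2 ^ w0 ≤ den q k ∧ h * na a ((k : ℝ) / q) L < L)) ⊆
      (Ioc w0 W).biUnion (fun w => ((Qs a h w).filter (fun q' => 2 ^ (w - 1) ≤ q')).biUnion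
        (fun q' => (Ioc 0 X).filter (fun q : ℕ => q' ∣ q))) := by
    intro q hq
    rw [Finset.mem_filter, Finset.mem_Icc] at hq
    obtain ⟨⟨hq1, hqX⟩, hqa, k, hk, hkq, hden, hL⟩ := hq
    obtain ⟨w, hw, q', hq', hd⟩ := bad_dvd' a ha h W L X q k w0 hX hWL hqX hqa hk hkq hden hL
    rw [Finset.mem_biUnion]
    refine ⟨w, hw, ?_⟩
    rw [Finset.mem_biUnion]
    refine ⟨q', hq', ?_⟩
    rw [Finset.mem_filter, Finset.mem_Ioc]
    exact ⟨⟨by omega, hqX⟩, hd⟩
  have h1 : (((Icc 1 X).filter (fun q : ℕ => q.Coprime a ∧ ∃ k : ℕ, 0 < k ∧ k < q ∧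
      2 ^ w0 ≤ den q k ∧ h * na a ((k : ℝ) / q) L < L)).card : ℝ) ≤
      ∑ w ∈ Ioc w0 W, ∑ q' ∈ (Qs a h w).filter (fun q' => 2 ^ (w - 1) ≤ q'),
        (((Ioc 0 X).filter (fun q : ℕ => q' ∣ q)).card : ℝ) := by
    have h2 : ((Icc 1 X).filter (fun q : ℕ => q.Coprime a ∧ ∃ k : ℕ, 0 < k ∧ k < q ∧
      2 ^ w0 ≤ den q k ∧ h * na a ((k : ℝ) / q) L < L)).card ≤
      ∑ w ∈ Ioc w0 W, ∑ q' ∈ (Qs a h w).filter (fun q' => 2 ^ (w - 1) ≤ q'),
        ((Ioc 0 X).filter (fun q : ℕ => q' ∣ q)).card := by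
      refine (Finset.card_le_card hsub).trans (Finset.card_biUnion_le.trans ?_)
      exact Finset.sum_le_sum fun w _ => Finset.card_biUnion_le
    exact_mod_cast h2
  refine h1.trans ?_
  have h3 : ∀ w ∈ Ioc w0 W, ∑ q' ∈ (Qs a h w).filter (fun q' => 2 ^ (w - 1) ≤ q'),
        (((Ioc 0 X).filter (fun q : ℕ => q' ∣ q)).card : ℝ) ≤ X * (2 * (5 / 8) ^ w) := by
    intro w hw
    rw [Finset.mem_Ioc] at hw
    have hw1 : 1 ≤ w := by omega
    have h4 : ∀ q' ∈ (Qs a h w).filter (fun q' => 2 ^ (w - 1) ≤ q'),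
        (((Ioc 0 X).filter (fun q : ℕ => q' ∣ q)).card : ℝ) ≤ X * (2 / 2 ^ w) := by
      intro q' hq'
      rw [Finset.mem_filter] at hq'
      rw [Nat.Ioc_filter_dvd_card_eq_div]
      have h5 : ((X / q' : ℕ) : ℝ) ≤ (X : ℝ) / q' := Nat.cast_div_le
      refine h5.trans ?_
      have h6 : (2:ℝ) ^ (w - 1) ≤ q' := by exact_mod_cast hq'.2
      have h7 : (2:ℝ) / 2 ^ w = 1 / 2 ^ (w - 1) := by
        have : (2:ℝ) ^ w = 2 ^ (w - 1) * 2 := by
          rw [← pow_succ]; congr 1; omega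
        rw [this]; field_simp
      rw [h7, mul_one_div]
      exact div_le_div_of_nonneg_left (by positivity) (by positivity) h6
    refine (Finset.sum_le_sum h4).trans ?_
    rw [Finset.sum_const, nsmul_eq_mul]
    have h8 : (((Qs a h w).filter (fun q' => 2 ^ (w - 1) ≤ q')).card : ℝ) ≤ (5 / 4) ^ w := by
      refine le_trans ?_ (hQ w)
      exact_mod_cast Finset.card_filter_le _ _
    have h9 : (5 / 8 : ℝ) ^ w = (5 / 4) ^ w / 2 ^ w := by
      rw [← div_pow]; norm_num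
    rw [h9]
    calc (((Qs a h w).filter (fun q' => 2 ^ (w - 1) ≤ q')).card : ℝ) * (X * (2 / 2 ^ w))
        ≤ (5 / 4) ^ w * (X * (2 / 2 ^ w)) := mul_le_mul_of_nonneg_right h8 (by positivity)
      _ = _ := by ring
  refine (Finset.sum_le_sum h3).trans ?_
  rw [← Finset.mul_sum]
  apply mul_le_mul_of_nonneg_left _ (by positivity)
  rw [← Finset.mul_sum]
  have h10 : Ioc w0 W = Ico (w0 + 1) (W + 1) := by
    ext w; rw [Finset.mem_Ioc, Finset.mem_Ico]; omega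
  rw [h10]
  have h11 := geom_sum_Ico_le_of_lt_one (x := (5 / 8 : ℝ)) (m := w0 + 1) (n := W + 1) (by norm_num) (by norm_num)
  have h12 : (5 / 8 : ℝ) ^ (w0 + 1) / (1 - 5 / 8) = 8 / 3 * (5 / 8) ^ (w0 + 1) := by
    ring
  rw [h12] at h11
  linarith

/-- one frequency with many active positions -/
theorem key_freq (a : ℕ) (ha : 2 ≤ a) (h R m q k : ℕ)
    (κ : ℝ) (hκ0 : 0 ≤ κ) (hκ1 : κ ≤ 1) (hκ : κ ^ h = 1 - 1 / (a:ℝ) ^ 2)
    (hR : 1 ≤ R) (h1 : R * m ≤ h * na a ((k : ℝ) / q) (R * m)) :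
    ∏ j ∈ range (R * m), cs q k (a ^ j) ≤
      ∑ r ∈ range R, κ ^ m * ∏ j ∈ range (R * m) \ Ico (r * m) (r * m + m), cs q k (a ^ j) := by
  classical
  obtain ⟨r, hr, hr2⟩ : ∃ r < R, m ≤ h * na a ((k : ℝ) / q * (a:ℝ) ^ (r * m)) m := by
    by_contra hcon
    push Not at hcon
    rw [na_mul, Finset.mul_sum] at h1
    have h2 : ∑ r ∈ range R, h * na a ((k : ℝ) / q * (a:ℝ) ^ (r * m)) m < ∑ r ∈ range R, m := by
      apply Finset.sum_lt_sum_of_nonempty
      · exact ⟨0, Finset.mem_range.2 (by omega)⟩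
      · intro r hr
        exact hcon r (Finset.mem_range.1 hr)
    rw [Finset.sum_const, Finset.card_range, smul_eq_mul] at h2
    omega
  have hsub : Ico (r * m) (r * m + m) ⊆ range (R * m) := by
    intro j hj
    rw [Finset.mem_Ico] at hj
    rw [Finset.mem_range]
    have : (r + 1) * m ≤ R * m := Nat.mul_le_mul_right m hr
    have h3 : (r + 1) * m = r * m + m := by ring
    omega
  have h3 : ∏ j ∈ range (R * m), cs q k (a ^ j) =
      (∏ j ∈ Ico (r * m) (r * m + m), cs q k (a ^ j)) *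
        ∏ j ∈ range (R * m) \ Ico (r * m) (r * m + m), cs q k (a ^ j) := by
    exact (Finset.prod_sdiff hsub).symm.trans (mul_comm _ _)
  have h4 : ∏ j ∈ Ico (r * m) (r * m + m), cs q k (a ^ j) ≤ κ ^ m := by
    have h5 : ∏ j ∈ Ico (r * m) (r * m + m), cs q k (a ^ j) =
        ∏ i ∈ range m, cs q k (a ^ (r * m + i)) := by
      rw [Finset.prod_Ico_eq_prod_range]
      rw [Nat.add_sub_cancel_left]
    rw [h5]
    have hρ0 : 0 ≤ 1 - 1 / (a:ℝ) ^ 2 := by
      rw [← hκ]; exact pow_nonneg hκ0 _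
    calc ∏ i ∈ range m, cs q k (a ^ (r * m + i))
        ≤ ∏ i ∈ range m, (if act a ((k : ℝ) / q * (a:ℝ) ^ (r * m)) i then 1 - 1 / (a:ℝ) ^ 2 else 1) := by
          apply Finset.prod_le_prod
          · intro i _; exact cs_nonneg _ _ _
          · intro i _
            split_ifs with hact
            · rw [act_shift] at hact
              exact cs_act a q k _ (by omega) hact
            · exact cs_le_one _ _ _
      _ = (1 - 1 / (a:ℝ) ^ 2) ^ (na a ((k : ℝ) / q * (a:ℝ) ^ (r * m)) m) := by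
          rw [Finset.prod_ite, Finset.prod_const_one, mul_one, Finset.prod_const, na]
      _ = κ ^ (h * na a ((k : ℝ) / q * (a:ℝ) ^ (r * m)) m) := by
          rw [← hκ, ← pow_mul]
      _ ≤ κ ^ m := pow_le_pow_of_le_one hκ0 hκ1 hr2
  rw [h3]
  have h6 : ∀ r' : ℕ, 0 ≤ κ ^ m * ∏ j ∈ range (R * m) \ Ico (r' * m) (r' * m + m), cs q k (a ^ j) := by
    intro r'
    apply mul_nonneg (pow_nonneg hκ0 _)
    exact Finset.prod_nonneg fun j _ => cs_nonneg _ _ _
  calc (∏ j ∈ Ico (r * m) (r * m + m), cs q k (a ^ j)) *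
        ∏ j ∈ range (R * m) \ Ico (r * m) (r * m + m), cs q k (a ^ j)
      ≤ κ ^ m * ∏ j ∈ range (R * m) \ Ico (r * m) (r * m + m), cs q k (a ^ j) := by
        apply mul_le_mul_of_nonneg_right h4
        exact Finset.prod_nonneg fun j _ => cs_nonneg _ _ _
    _ ≤ _ := Finset.single_le_sum (f := fun r' => κ ^ m *
        ∏ j ∈ range (R * m) \ Ico (r' * m) (r' * m + m), cs q k (a ^ j))
        (fun r' _ => h6 r') (Finset.mem_range.2 hr)

/-- the sum over all frequencies, small and large denominators separated -/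
theorem split_bound (a : ℕ) (ha : 4 ≤ a) (h R m q w0 N : ℕ) (hR : 1 ≤ R) (hq : 0 < q)
    (hqa : q.Coprime a) (κ : ℝ) (hκ0 : 0 ≤ κ) (hκ1 : κ ≤ 1) (hκ : κ ^ h = 1 - 1 / (a:ℝ) ^ 2)
    (hN : 1 ≤ N) (hNw : N * w0 ≤ R * m)
    (hgood : ∀ k, 0 < k → k < q → 2 ^ w0 ≤ den q k → R * m ≤ h * na a ((k : ℝ) / q) (R * m)) :
    ∑ k ∈ (range q).erase 0, ∏ j ∈ range (R * m), cs q k (a ^ j) ≤
      N * ((1 + 2 * a * (1 - 1 / (a:ℝ) ^ 2) ^ N) ^ w0 - 1) +
      ∑ r ∈ range R, κ ^ m * ∑ k ∈ range q,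
        ∏ j ∈ range (R * m) \ Ico (r * m) (r * m + m), cs q k (a ^ j) := by
  classical
  rw [← Finset.sum_filter_add_sum_filter_not ((range q).erase 0) (fun k => den q k < 2 ^ w0)]
  refine add_le_add (sum_small_w a q ha hq hqa w0 N (R * m) hN hNw) ?_
  calc ∑ k ∈ ((range q).erase 0).filter (fun k => ¬ den q k < 2 ^ w0),
        ∏ j ∈ range (R * m), cs q k (a ^ j)
      ≤ ∑ k ∈ ((range q).erase 0).filter (fun k => ¬ den q k < 2 ^ w0), ∑ r ∈ range R, κ ^ m *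
          ∏ j ∈ range (R * m) \ Ico (r * m) (r * m + m), cs q k (a ^ j) := by
        apply Finset.sum_le_sum
        intro k hk
        rw [Finset.mem_filter, Finset.mem_erase, Finset.mem_range] at hk
        exact key_freq a (by omega) h R m q k κ hκ0 hκ1 hκ hR
          (hgood k (Nat.pos_of_ne_zero hk.1.1) hk.1.2 (not_lt.1 hk.2))
    _ ≤ ∑ k ∈ range q, ∑ r ∈ range R, κ ^ m *
          ∏ j ∈ range (R * m) \ Ico (r * m) (r * m + m), cs q k (a ^ j) := by
        apply Finset.sum_le_sum_of_subset_of_nonneg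
          ((Finset.filter_subset _ _).trans (Finset.erase_subset _ _))
        intro k _ _
        apply Finset.sum_nonneg
        intro r _
        apply mul_nonneg (pow_nonneg hκ0 _)
        exact Finset.prod_nonneg fun j _ => cs_nonneg _ _ _
    _ = _ := by
        rw [Finset.sum_comm]
        refine Finset.sum_congr rfl fun r _ => ?_
        rw [Finset.mul_sum]

end Pool.Agent.KS6_18.MX
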