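import Pool.Agent.KS6_18.MX.Trig

/-!
The distance from uniformity is close to one at the multiples of `a ^ w - 1`.
-/

set_option autoImplicit false

open Finset Filter Topology

namespace Pool.Agent.KS6_18.MX

open H942R3.AX

theorem norm_digits_real (a n : ℕ) (θ : ℝ) :
    ‖∑ b : Fin n → Fin 2, e1 (θ * (pos a n b : ℕ))‖ =
      2 ^ n * ∏ j ∈ range n, |Real.cos (Real.pi * (θ * (a ^ j : ℕ)))| := by
  rw [sum_digits_real, norm_prod]
  have : ∀ j ∈ range n, ‖1 + e1 (θ * (a ^ j : ℕ))‖ =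
      2 * |Real.cos (Real.pi * (θ * (a ^ j : ℕ)))| := by
    intro j _
    rw [← norm_one_add_e1, norm_div]
    simp
    ring
  rw [Finset.prod_congr rfl this, Finset.prod_mul_distrib, Finset.prod_const, Finset.card_range]

/-- the mean of the characters -/
noncomputable def mu (a w h : ℕ) : ℂ :=
  (∏ l ∈ range w, ((1 + e1 ((a:ℝ) ^ l / ((a:ℝ) ^ w - 1))) / 2)) ^ h

theorem freq_shift (a w j : ℕ) (ha : 4 ≤ a) (hw : 2 ≤ w) :
    (a:ℝ) ^ (j + w) / ((a:ℝ) ^ w - 1) = (a:ℝ) ^ j / ((a:ℝ) ^ w - 1) + ((a ^ j : ℕ) : ℤ) := by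
  have h16 := aw_ge a w ha hw
  have h3 : (a:ℝ) ^ w - 1 ≠ 0 := by linarith
  push_cast
  rw [div_add' _ _ _ h3, div_left_inj' h3, pow_add]
  ring

theorem mean_eq (a w h i : ℕ) (ha : 4 ≤ a) (hw : 2 ≤ w) :
    ∑ b : Fin (w * h) → Fin 2, e1 ((a:ℝ) ^ i / ((a:ℝ) ^ w - 1) * (pos a (w * h) b : ℕ)) =
      2 ^ (w * h) * mu a w h := by
  rw [sum_digits_real]
  have hg : ∀ j, (fun j : ℕ => (1 + e1 ((a:ℝ) ^ j / ((a:ℝ) ^ w - 1))) / 2) (j + w) =
      (fun j : ℕ => (1 + e1 ((a:ℝ) ^ j / ((a:ℝ) ^ w - 1))) / 2) j := by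
    intro j
    show (1 + e1 ((a:ℝ) ^ (j + w) / ((a:ℝ) ^ w - 1))) / 2 = _
    rw [freq_shift a w j ha hw, e1_add_int]
  have h1 := prod_periodic (fun j : ℕ => (1 + e1 ((a:ℝ) ^ j / ((a:ℝ) ^ w - 1))) / 2) w hg h i
  rw [mu, ← h1]
  have h2 : ∀ j ∈ range (w * h), (1 + e1 ((a:ℝ) ^ i / ((a:ℝ) ^ w - 1) * (a ^ j : ℕ))) =
      2 * ((1 + e1 ((a:ℝ) ^ (i + j) / ((a:ℝ) ^ w - 1))) / 2) := by
    intro j _
    rw [mul_div_cancel₀ _ (by norm_num : (2:ℂ) ≠ 0)]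
    congr 2
    push_cast
    rw [pow_add]
    ring
  rw [Finset.prod_congr rfl h2, Finset.prod_mul_distrib, Finset.prod_const, Finset.card_range]

theorem norm_mu (a w h : ℕ) (ha : 4 ≤ a) (hw : 2 ≤ w) : ‖mu a w h‖ = (C1 a w) ^ h := by
  rw [mu, norm_pow, norm_prod]
  congr 1
  rw [C1]
  refine Finset.prod_congr rfl fun l hl => ?_
  rw [norm_one_add_e1, ← yy, abs_of_pos (cos_yy_pos a w l ha hw (Finset.mem_range.1 hl))]

/-- the pair correlations, ordered pair -/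
theorem pair_lt (a w h i j D : ℕ) (ha : 4 ≤ a) (hw : 2 ≤ w) (h1 : j + D ≤ i) (h2 : i + D ≤ j + w) :
    ‖∑ b : Fin (w * h) → Fin 2,
      e1 (((a:ℝ) ^ i - (a:ℝ) ^ j) / ((a:ℝ) ^ w - 1) * (pos a (w * h) b : ℕ))‖ ≤
      2 ^ (w * h) * ((C1 a w) ^ (2 * h) * Real.exp (6 * h / (a:ℝ) ^ D)) := by
  rw [norm_digits_real]
  apply mul_le_mul_of_nonneg_left _ (by positivity)
  obtain ⟨g, hgdef⟩ : ∃ g : ℕ → ℝ, g = fun l : ℕ =>
    |Real.cos (Real.pi * (((a:ℝ) ^ (i + l) - (a:ℝ) ^ (j + l)) / ((a:ℝ) ^ w - 1)))| := ⟨_, rfl⟩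
  have hg : ∀ l, g (l + w) = g l := by
    intro l
    rw [hgdef]
    show |Real.cos (Real.pi * (((a:ℝ) ^ (i + (l + w)) - (a:ℝ) ^ (j + (l + w))) / ((a:ℝ) ^ w - 1)))| = _
    rw [← add_assoc, ← add_assoc, sub_div, freq_shift a w _ ha hw, freq_shift a w _ ha hw]
    rw [show (a:ℝ) ^ (i + l) / ((a:ℝ) ^ w - 1) + (((a ^ (i + l) : ℕ) : ℤ) : ℝ) -
      ((a:ℝ) ^ (j + l) / ((a:ℝ) ^ w - 1) + (((a ^ (j + l) : ℕ) : ℤ) : ℝ)) =
      ((a:ℝ) ^ (i + l) - (a:ℝ) ^ (j + l)) / ((a:ℝ) ^ w - 1) +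
        ((((a ^ (i + l) : ℕ) : ℤ) - ((a ^ (j + l) : ℕ) : ℤ) : ℤ) : ℝ) by push_cast; ring, abs_cos_add_int]
  have h3 := prod_periodic g w hg h 0
  have h4 : ∏ l ∈ range (w * h), |Real.cos (Real.pi * (((a:ℝ) ^ i - (a:ℝ) ^ j) / ((a:ℝ) ^ w - 1) * (a ^ l : ℕ)))|
      = ∏ l ∈ range (w * h), g (0 + l) := by
    refine Finset.prod_congr rfl fun l _ => ?_
    rw [hgdef]
    show _ = |Real.cos (Real.pi * (((a:ℝ) ^ (i + (0 + l)) - (a:ℝ) ^ (j + (0 + l))) / ((a:ℝ) ^ w - 1)))|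
    congr 2
    push_cast
    rw [zero_add, pow_add, pow_add]
    ring
  rw [h4, h3]
  have h5 := prod_pair a w i j D ha hw h1 h2
  have h6 : ∏ l ∈ range w, g l ≤ (C1 a w) ^ 2 * Real.exp (6 / (a:ℝ) ^ D) := by
    rw [hgdef]; exact h5
  have h7 : 0 ≤ ∏ l ∈ range w, g l := by
    apply Finset.prod_nonneg
    intro l _; rw [hgdef]; exact abs_nonneg _
  calc (∏ l ∈ range w, g l) ^ h ≤ ((C1 a w) ^ 2 * Real.exp (6 / (a:ℝ) ^ D)) ^ h :=
        pow_le_pow_left₀ h7 h6 h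
    _ = _ := by
        rw [mul_pow, ← pow_mul, ← Real.exp_nat_mul]
        congr 2
        ring

theorem pair_ne (a w h D t t' M : ℕ) (ha : 4 ≤ a) (hw : 2 ≤ w) (hMD : M * D ≤ w) (ht : t < M)
    (ht' : t' < M) (hne : t ≠ t') :
    ‖∑ b : Fin (w * h) → Fin 2,
      e1 (((a:ℝ) ^ (t * D) - (a:ℝ) ^ (t' * D)) / ((a:ℝ) ^ w - 1) * (pos a (w * h) b : ℕ))‖ ≤
      2 ^ (w * h) * ((C1 a w) ^ (2 * h) * Real.exp (6 * h / (a:ℝ) ^ D)) := by
  have hle : ∀ u v : ℕ, u < v → v < M → u * D + D ≤ v * D ∧ v * D + D ≤ u * D + w := by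
    intro u v h1 h2
    have e1 : (u + 1) * D ≤ v * D := Nat.mul_le_mul_right D h1
    have e2 : (v + 1) * D ≤ M * D := Nat.mul_le_mul_right D h2
    rw [add_mul, one_mul] at e1 e2
    omega
  rcases Nat.lt_or_gt_of_ne hne with h1 | h1
  · obtain ⟨h2, h3⟩ := hle t t' h1 ht'
    have h4 := pair_lt a w h (t' * D) (t * D) D ha hw h2 h3
    rw [norm_digits_real] at h4 ⊢
    have h5 : ∀ l : ℕ, |Real.cos (Real.pi * (((a:ℝ) ^ (t * D) - (a:ℝ) ^ (t' * D)) / ((a:ℝ) ^ w - 1) * (a ^ l : ℕ)))| =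
        |Real.cos (Real.pi * (((a:ℝ) ^ (t' * D) - (a:ℝ) ^ (t * D)) / ((a:ℝ) ^ w - 1) * (a ^ l : ℕ)))| := by
      intro l
      rw [← Real.cos_neg]
      congr 2
      ring
    simp only [h5]
    exact h4
  · obtain ⟨h2, h3⟩ := hle t' t h1 ht
    exact pair_lt a w h (t * D) (t' * D) D ha hw h2 h3

/-- the test function -/
noncomputable def ff (a w D M : ℕ) (x : ℕ) : ℂ :=
  ∑ t ∈ range M, e1 ((a:ℝ) ^ (t * D) / ((a:ℝ) ^ w - 1) * x)

theorem cast_r (a w : ℕ) (ha : 4 ≤ a) : ((a ^ w - 1 : ℕ) : ℝ) = (a:ℝ) ^ w - 1 := by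
  have : 1 ≤ a ^ w := Nat.one_le_pow _ _ (by omega)
  push_cast [Nat.cast_sub this]
  ring

theorem ff_mod (a w D M s x : ℕ) (ha : 4 ≤ a) (hw : 2 ≤ w) :
    ff a w D M (x % ((a ^ w - 1) * s)) = ff a w D M x := by
  have h16 := aw_ge a w ha hw
  have h3 : (a:ℝ) ^ w - 1 ≠ 0 := by linarith
  rw [ff, ff]
  refine Finset.sum_congr rfl fun t _ => ?_
  obtain ⟨y, hy⟩ : ∃ y, y = x / ((a ^ w - 1) * s) := ⟨_, rfl⟩
  obtain ⟨z, hz⟩ : ∃ z, z = x % ((a ^ w - 1) * s) := ⟨_, rfl⟩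
  have h1 := Nat.div_add_mod x ((a ^ w - 1) * s)
  rw [← hy, ← hz] at h1
  rw [← hz]
  have h2 : (x:ℝ) = ((a:ℝ) ^ w - 1) * s * y + z := by
    rw [← h1]; push_cast [cast_r a w ha]; ring
  have h4 : (a:ℝ) ^ (t * D) / ((a:ℝ) ^ w - 1) * x =
      (a:ℝ) ^ (t * D) / ((a:ℝ) ^ w - 1) * z + (((a ^ (t * D) * s * y : ℕ) : ℤ) : ℝ) := by
    rw [h2]; push_cast; field_simp; ring
  rw [h4, e1_add_int]

theorem ff_ee (a w D M s x : ℕ) (ha : 4 ≤ a) (hw : 2 ≤ w) (hs : 1 ≤ s) :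
    ff a w D M x = ∑ t ∈ range M, ee ((a ^ w - 1) * s) x ((a ^ (t * D) * s : ℕ) : ℤ) := by
  have h16 := aw_ge a w ha hw
  have h3 : ((a:ℝ) ^ w - 1 : ℝ) ≠ 0 := by linarith
  have hs' : (s:ℝ) ≠ 0 := by
    have : 0 < s := hs
    exact_mod_cast this.ne'
  rw [ff]
  refine Finset.sum_congr rfl fun t _ => ?_
  rw [e1, ee]
  congr 1
  have h4 : (a:ℝ) ^ (t * D) / ((a:ℝ) ^ w - 1) * x =
      (x:ℝ) * (((a ^ (t * D) * s : ℕ) : ℤ) : ℝ) / (((a ^ w - 1) * s : ℕ) : ℝ) := by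
    push_cast [cast_r a w ha]
    field_simp
  rw [h4]
  push_cast
  ring

theorem ff_l2 (a w D M s : ℕ) (ha : 4 ≤ a) (hw : 2 ≤ w) (hD : 1 ≤ D) (hMD : M * D ≤ w) (hs : 1 ≤ s) :
    ∑ x ∈ range ((a ^ w - 1) * s), ‖ff a w D M x‖ ^ 2 = (((a ^ w - 1) * s : ℕ) : ℝ) * M := by
  have h16 : 16 ≤ a ^ w := by
    calc 16 = 4 ^ 2 := by norm_num
      _ ≤ a ^ 2 := Nat.pow_le_pow_left ha 2
      _ ≤ a ^ w := Nat.pow_le_pow_right (by omega) hw
  have hq : 0 < (a ^ w - 1) * s := Nat.mul_pos (by omega) hs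
  simp only [ff_ee a w D M s _ ha hw hs]
  rw [parseval _ hq]
  congr 1
  have hset : ((range M ×ˢ range M).filter (fun p : ℕ × ℕ => (((a ^ w - 1) * s : ℕ) : ℤ) ∣
      ((a ^ (p.1 * D) * s : ℕ) : ℤ) - ((a ^ (p.2 * D) * s : ℕ) : ℤ))) =
      (range M).image (fun t => (t, t)) := by
    ext ⟨t, t'⟩
    rw [Finset.mem_filter, Finset.mem_product, Finset.mem_image, Finset.mem_range, Finset.mem_range]
    constructor
    · rintro ⟨⟨h1, h2⟩, h3⟩
      refine ⟨t, Finset.mem_range.2 h1, ?_⟩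
      have hpow : ∀ u, u < M → a ^ (u * D) < a ^ w - 1 := by
        intro u hu
        have e2 : (u + 1) * D ≤ M * D := Nat.mul_le_mul_right D hu
        rw [add_mul, one_mul] at e2
        have e3 : a ^ (u * D + 1) ≤ a ^ w := Nat.pow_le_pow_right (by omega) (by omega)
        rw [pow_succ] at e3
        have e4 : a ^ (u * D) * 4 ≤ a ^ (u * D) * a := Nat.mul_le_mul_left _ ha
        have e5 : 1 ≤ a ^ (u * D) := Nat.one_le_pow _ _ (by omega)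
        omega
      have h4 : ((a ^ w - 1 : ℕ) : ℤ) ∣ ((a ^ (t * D) : ℕ) : ℤ) - ((a ^ (t' * D) : ℕ) : ℤ) := by
        have hs0 : (s:ℤ) ≠ 0 := by
          have : 0 < s := hs
          exact_mod_cast this.ne'
        have e : (((a ^ w - 1 : ℕ) : ℤ) * s) ∣
            (((a ^ (t * D) : ℕ) : ℤ) - ((a ^ (t' * D) : ℕ) : ℤ)) * s := by
          rw [Nat.cast_mul, Nat.cast_mul, Nat.cast_mul, ← sub_mul] at h3
          exact h3
        exact (mul_dvd_mul_iff_right hs0).1 e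
      have h5 : ((a ^ (t * D) : ℕ) : ℤ) - ((a ^ (t' * D) : ℕ) : ℤ) = 0 := by
        have e1 := hpow t h1
        have e2 := hpow t' h2
        apply Int.eq_zero_of_abs_lt_dvd h4
        rw [abs_lt]
        constructor <;> omega
      have h6 : a ^ (t * D) = a ^ (t' * D) := by omega
      have h7 := Nat.pow_right_injective (by omega : 2 ≤ a) h6
      have h8 : t = t' := Nat.eq_of_mul_eq_mul_right (by omega) h7
      rw [← h8]
    · rintro ⟨u, hu, h⟩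
      rw [Prod.mk.injEq] at h
      obtain ⟨rfl, rfl⟩ := h
      have := Finset.mem_range.1 hu
      exact ⟨⟨this, this⟩, by simp⟩
  rw [hset, Finset.card_image_of_injective, Finset.card_range]
  intro x y hxy
  exact (Prod.mk.inj hxy).1

theorem card_fun (n : ℕ) : Fintype.card (Fin n → Fin 2) = 2 ^ n := by simp

/-- the second moment -/
theorem second_moment (a w h D M : ℕ) (ha : 4 ≤ a) (hw : 2 ≤ w) (hMD : M * D ≤ w) :
    ∑ b : Fin (w * h) → Fin 2, ‖ff a w D M (pos a (w * h) b)‖ ^ 2 ≤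
      2 ^ (w * h) * (M + (M:ℝ) ^ 2 * ((C1 a w) ^ (2 * h) * Real.exp (6 * h / (a:ℝ) ^ D))) := by
  obtain ⟨E, hE⟩ : ∃ E, E = (C1 a w) ^ (2 * h) * Real.exp (6 * h / (a:ℝ) ^ D) := ⟨_, rfl⟩
  have hE0 : 0 ≤ E := by rw [hE]; have := C1_pos a w ha hw; positivity
  have h1 : ((∑ b : Fin (w * h) → Fin 2, ‖ff a w D M (pos a (w * h) b)‖ ^ 2 : ℝ) : ℂ) =
      ∑ t ∈ range M, ∑ t' ∈ range M, ∑ b : Fin (w * h) → Fin 2,
        e1 (((a:ℝ) ^ (t * D) - (a:ℝ) ^ (t' * D)) / ((a:ℝ) ^ w - 1) * (pos a (w * h) b : ℕ)) := by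
    push_cast
    have e : ∀ b : Fin (w * h) → Fin 2, ((‖ff a w D M (pos a (w * h) b)‖ : ℂ)) ^ 2 =
        ∑ t ∈ range M, ∑ t' ∈ range M,
        e1 (((a:ℝ) ^ (t * D) - (a:ℝ) ^ (t' * D)) / ((a:ℝ) ^ w - 1) * (pos a (w * h) b : ℕ)) := by
      intro b
      rw [← Complex.mul_conj', ff, map_sum, Finset.sum_mul_sum]
      refine Finset.sum_congr rfl fun t _ => Finset.sum_congr rfl fun t' _ => ?_
      rw [e1_mul_conj]
      congr 1
      ring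
    simp only [e]
    rw [Finset.sum_comm]
    refine Finset.sum_congr rfl fun t _ => ?_
    rw [Finset.sum_comm]
  have h2 : ∑ b : Fin (w * h) → Fin 2, ‖ff a w D M (pos a (w * h) b)‖ ^ 2 =
      ‖((∑ b : Fin (w * h) → Fin 2, ‖ff a w D M (pos a (w * h) b)‖ ^ 2 : ℝ) : ℂ)‖ := by
    rw [Complex.norm_real, Real.norm_eq_abs, abs_of_nonneg (Finset.sum_nonneg fun _ _ => sq_nonneg _)]
  rw [h2, h1, ← hE]
  refine (norm_sum_le _ _).trans ?_
  have h3 : ∀ t ∈ range M, ‖∑ t' ∈ range M, ∑ b : Fin (w * h) → Fin 2,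
        e1 (((a:ℝ) ^ (t * D) - (a:ℝ) ^ (t' * D)) / ((a:ℝ) ^ w - 1) * (pos a (w * h) b : ℕ))‖ ≤
      2 ^ (w * h) * (1 + M * E) := by
    intro t ht
    rw [Finset.mem_range] at ht
    refine (norm_sum_le _ _).trans ?_
    have h4 : ∀ t' ∈ range M, ‖∑ b : Fin (w * h) → Fin 2,
        e1 (((a:ℝ) ^ (t * D) - (a:ℝ) ^ (t' * D)) / ((a:ℝ) ^ w - 1) * (pos a (w * h) b : ℕ))‖ ≤
        (if t' = t then (2:ℝ) ^ (w * h) else 0) + 2 ^ (w * h) * E := by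
      intro t' ht'
      rw [Finset.mem_range] at ht'
      split_ifs with hc
      · rw [hc]
        have : ∀ b : Fin (w * h) → Fin 2,
            e1 (((a:ℝ) ^ (t * D) - (a:ℝ) ^ (t * D)) / ((a:ℝ) ^ w - 1) * (pos a (w * h) b : ℕ)) = 1 := by
          intro b; rw [sub_self, zero_div, zero_mul, e1_zero]
        simp only [this]
        rw [Finset.sum_const, Finset.card_univ, card_fun]
        have h5 : ‖(2 ^ (w * h)) • (1:ℂ)‖ = (2:ℝ) ^ (w * h) := by simp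
        rw [h5]
        have : 0 ≤ (2:ℝ) ^ (w * h) * E := by positivity
        linarith
      · rw [zero_add, hE]
        exact pair_ne a w h D t t' M ha hw hMD ht ht' (fun e => hc e.symm)
    refine (Finset.sum_le_sum h4).trans ?_
    rw [Finset.sum_add_distrib, Finset.sum_ite_eq' (range M) t, if_pos (Finset.mem_range.2 ht),
      Finset.sum_const, Finset.card_range, nsmul_eq_mul]
    apply le_of_eq
    ring
  refine (Finset.sum_le_sum h3).trans ?_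
  rw [Finset.sum_const, Finset.card_range, nsmul_eq_mul]
  apply le_of_eq
  ring

theorem first_moment (a w h D M : ℕ) (ha : 4 ≤ a) (hw : 2 ≤ w) :
    ∑ b : Fin (w * h) → Fin 2, ff a w D M (pos a (w * h) b) = 2 ^ (w * h) * (M * mu a w h) := by
  simp only [ff]
  rw [Finset.sum_comm]
  simp only [mean_eq a w h _ ha hw]
  rw [Finset.sum_const, Finset.card_range, nsmul_eq_mul]
  ring

theorem variance (a w h D M : ℕ) (ha : 4 ≤ a) (hw : 2 ≤ w) (hMD : M * D ≤ w) :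
    ∑ b : Fin (w * h) → Fin 2, ‖ff a w D M (pos a (w * h) b) - M * mu a w h‖ ^ 2 ≤
      2 ^ (w * h) * (M + (M:ℝ) ^ 2 * ((C1 a w) ^ (2 * h) * (Real.exp (6 * h / (a:ℝ) ^ D) - 1))) := by
  obtain ⟨m, hm⟩ : ∃ m, m = (M:ℂ) * mu a w h := ⟨_, rfl⟩
  obtain ⟨F, hF⟩ : ∃ F : (Fin (w * h) → Fin 2) → ℂ, F = fun b => ff a w D M (pos a (w * h) b) := ⟨_, rfl⟩
  have h1 : ∑ b, F b = 2 ^ (w * h) * m := by rw [hF, hm]; exact first_moment a w h D M ha hw
  have h2 : ∑ b, ‖F b‖ ^ 2 ≤ 2 ^ (w * h) * (M + (M:ℝ) ^ 2 * ((C1 a w) ^ (2 * h) * Real.exp (6 * h / (a:ℝ) ^ D))) := by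
    rw [hF]; exact second_moment a w h D M ha hw hMD
  have h3 : ‖m‖ ^ 2 = (M:ℝ) ^ 2 * (C1 a w) ^ (2 * h) := by
    rw [hm, norm_mul, norm_mu a w h ha hw, mul_pow, ← pow_mul, mul_comm h 2]
    simp
  have h4 : ∑ b, ‖F b - m‖ ^ 2 = ∑ b, ‖F b‖ ^ 2 - 2 ^ (w * h) * ‖m‖ ^ 2 := by
    have : ((∑ b, ‖F b - m‖ ^ 2 : ℝ) : ℂ) = ((∑ b, ‖F b‖ ^ 2 - 2 ^ (w * h) * ‖m‖ ^ 2 : ℝ) : ℂ) := by
      push_cast
      simp only [← Complex.mul_conj']
      have e : ∀ b, (F b - m) * (starRingEnd ℂ) (F b - m) =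
          F b * (starRingEnd ℂ) (F b) - m * (starRingEnd ℂ) (F b) - (starRingEnd ℂ) m * F b +
            m * (starRingEnd ℂ) m := by
        intro b; rw [map_sub]; ring
      simp only [e]
      rw [Finset.sum_add_distrib, Finset.sum_sub_distrib, Finset.sum_sub_distrib, ← Finset.mul_sum,
        ← Finset.mul_sum, ← map_sum, h1, Finset.sum_const, Finset.card_univ, card_fun, nsmul_eq_mul]
      simp only [map_mul, map_pow, map_ofNat]
      push_cast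
      ring
    exact_mod_cast this
  have h5 : ∑ b : Fin (w * h) → Fin 2, ‖ff a w D M (pos a (w * h) b) - M * mu a w h‖ ^ 2 = ∑ b, ‖F b - m‖ ^ 2 := by
    rw [hF, hm]
  rw [h5, h4, h3]
  have h6 : (2:ℝ) ^ (w * h) * (M + (M:ℝ) ^ 2 * ((C1 a w) ^ (2 * h) * (Real.exp (6 * h / (a:ℝ) ^ D) - 1))) =
    2 ^ (w * h) * (M + (M:ℝ) ^ 2 * ((C1 a w) ^ (2 * h) * Real.exp (6 * h / (a:ℝ) ^ D))) -
      2 ^ (w * h) * ((M:ℝ) ^ 2 * (C1 a w) ^ (2 * h)) := by ring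
  rw [h6]
  linarith

/-- the lower bound by the second moment method -/
theorem tv_low (a w h D M s : ℕ) (ha : 4 ≤ a) (hw : 2 ≤ w) (hD : 1 ≤ D) (hM : 1 ≤ M)
    (hMD : M * D ≤ w) (hs : 1 ≤ s) :
    1 - 8 / (M * (C1 a w) ^ (2 * h)) - 4 * (Real.exp (6 * h / (a:ℝ) ^ D) - 1) ≤
      tv a ((a ^ w - 1) * s) (w * h) := by
  have h16 : 16 ≤ a ^ w := by
    calc 16 = 4 ^ 2 := by norm_num
      _ ≤ a ^ 2 := Nat.pow_le_pow_left ha 2
      _ ≤ a ^ w := Nat.pow_le_pow_right (by omega) hw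
  obtain ⟨q, hqdef⟩ : ∃ q, q = (a ^ w - 1) * s := ⟨_, rfl⟩
  have hq : 0 < q := by rw [hqdef]; exact Nat.mul_pos (by omega) hs
  have hq' : (0:ℝ) < q := by exact_mod_cast hq
  have hl2 := ff_l2 a w D M s ha hw hD hMD hs
  rw [← hqdef] at hl2 ⊢
  obtain ⟨m, hm⟩ : ∃ m, m = (M:ℂ) * mu a w h := ⟨_, rfl⟩
  have hC := C1_pos a w ha hw
  have hM' : (0:ℝ) < M := by
    have : 0 < M := hM
    exact_mod_cast this
  have h3 : ‖m‖ ^ 2 = (M:ℝ) ^ 2 * (C1 a w) ^ (2 * h) := by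
    rw [hm, norm_mul, norm_mu a w h ha hw, mul_pow, ← pow_mul, mul_comm h 2]
    simp
  have hm2 : 0 < ‖m‖ ^ 2 := by rw [h3]; positivity
  have hmpos : 0 < ‖m‖ := by
    rcases (norm_nonneg m).lt_or_eq with h | h
    · exact h
    · rw [← h] at hm2; norm_num at hm2
  obtain ⟨B, hB⟩ : ∃ B : Finset ℕ, B = (range q).filter (fun x => ‖m‖ / 2 ≤ ‖ff a w D M x‖) := ⟨_, rfl⟩
  have hBsub : B ⊆ range q := by rw [hB]; exact Finset.filter_subset _ _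
  have htv := tv_ge_event a q (w * h) hq B hBsub
  -- the uniform measure of the event
  have hU : (B.card : ℝ) / q ≤ 4 / (M * (C1 a w) ^ (2 * h)) := by
    have e1 : (B.card : ℝ) * (‖m‖ / 2) ^ 2 ≤ q * M := by
      rw [← hl2]
      calc (B.card : ℝ) * (‖m‖ / 2) ^ 2 = ∑ x ∈ B, (‖m‖ / 2) ^ 2 := by
            rw [Finset.sum_const, nsmul_eq_mul]
        _ ≤ ∑ x ∈ B, ‖ff a w D M x‖ ^ 2 := by
            apply Finset.sum_le_sum
            intro x hx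
            rw [hB, Finset.mem_filter] at hx
            exact pow_le_pow_left₀ (by positivity) hx.2 2
        _ ≤ _ := Finset.sum_le_sum_of_subset_of_nonneg hBsub fun _ _ _ => sq_nonneg _
    rw [div_le_div_iff₀ hq' (by positivity)]
    rw [div_pow, h3] at e1
    have e2 : (B.card : ℝ) * ((M:ℝ) ^ 2 * (C1 a w) ^ (2 * h) / 2 ^ 2) =
      ((B.card : ℝ) * (M * (C1 a w) ^ (2 * h))) * M / 4 := by ring
    rw [e2, div_le_iff₀ (by norm_num)] at e1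
    have e3 : ((B.card : ℝ) * (M * (C1 a w) ^ (2 * h))) * M ≤ (4 * q) * M := by linarith
    exact le_of_mul_le_mul_right e3 hM'
  -- the law of the event
  have hP : 1 - (4 / (M * (C1 a w) ^ (2 * h)) + 4 * (Real.exp (6 * h / (a:ℝ) ^ D) - 1)) ≤
      ∑ x ∈ B, law a q (w * h) x := by
    have e1 := Finset.sum_sdiff (f := fun x => law a q (w * h) x) hBsub
    rw [sum_law a q (w * h) hq] at e1
    have e2 : (∑ x ∈ range q \ B, law a q (w * h) x) * (‖m‖ ^ 2 / 4) ≤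
        ∑ x ∈ range q, law a q (w * h) x * ‖ff a w D M x - m‖ ^ 2 := by
      rw [Finset.sum_mul]
      calc ∑ x ∈ range q \ B, law a q (w * h) x * (‖m‖ ^ 2 / 4)
          ≤ ∑ x ∈ range q \ B, law a q (w * h) x * ‖ff a w D M x - m‖ ^ 2 := by
            apply Finset.sum_le_sum
            intro x hx
            apply mul_le_mul_of_nonneg_left _ (law_nonneg _ _ _ _)
            rw [Finset.mem_sdiff, hB, Finset.mem_filter] at hx
            have hx2 : ‖ff a w D M x‖ < ‖m‖ / 2 := by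
              by_contra hcon
              exact hx.2 ⟨hx.1, not_lt.1 hcon⟩
            have hx3 : ‖m‖ / 2 ≤ ‖ff a w D M x - m‖ := by
              have := norm_sub_norm_le m (ff a w D M x)
              rw [norm_sub_rev] at this
              linarith
            calc ‖m‖ ^ 2 / 4 = (‖m‖ / 2) ^ 2 := by ring
              _ ≤ _ := pow_le_pow_left₀ (by positivity) hx3 2
        _ ≤ _ := Finset.sum_le_sum_of_subset_of_nonneg Finset.sdiff_subset fun x _ _ =>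
            mul_nonneg (law_nonneg _ _ _ _) (sq_nonneg _)
    rw [sum_law_real a q (w * h) hq (fun x => ‖ff a w D M x - m‖ ^ 2)] at e2
    have e3 : ∀ b : Fin (w * h) → Fin 2, ff a w D M (pos a (w * h) b % q) = ff a w D M (pos a (w * h) b) := by
      intro b; rw [hqdef]; exact ff_mod a w D M s _ ha hw
    simp only [e3] at e2
    have e4 := variance a w h D M ha hw hMD
    rw [← hm] at e4
    have e5 : (∑ b : Fin (w * h) → Fin 2, ‖ff a w D M (pos a (w * h) b) - m‖ ^ 2) / 2 ^ (w * h) ≤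
        M + (M:ℝ) ^ 2 * ((C1 a w) ^ (2 * h) * (Real.exp (6 * h / (a:ℝ) ^ D) - 1)) := by
      rw [div_le_iff₀ (by positivity), mul_comm _ ((2:ℝ) ^ (w * h))]
      exact e4
    have e6 : (∑ x ∈ range q \ B, law a q (w * h) x) * (‖m‖ ^ 2 / 4) ≤
        M + (M:ℝ) ^ 2 * ((C1 a w) ^ (2 * h) * (Real.exp (6 * h / (a:ℝ) ^ D) - 1)) := e2.trans e5
    have e7 : M + (M:ℝ) ^ 2 * ((C1 a w) ^ (2 * h) * (Real.exp (6 * h / (a:ℝ) ^ D) - 1)) =
        (4 / (M * (C1 a w) ^ (2 * h)) + 4 * (Real.exp (6 * h / (a:ℝ) ^ D) - 1)) * (‖m‖ ^ 2 / 4) := by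
      rw [h3]
      field_simp
    rw [e7] at e6
    have e8 := le_of_mul_le_mul_right e6 (by positivity)
    linarith
  have e9 : 8 / (M * (C1 a w) ^ (2 * h)) = 4 / (M * (C1 a w) ^ (2 * h)) + 4 / (M * (C1 a w) ^ (2 * h)) := by
    ring
  rw [e9]
  linarith

/-- the lower bound by one character -/
theorem tv_low_char (a w h s : ℕ) (ha : 4 ≤ a) (hw : 2 ≤ w) (hs : 1 ≤ s) :
    Real.exp (-h) / 2 ≤ tv a ((a ^ w - 1) * s) (w * h) := by
  have h16 : 16 ≤ a ^ w := by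
    calc 16 = 4 ^ 2 := by norm_num
      _ ≤ a ^ 2 := Nat.pow_le_pow_left ha 2
      _ ≤ a ^ w := Nat.pow_le_pow_right (by omega) hw
  obtain ⟨q, hqdef⟩ : ∃ q, q = (a ^ w - 1) * s := ⟨_, rfl⟩
  have hq : 0 < q := by rw [hqdef]; exact Nat.mul_pos (by omega) hs
  have hsum : ∑ x ∈ range q, ff a w 1 1 x = 0 := by
    have h1 : ∀ x, ff a w 1 1 x = ee q x ((s : ℕ) : ℤ) := by
      intro x
      rw [hqdef, ff_ee a w 1 1 s x ha hw hs]
      simp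
    simp only [h1]
    rw [orth q hq, if_neg]
    intro hdvd
    have h2 : q ∣ s := by exact_mod_cast hdvd
    have h3 := Nat.le_of_dvd (by omega) h2
    rw [hqdef] at h3
    have h4 : 15 * s ≤ (a ^ w - 1) * s := Nat.mul_le_mul_right s (by omega)
    omega
  have hnorm : ∀ x, ‖ff a w 1 1 x‖ ≤ 1 := by
    intro x
    rw [ff, Finset.sum_range_one, e1_norm]
  have h1 := tv_ge_char a q (w * h) (ff a w 1 1) hnorm hsum
  rw [sum_law_fun a q (w * h) hq] at h1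
  have e3 : ∀ b : Fin (w * h) → Fin 2, ff a w 1 1 (pos a (w * h) b % q) = ff a w 1 1 (pos a (w * h) b) := by
    intro b; rw [hqdef]; exact ff_mod a w 1 1 s _ ha hw
  simp only [e3] at h1
  rw [first_moment a w h 1 1 ha hw] at h1
  have h2 : ‖(2:ℂ) ^ (w * h) * (((1:ℕ) : ℂ) * mu a w h) / 2 ^ (w * h)‖ = (C1 a w) ^ h := by
    rw [mul_div_cancel_left₀ _ (pow_ne_zero _ two_ne_zero), Nat.cast_one, one_mul, norm_mu a w h ha hw]
  rw [h2] at h1
  rw [← hqdef]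
  refine le_trans ?_ h1
  have h3 := C1_ge a w ha hw
  have h4 : Real.exp (-h) = (Real.exp (-1)) ^ h := by
    rw [← Real.exp_nat_mul]; congr 1; ring
  rw [h4]
  have h5 := pow_le_pow_left₀ (Real.exp_pos (-1)).le h3 h
  linarith

end Pool.Agent.KS6_18.MX
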