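import Pool.Graph.R_seed8.H942R3.AXMain

/-!
Frequencies with a small reduced denominator: the sum of the squares of the Fourier coefficients of
the `a x + b` walk over ALL frequencies `k / q` with reduced denominator below `2 ^ w0` is small as
soon as the number of steps is large compared with `w0 log w0`, uniformly in `q`.
-/

set_option autoImplicit false

open Finset Filter Topology

namespace Pool.Agent.KS6_18.MX

open H942R3.AX

/-- two fractions with small denominators and the same carries have the same fractional part -/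
theorem same_frac (a : ℕ) (ha : 4 ≤ a) (w : ℕ) (q q' : ℕ) (p p' : ℤ) (hq : 0 < q) (hq' : 0 < q')
    (hqw : q < 2 ^ w) (hqw' : q' < 2 ^ w)
    (hc : ∀ i < w, cy a ((p : ℝ) / q) i = cy a ((p' : ℝ) / q') i) :
    (p : ℝ) / q - round ((p : ℝ) / q) = (p' : ℝ) / q' - round ((p' : ℝ) / q') := by
  have hqr : (0:ℝ) < q := by exact_mod_cast hq
  have hqr' : (0:ℝ) < q' := by exact_mod_cast hq'
  set x := (p : ℝ) / q with hx
  set x' := (p' : ℝ) / q' with hx'
  have h1 := cy_sum a x w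
  have h2 := cy_sum a x' w
  have h3 : ∑ i ∈ range w, (cy a x i : ℝ) * (a:ℝ) ^ (w - 1 - i) =
      ∑ i ∈ range w, (cy a x' i : ℝ) * (a:ℝ) ^ (w - 1 - i) := by
    refine Finset.sum_congr rfl fun i hi => ?_
    rw [hc i (Finset.mem_range.1 hi)]
  have b1 := abs_sub_round (x * (a : ℝ) ^ w)
  have b2 := abs_sub_round (x' * (a : ℝ) ^ w)
  have haw : (4:ℝ) ^ w ≤ (a:ℝ) ^ w := by
    apply pow_le_pow_left₀ (by norm_num)
    exact_mod_cast ha
  have haw0 : (0:ℝ) < (a:ℝ) ^ w := lt_of_lt_of_le (by positivity) haw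
  have h4 : (a:ℝ) ^ w * |(x - round x) - (x' - round x')| ≤ 1 := by
    rw [← abs_of_pos haw0, ← abs_mul]
    have : (a:ℝ) ^ w * ((x - round x) - (x' - round x')) =
        (x * (a : ℝ) ^ w - round (x * (a : ℝ) ^ w)) - (x' * (a : ℝ) ^ w - round (x' * (a : ℝ) ^ w)) := by
      rw [h1, h2, h3]; ring
    rw [this]
    calc _ ≤ |x * (a : ℝ) ^ w - round (x * (a : ℝ) ^ w)| + |x' * (a : ℝ) ^ w - round (x' * (a : ℝ) ^ w)| :=
          abs_sub _ _
      _ ≤ 1 := by linarith
  -- integers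
  set P : ℤ := p - round x * q with hP
  set P' : ℤ := p' - round x' * q' with hP'
  have e1 : x - round x = (P : ℝ) / q := by
    rw [hP, hx]; push_cast; field_simp
  have e2 : x' - round x' = (P' : ℝ) / q' := by
    rw [hP', hx']; push_cast; field_simp
  rw [e1, e2] at h4
  have h5 : |(P : ℝ) * q' - P' * q| < 1 := by
    have h6 : (P : ℝ) / q - (P' : ℝ) / q' = ((P : ℝ) * q' - P' * q) / (q * q') := by
      field_simp
    rw [h6, abs_div, abs_of_pos (mul_pos hqr hqr')] at h4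
    have h7 : (q:ℝ) * q' < 4 ^ w := by
      have g1 : (q:ℝ) < 2 ^ w := by exact_mod_cast hqw
      have g2 : (q':ℝ) < 2 ^ w := by exact_mod_cast hqw'
      have g3 : (4:ℝ) ^ w = 2 ^ w * 2 ^ w := by rw [← mul_pow]; norm_num
      rw [g3]
      exact mul_lt_mul g1 g2.le hqr' (by positivity)
    have h8 : |(P : ℝ) * q' - P' * q| / (q * q') * (a:ℝ) ^ w ≤ 1 := by linarith
    rw [div_mul_eq_mul_div, div_le_iff₀ (mul_pos hqr hqr')] at h8
    by_contra hcon
    push Not at hcon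
    have : (a:ℝ) ^ w ≤ |(P : ℝ) * q' - P' * q| * (a:ℝ) ^ w := le_mul_of_one_le_left haw0.le hcon
    linarith
  have h9 : |P * q' - P' * q| < 1 := by exact_mod_cast h5
  have h10 : P * q' = P' * q := by
    have := Int.abs_lt_one_iff.1 h9
    linarith
  have h11 : (P : ℝ) * q' = P' * q := by exact_mod_cast h10
  rw [e1, e2, div_eq_div_iff hqr.ne' hqr'.ne']
  exact h11

/-- a fraction with small denominator and vanishing carries is an integer -/
theorem zero_frac (a : ℕ) (ha : 4 ≤ a) (w : ℕ) (q : ℕ) (p : ℤ) (hq : 0 < q)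
    (hqw : q < 2 ^ w) (hc : ∀ i < w, cy a ((p : ℝ) / q) i = 0) :
    (p : ℝ) / q - round ((p : ℝ) / q) = 0 := by
  have h := same_frac a ha w q q p 0 hq hq hqw hqw (by
    intro i hi
    rw [hc i hi]
    simp [cy])
  rw [h]
  simp

/-- the reduced denominator of `k / q` -/
def den (q k : ℕ) : ℕ := q / Nat.gcd k q

theorem den_spec (q k : ℕ) (hq : 0 < q) (y : ℕ) :
    0 < den q k ∧ ((k : ℝ) / q * y) = ((((k / Nat.gcd k q) * y : ℕ) : ℤ) : ℝ) / (den q k : ℕ) := by
  have hg : 0 < Nat.gcd k q := Nat.gcd_pos_of_pos_right _ hq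
  obtain ⟨g, hgd⟩ : ∃ g, g = Nat.gcd k q := ⟨_, rfl⟩
  obtain ⟨p', hp'⟩ := Nat.gcd_dvd_left k q
  obtain ⟨q', hq'⟩ := Nat.gcd_dvd_right k q
  rw [← hgd] at hp' hq' hg
  have e1 : k / g = p' := by rw [hp']; exact Nat.mul_div_cancel_left _ hg
  have e2 : q / g = q' := by rw [hq']; exact Nat.mul_div_cancel_left _ hg
  have hq'0 : 0 < q' := by
    rcases Nat.eq_zero_or_pos q' with h | h
    · rw [h, mul_zero] at hq'; omega
    · exact h
  rw [den, ← hgd, e1, e2]
  refine ⟨hq'0, ?_⟩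
  have h1 : (g : ℝ) ≠ 0 := by exact_mod_cast hg.ne'
  have h2 : (q' : ℝ) ≠ 0 := by exact_mod_cast hq'0.ne'
  rw [hp', hq']
  push_cast
  field_simp

theorem dvd_of_round (a q k : ℕ) (hq : 0 < q) (hqa : q.Coprime a) (s : ℕ) (k' : ℕ)
    (h : (k : ℝ) / q * (a ^ s : ℕ) - round ((k : ℝ) / q * (a ^ s : ℕ)) =
      (k' : ℝ) / q * (a ^ s : ℕ) - round ((k' : ℝ) / q * (a ^ s : ℕ))) :
    (q : ℤ) ∣ (k : ℤ) - k' := by
  have hqr : (q:ℝ) ≠ 0 := by exact_mod_cast hq.ne'
  obtain ⟨z, hz⟩ : ∃ z : ℤ, z = round ((k : ℝ) / q * (a ^ s : ℕ)) - round ((k' : ℝ) / q * (a ^ s : ℕ)) := ⟨_, rfl⟩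
  have h1 : (k : ℝ) / q * (a ^ s : ℕ) - (k' : ℝ) / q * (a ^ s : ℕ) = z := by
    rw [hz]; push_cast at h ⊢; linarith
  have h2 : (((k : ℤ) - k') * (a ^ s : ℕ) : ℤ) = q * z := by
    have h3 : (((k : ℝ) - k') * (a ^ s : ℕ)) = q * z := by
      rw [← h1]; field_simp
    exact_mod_cast h3
  have h3 : (q : ℤ) ∣ ((k : ℤ) - k') * ((a ^ s : ℕ) : ℤ) := ⟨z, h2⟩
  have h4 : IsCoprime (q : ℤ) ((a ^ s : ℕ) : ℤ) := by
    apply Nat.isCoprime_iff_coprime.2
    exact Nat.Coprime.pow_right _ hqa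
  exact h4.dvd_of_dvd_mul_right h3

theorem eq_of_carries (a q : ℕ) (ha : 4 ≤ a) (hq : 0 < q) (hqa : q.Coprime a) (w s k k' : ℕ)
    (hk : k < q) (hk' : k' < q) (hd : den q k < 2 ^ w) (hd' : den q k' < 2 ^ w)
    (hc : ∀ i < w, cy a ((k : ℝ) / q * (a ^ s : ℕ)) i = cy a ((k' : ℝ) / q * (a ^ s : ℕ)) i) :
    k = k' := by
  obtain ⟨d1, e1⟩ := den_spec q k hq (a ^ s)
  obtain ⟨d2, e2⟩ := den_spec q k' hq (a ^ s)
  have h1 := same_frac a ha w (den q k) (den q k') _ _ d1 d2 hd hd' (by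
    intro i hi
    have := hc i hi
    rw [e1, e2] at this
    exact this)
  rw [← e1, ← e2] at h1
  obtain ⟨z, hz⟩ := dvd_of_round a q k hq hqa s k' h1
  have h3 : |(k : ℤ) - k'| < q := by
    rw [abs_lt]; constructor <;> push_cast <;> omega
  rw [hz] at h3
  have h4 : z = 0 := by
    by_contra hz0
    have : (1:ℤ) ≤ |z| := Int.one_le_abs hz0
    rw [abs_mul, abs_of_nonneg (by positivity : (0:ℤ) ≤ q)] at h3
    have hq0 : (0:ℤ) < q := by exact_mod_cast hq
    nlinarith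
  rw [h4, mul_zero] at hz
  omega

theorem exists_carry (a q : ℕ) (ha : 4 ≤ a) (hq : 0 < q) (hqa : q.Coprime a) (w s k : ℕ)
    (hk0 : 0 < k) (hk : k < q) (hd : den q k < 2 ^ w) :
    ∃ i < w, cy a ((k : ℝ) / q * (a ^ s : ℕ)) i ≠ 0 := by
  by_contra hcon
  push Not at hcon
  have h := eq_of_carries a q ha hq hqa w s k 0 hk hq hd (by
    simp only [den, Nat.gcd_zero_left]
    rw [Nat.div_self hq]
    exact Nat.one_lt_two_pow (by
      rintro rfl
      have := (den_spec q k hq 1).1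
      simp at hd
      omega)) (by
    intro i hi
    rw [hcon i hi]
    simp [cy])
  omega

open Classical in
/-- sum over the frequencies with reduced denominator below `2 ^ w` of `z` to the number of active
positions in a window of length `w` -/
theorem sum_window (a q : ℕ) (ha : 4 ≤ a) (hq : 0 < q) (hqa : q.Coprime a) (w s : ℕ) (z : ℝ)
    (hz0 : 0 ≤ z) (hz1 : z ≤ 1) :
    ∑ k ∈ ((range q).erase 0).filter (fun k => den q k < 2 ^ w),
      z ^ (na a ((k : ℝ) / q * (a ^ s : ℕ)) w) ≤ (1 + 2 * a * z) ^ w - 1 := by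
  set D := ((range q).erase 0).filter (fun k => den q k < 2 ^ w) with hD
  set Φ : ℕ → (Fin w → ℤ) := fun k => fun i => cy a ((k : ℝ) / q * (a ^ s : ℕ)) i with hΦ
  set P := Fintype.piFinset (fun _ : Fin w => Icc (-(a:ℤ)) a) with hP
  have hmaps : ∀ k ∈ D, Φ k ∈ P.erase 0 := by
    intro k hk
    rw [hD, Finset.mem_filter, Finset.mem_erase, Finset.mem_range] at hk
    rw [Finset.mem_erase, hP, Fintype.mem_piFinset]
    refine ⟨?_, fun i => ?_⟩
    · obtain ⟨i, hi, hne⟩ := exists_carry a q ha hq hqa w s k (by omega) hk.1.2 hk.2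
      intro h0
      exact hne (congrFun h0 ⟨i, hi⟩)
    · rw [Finset.mem_Icc]
      exact abs_le.1 (cy_abs a (by omega) _ _)
  have hinj : Set.InjOn Φ (D : Set ℕ) := by
    intro k hk k' hk' he
    rw [Finset.mem_coe, hD, Finset.mem_filter, Finset.mem_erase, Finset.mem_range] at hk hk'
    refine eq_of_carries a q ha hq hqa w s k k' hk.1.2 hk'.1.2 hk.2 hk'.2 fun i hi => ?_
    exact congrFun he ⟨i, hi⟩
  have hle : ∀ k ∈ D, z ^ (na a ((k : ℝ) / q * (a ^ s : ℕ)) w) ≤
      ∏ i, (if Φ k i = 0 then (1:ℝ) else z) := by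
    intro k _
    rw [Finset.prod_ite, Finset.prod_const_one, one_mul, Finset.prod_const]
    apply pow_le_pow_of_le_one hz0 hz1
    rw [na]
    apply Finset.card_le_card_of_injOn (fun i : Fin w => (i : ℕ))
    · intro i hi
      simp only [Finset.coe_filter, Finset.mem_univ, true_and, Set.mem_ofPred_eq] at hi
      simp only [Finset.coe_filter, Finset.mem_range, Set.mem_ofPred_eq]
      refine ⟨i.2, ?_⟩
      by_contra hn
      exact hi (cy_zero a (by omega) _ _ hn)
    · intro i _ j _ hij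
      exact Fin.ext hij
  have hfull : ∑ c ∈ P, ∏ i, (if c i = 0 then (1:ℝ) else z) = (1 + 2 * a * z) ^ w := by
    have h4 := Finset.prod_univ_sum (fun _ : Fin w => Icc (-(a:ℤ)) a)
      (fun _ t => if t = 0 then (1:ℝ) else z)
    rw [hP, ← h4]
    rw [Finset.prod_const, Finset.card_univ, Fintype.card_fin]
    congr 1
    rw [Finset.sum_ite, Finset.sum_const, Finset.sum_const]
    have h5 : (Icc (-(a:ℤ)) a).filter (fun t => t = 0) = {0} := by
      ext t
      simp only [Finset.mem_filter, Finset.mem_Icc, Finset.mem_singleton]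
      constructor
      · rintro ⟨_, h⟩; exact h
      · rintro rfl; simp
    have h6 : ((Icc (-(a:ℤ)) a).filter (fun t => ¬ t = 0)).card = 2 * a := by
      have h7 := Finset.card_filter_add_card_filter_not (s := Icc (-(a:ℤ)) a) (fun t => t = 0)
      rw [h5, Finset.card_singleton, Int.card_Icc] at h7
      omega
    rw [h5, h6]
    simp
  have h0P : (0 : Fin w → ℤ) ∈ P := by
    rw [hP, Fintype.mem_piFinset]
    intro i
    simp
  have hsplit := Finset.add_sum_erase P (fun c : Fin w → ℤ => ∏ i, (if c i = 0 then (1:ℝ) else z)) h0P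
  rw [hfull] at hsplit
  have hz : ∏ i : Fin w, (if (0 : Fin w → ℤ) i = 0 then (1:ℝ) else z) = 1 := by simp
  rw [hz] at hsplit
  calc ∑ k ∈ D, z ^ (na a ((k : ℝ) / q * (a ^ s : ℕ)) w)
      ≤ ∑ k ∈ D, ∏ i, (if Φ k i = 0 then (1:ℝ) else z) := Finset.sum_le_sum hle
    _ = ∑ c ∈ D.image Φ, ∏ i, (if c i = 0 then (1:ℝ) else z) := by
        rw [Finset.sum_image hinj]
    _ ≤ ∑ c ∈ P.erase 0, ∏ i, (if c i = 0 then (1:ℝ) else z) := by
        apply Finset.sum_le_sum_of_subset_of_nonneg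
        · intro c hc
          rw [Finset.mem_image] at hc
          obtain ⟨k, hk, rfl⟩ := hc
          exact hmaps k hk
        · intro c _ _
          apply Finset.prod_nonneg
          intro i _
          split_ifs <;> [norm_num; exact hz0]
    _ = (1 + 2 * a * z) ^ w - 1 := by linarith

open Classical in
/-- the contribution of the frequencies with reduced denominator below `2 ^ w`, in terms of the
number `N` of windows of length `w` -/
theorem sum_small_w (a q : ℕ) (ha : 4 ≤ a) (hq : 0 < q) (hqa : q.Coprime a) (w N L : ℕ)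
    (hN : 1 ≤ N) (hL : N * w ≤ L) :
    ∑ k ∈ ((range q).erase 0).filter (fun k => den q k < 2 ^ w), ∏ j ∈ range L, cs q k (a ^ j) ≤
      N * ((1 + 2 * a * (1 - 1 / (a:ℝ) ^ 2) ^ N) ^ w - 1) := by
  set ρ : ℝ := 1 - 1 / (a:ℝ) ^ 2 with hρ
  have ha1 : (1:ℝ) < a := by
    have : 1 < a := by omega
    exact_mod_cast this
  have hρ0 : 0 ≤ ρ := by
    rw [hρ, sub_nonneg, div_le_one (by positivity)]
    nlinarith
  have hρ1 : ρ ≤ 1 := by
    rw [hρ]
    have : 0 < 1 / (a:ℝ) ^ 2 := by positivity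
    linarith
  have key : ∀ k, ∏ j ∈ range L, cs q k (a ^ j) ≤
      ∑ i ∈ range N, (ρ ^ N) ^ (na a ((k : ℝ) / q * (a ^ (i * w) : ℕ)) w) := by
    intro k
    have h1 : ∏ j ∈ range L, cs q k (a ^ j) ≤ ρ ^ (na a ((k : ℝ) / q) L) := by
      calc ∏ j ∈ range L, cs q k (a ^ j)
          ≤ ∏ j ∈ range L, (if act a ((k : ℝ) / q) j then ρ else 1) := by
            apply Finset.prod_le_prod
            · intro i _; exact cs_nonneg _ _ _
            · intro i _
              split_ifs with hact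
              · exact cs_act a q k _ (by omega) hact
              · exact cs_le_one _ _ _
        _ = ρ ^ (na a ((k : ℝ) / q) L) := by
            rw [Finset.prod_ite, Finset.prod_const_one, mul_one, Finset.prod_const, na]
    have h2 : na a ((k : ℝ) / q) (N * w) ≤ na a ((k : ℝ) / q) L := na_mono a _ hL
    rw [na_mul] at h2
    obtain ⟨i, hi, hmin⟩ : ∃ i ∈ range N, ∀ i' ∈ range N,
        na a ((k : ℝ) / q * (a:ℝ) ^ (i * w)) w ≤ na a ((k : ℝ) / q * (a:ℝ) ^ (i' * w)) w :=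
      Finset.exists_min_image (range N) (fun i => na a ((k : ℝ) / q * (a:ℝ) ^ (i * w)) w)
        ⟨0, Finset.mem_range.2 (by omega)⟩
    have h3 : N * na a ((k : ℝ) / q * (a:ℝ) ^ (i * w)) w ≤
        ∑ r ∈ range N, na a ((k : ℝ) / q * (a:ℝ) ^ (r * w)) w := by
      calc N * na a ((k : ℝ) / q * (a:ℝ) ^ (i * w)) w
          = ∑ r ∈ range N, na a ((k : ℝ) / q * (a:ℝ) ^ (i * w)) w := by simp
        _ ≤ _ := Finset.sum_le_sum hmin
    have h4 : ρ ^ (na a ((k : ℝ) / q) L) ≤ (ρ ^ N) ^ (na a ((k : ℝ) / q * (a:ℝ) ^ (i * w)) w) := by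
      rw [← pow_mul]
      exact pow_le_pow_of_le_one hρ0 hρ1 (h3.trans h2)
    refine h1.trans (h4.trans ?_)
    have h5 : ∀ r : ℕ, (a:ℝ) ^ r = ((a ^ r : ℕ) : ℝ) := fun r => by push_cast; rfl
    rw [h5]
    exact Finset.single_le_sum (f := fun i => (ρ ^ N) ^ (na a ((k : ℝ) / q * (a ^ (i * w) : ℕ)) w))
      (fun i _ => by positivity) hi
  calc ∑ k ∈ ((range q).erase 0).filter (fun k => den q k < 2 ^ w), ∏ j ∈ range L, cs q k (a ^ j)
      ≤ ∑ k ∈ ((range q).erase 0).filter (fun k => den q k < 2 ^ w),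
        ∑ i ∈ range N, (ρ ^ N) ^ (na a ((k : ℝ) / q * (a ^ (i * w) : ℕ)) w) :=
        Finset.sum_le_sum fun k _ => key k
    _ = ∑ i ∈ range N, ∑ k ∈ ((range q).erase 0).filter (fun k => den q k < 2 ^ w),
        (ρ ^ N) ^ (na a ((k : ℝ) / q * (a ^ (i * w) : ℕ)) w) := Finset.sum_comm
    _ ≤ ∑ i ∈ range N, ((1 + 2 * a * ρ ^ N) ^ w - 1) := by
        apply Finset.sum_le_sum
        intro i _
        exact sum_window a q ha hq hqa w (i * w) (ρ ^ N) (by positivity) (pow_le_one₀ hρ0 hρ1)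
    _ = _ := by rw [Finset.sum_const, Finset.card_range, nsmul_eq_mul]

end Pool.Agent.KS6_18.MX
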