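import Pool.Agent.KS6_18.MX.Char

/-!
Trigonometric products at the frequencies `a ^ i / (a ^ w - 1)`.
-/

set_option autoImplicit false

open Finset Filter Topology

namespace Pool.Agent.KS6_18.MX

/-- `y_l = π a ^ l / (a ^ w - 1)` -/
noncomputable def yy (a w l : ℕ) : ℝ := Real.pi * ((a:ℝ) ^ l / ((a:ℝ) ^ w - 1))

theorem aw_ge (a w : ℕ) (ha : 4 ≤ a) (hw : 2 ≤ w) : (16:ℝ) ≤ (a:ℝ) ^ w := by
  have h4 : (4:ℝ) ≤ a := by exact_mod_cast ha
  calc (16:ℝ) = 4 ^ 2 := by norm_num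
    _ ≤ (a:ℝ) ^ 2 := pow_le_pow_left₀ (by norm_num) h4 2
    _ ≤ (a:ℝ) ^ w := pow_le_pow_right₀ (by linarith) hw

theorem yy_pos (a w l : ℕ) (ha : 4 ≤ a) (hw : 2 ≤ w) : 0 < yy a w l := by
  have h16 := aw_ge a w ha hw
  have h4 : (4:ℝ) ≤ a := by exact_mod_cast ha
  rw [yy]
  apply mul_pos Real.pi_pos
  apply div_pos <;> [positivity; linarith]

theorem yy_le (a w l : ℕ) (ha : 4 ≤ a) (hw : 2 ≤ w) (hl : l < w) : yy a w l ≤ Real.pi * (4 / 15) := by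
  have h16 := aw_ge a w ha hw
  have h4 : (4:ℝ) ≤ a := by exact_mod_cast ha
  rw [yy]
  apply mul_le_mul_of_nonneg_left _ Real.pi_pos.le
  rw [div_le_div_iff₀ (by linarith) (by norm_num)]
  have h1 : (a:ℝ) ^ l * 4 ≤ (a:ℝ) ^ w := by
    calc (a:ℝ) ^ l * 4 ≤ (a:ℝ) ^ l * a := by gcongr
      _ = (a:ℝ) ^ (l + 1) := by rw [pow_succ]
      _ ≤ (a:ℝ) ^ w := pow_le_pow_right₀ (by linarith) (by omega)
  linarith

theorem yy_le_third (a w l : ℕ) (ha : 4 ≤ a) (hw : 2 ≤ w) (hl : l < w) :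
    yy a w l ≤ Real.pi / 3 := by
  have := yy_le a w l ha hw hl
  have := Real.pi_pos
  linarith

theorem yy_sq' (a w : ℕ) (ha : 4 ≤ a) (hw : 2 ≤ w) :
    ∑ l ∈ range w, (yy a w l) ^ 2 ≤ 3 / 4 := by
  have h16 := aw_ge a w ha hw
  have h4 : (4:ℝ) ≤ a := by exact_mod_cast ha
  have h1 : ∀ l, (yy a w l) ^ 2 = (Real.pi ^ 2 / ((a:ℝ) ^ w - 1) ^ 2) * ((a:ℝ) ^ 2) ^ l := by
    intro l; rw [yy, mul_pow, div_pow, ← pow_mul, ← pow_mul]; ring
  simp only [h1]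
  rw [← Finset.mul_sum, geom_sum_eq (by nlinarith)]
  obtain ⟨A, hA⟩ : ∃ A, A = (a:ℝ) ^ w := ⟨_, rfl⟩
  have e1 : ((a:ℝ) ^ 2) ^ w = A ^ 2 := by rw [hA, ← pow_mul, ← pow_mul, mul_comm]
  rw [e1, ← hA]
  rw [← hA] at h16
  have hA1 : 0 < A - 1 := by linarith
  have ha2 : (15:ℝ) ≤ (a:ℝ) ^ 2 - 1 := by nlinarith
  have h2 : Real.pi ^ 2 / (A - 1) ^ 2 * ((A ^ 2 - 1) / ((a:ℝ) ^ 2 - 1)) =
      Real.pi ^ 2 * ((A + 1) / (A - 1)) * (1 / ((a:ℝ) ^ 2 - 1)) := by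
    have : (a:ℝ) ^ 2 - 1 ≠ 0 := by linarith
    field_simp
    ring
  rw [h2]
  have h3 : (A + 1) / (A - 1) ≤ 17 / 15 := by
    rw [div_le_div_iff₀ hA1 (by norm_num)]; linarith
  have h5 : 1 / ((a:ℝ) ^ 2 - 1) ≤ 1 / 15 := one_div_le_one_div_of_le (by norm_num) ha2
  have hpi : Real.pi ^ 2 ≤ 99 / 10 := by
    have h1 := Real.pi_lt_d4
    have h2 := Real.pi_pos
    nlinarith
  have h6 : 0 ≤ 1 / ((a:ℝ) ^ 2 - 1) := by positivity
  have h7 : 0 ≤ (A + 1) / (A - 1) := by positivity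
  calc Real.pi ^ 2 * ((A + 1) / (A - 1)) * (1 / ((a:ℝ) ^ 2 - 1))
      ≤ 99 / 10 * (17 / 15) * (1 / 15) := by gcongr
    _ ≤ 3 / 4 := by norm_num

theorem yy_sq (a w : ℕ) (ha : 4 ≤ a) (hw : 2 ≤ w) :
    ∑ l ∈ range w, (yy a w l) ^ 2 ≤ 1 := by
  have := yy_sq' a w ha hw
  linarith

theorem cos_ge_exp (y : ℝ) (hy : y ^ 2 ≤ 1) : Real.exp (-y ^ 2) ≤ Real.cos y := by
  have h1 := Real.one_sub_sq_div_two_le_cos (x := y)
  refine le_trans ?_ h1
  have h2 := Real.quadratic_le_exp_of_nonneg (sq_nonneg y)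
  rw [Real.exp_neg, inv_le_iff_one_le_mul₀ (Real.exp_pos _)]
  have h3 : 0 ≤ y ^ 2 := sq_nonneg y
  obtain ⟨t, ht⟩ : ∃ t, t = y ^ 2 := ⟨_, rfl⟩
  rw [← ht] at h2 h3 hy ⊢
  have h4 : 1 ≤ (1 - t / 2) * (1 + t + t ^ 2 / 2) := by nlinarith [mul_nonneg h3 h3, mul_nonneg h3 (by linarith : 0 ≤ 1 - t)]
  have h5 : 0 ≤ 1 - t / 2 := by linarith
  calc (1:ℝ) ≤ (1 - t / 2) * (1 + t + t ^ 2 / 2) := h4
    _ ≤ (1 - t / 2) * Real.exp t := mul_le_mul_of_nonneg_left h2 h5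

theorem yy_sq_le_one (a w l : ℕ) (ha : 4 ≤ a) (hw : 2 ≤ w) (hl : l < w) : (yy a w l) ^ 2 ≤ 1 := by
  have h1 := yy_le a w l ha hw hl
  have h2 := (yy_pos a w l ha hw).le
  have h3 := Real.pi_lt_d2
  have h4 : yy a w l ≤ 1 := by linarith
  nlinarith

/-- the product of the cosines -/
noncomputable def C1 (a w : ℕ) : ℝ := ∏ l ∈ range w, Real.cos (yy a w l)

theorem cos_yy_pos (a w l : ℕ) (ha : 4 ≤ a) (hw : 2 ≤ w) (hl : l < w) : 0 < Real.cos (yy a w l) :=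
  lt_of_lt_of_le (Real.exp_pos _) (cos_ge_exp _ (yy_sq_le_one a w l ha hw hl))

theorem C1_pos (a w : ℕ) (ha : 4 ≤ a) (hw : 2 ≤ w) : 0 < C1 a w :=
  Finset.prod_pos fun l hl => cos_yy_pos a w l ha hw (Finset.mem_range.1 hl)

theorem C1_ge (a w : ℕ) (ha : 4 ≤ a) (hw : 2 ≤ w) : Real.exp (-1) ≤ C1 a w := by
  calc Real.exp (-1) ≤ Real.exp (∑ l ∈ range w, -(yy a w l) ^ 2) := by
        rw [Real.exp_le_exp, Finset.sum_neg_distrib]
        have := yy_sq a w ha hw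
        linarith
    _ = ∏ l ∈ range w, Real.exp (-(yy a w l) ^ 2) := Real.exp_sum _ _
    _ ≤ C1 a w := by
        apply Finset.prod_le_prod
        · intro l _; exact (Real.exp_pos _).le
        · intro l hl
          exact cos_ge_exp _ (yy_sq_le_one a w l ha hw (Finset.mem_range.1 hl))

/-- two angles in `[0, π/3]` -/
theorem cos_sub_le (β γ : ℝ) (hβ0 : 0 ≤ β) (hβ : β ≤ Real.pi / 3) (hγ0 : 0 ≤ γ) (hγ : γ ≤ Real.pi / 3) :
    |Real.cos (β - γ)| ≤ Real.cos β * Real.cos γ * Real.exp (4 * (β * γ)) := by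
  have hpi := Real.pi_pos
  have c1 : 1 / 2 ≤ Real.cos β := by
    rw [← Real.cos_pi_div_three]
    exact Real.cos_le_cos_of_nonneg_of_le_pi hβ0 (by linarith) hβ
  have c2 : 1 / 2 ≤ Real.cos γ := by
    rw [← Real.cos_pi_div_three]
    exact Real.cos_le_cos_of_nonneg_of_le_pi hγ0 (by linarith) hγ
  have s1 : Real.sin β ≤ β := Real.sin_le hβ0
  have s2 : Real.sin γ ≤ γ := Real.sin_le hγ0
  have s10 : 0 ≤ Real.sin β := Real.sin_nonneg_of_nonneg_of_le_pi hβ0 (by linarith)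
  have s20 : 0 ≤ Real.sin γ := Real.sin_nonneg_of_nonneg_of_le_pi hγ0 (by linarith)
  have hc : 0 ≤ Real.cos (β - γ) := by
    apply Real.cos_nonneg_of_neg_pi_div_two_le_of_le <;> linarith
  rw [abs_of_nonneg hc, Real.cos_sub]
  have h1 : Real.sin β * Real.sin γ ≤ Real.cos β * Real.cos γ * (4 * (β * γ)) := by
    calc Real.sin β * Real.sin γ ≤ β * γ := mul_le_mul s1 s2 s20 hβ0
      _ = (1 / 2) * (1 / 2) * (4 * (β * γ)) := by ring
      _ ≤ Real.cos β * Real.cos γ * (4 * (β * γ)) := by gcongr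
  have h2 : 1 + 4 * (β * γ) ≤ Real.exp (4 * (β * γ)) := by
    have := Real.add_one_le_exp (4 * (β * γ)); linarith
  have h3 : 0 ≤ Real.cos β * Real.cos γ := by positivity
  calc Real.cos β * Real.cos γ + Real.sin β * Real.sin γ
      ≤ Real.cos β * Real.cos γ * (1 + 4 * (β * γ)) := by linarith
    _ ≤ _ := mul_le_mul_of_nonneg_left h2 h3

/-- reduction of the exponent modulo `w` -/
theorem pow_mod_w (a w m : ℕ) (ha : 4 ≤ a) (hw : 2 ≤ w) :
    ∃ N : ℤ, (a:ℝ) ^ m / ((a:ℝ) ^ w - 1) = (a:ℝ) ^ (m % w) / ((a:ℝ) ^ w - 1) + N := by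
  have h16 := aw_ge a w ha hw
  have h1 : (a ^ w : ℤ) ≡ 1 [ZMOD (a ^ w - 1)] := by
    have : (1:ℤ) ≡ a ^ w [ZMOD (a ^ w - 1)] := (Int.modEq_iff_dvd).2 ⟨1, by ring⟩
    exact this.symm
  have h2 : (a ^ m : ℤ) ≡ a ^ (m % w) [ZMOD (a ^ w - 1)] := by
    have e : (a:ℤ) ^ m = (a ^ w) ^ (m / w) * a ^ (m % w) := by
      rw [← pow_mul, ← pow_add, Nat.div_add_mod]
    rw [e]
    calc (a ^ w : ℤ) ^ (m / w) * a ^ (m % w) ≡ 1 ^ (m / w) * a ^ (m % w) [ZMOD (a ^ w - 1)] :=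
          (h1.pow _).mul_right _
      _ = a ^ (m % w) := by rw [one_pow, one_mul]
  obtain ⟨N, hN⟩ := (Int.modEq_iff_dvd).1 h2.symm
  refine ⟨N, ?_⟩
  have hN' : (a:ℝ) ^ m - (a:ℝ) ^ (m % w) = ((a:ℝ) ^ w - 1) * N := by exact_mod_cast hN
  have h3 : (a:ℝ) ^ w - 1 ≠ 0 := by linarith
  rw [div_add' _ _ _ h3, div_left_inj' h3]
  linarith

theorem abs_cos_add_int (x : ℝ) (N : ℤ) : |Real.cos (Real.pi * (x + N))| = |Real.cos (Real.pi * x)| := by
  rw [show Real.pi * (x + N) = Real.pi * x + N * Real.pi by ring, Real.cos_add_int_mul_pi, abs_mul]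
  simp [abs_zpow]

/-- `u - v ≡ i - j` modulo `w` -/
theorem mod_dist (w i j l D : ℕ) (hw : 0 < w) (h1 : j + D ≤ i) (h2 : i + D ≤ j + w) :
    (i + l) % w + D ≤ (j + l) % w ∨ (j + l) % w + D ≤ (i + l) % w := by
  have e1 := Nat.div_add_mod (i + l) w
  have e2 := Nat.div_add_mod (j + l) w
  have l1 := Nat.mod_lt (i + l) hw
  have l2 := Nat.mod_lt (j + l) hw
  obtain ⟨u, hu⟩ : ∃ u, u = (i + l) % w := ⟨_, rfl⟩
  obtain ⟨v, hv⟩ : ∃ v, v = (j + l) % w := ⟨_, rfl⟩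
  obtain ⟨x, hx⟩ : ∃ x, x = (i + l) / w := ⟨_, rfl⟩
  obtain ⟨z, hz⟩ : ∃ z, z = (j + l) / w := ⟨_, rfl⟩
  rw [← hu, ← hx] at e1
  rw [← hv, ← hz] at e2
  rw [← hu] at l1 ⊢
  rw [← hv] at l2 ⊢
  rcases lt_trichotomy x z with h | h | h
  · have : w * (x + 1) ≤ w * z := Nat.mul_le_mul_left w h
    rw [mul_add, mul_one] at this
    omega
  · rw [h] at e1
    right; omega
  · rcases Nat.lt_or_ge (z + 1) x with h' | h'
    · have : w * (z + 2) ≤ w * x := Nat.mul_le_mul_left w h'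
      rw [mul_add] at this
      omega
    · have : x = z + 1 := by omega
      rw [this, mul_add, mul_one] at e1
      left; omega

theorem prod_pair (a w i j D : ℕ) (ha : 4 ≤ a) (hw : 2 ≤ w) (h1 : j + D ≤ i) (h2 : i + D ≤ j + w) :
    ∏ l ∈ range w, |Real.cos (Real.pi * (((a:ℝ) ^ (i + l) - (a:ℝ) ^ (j + l)) / ((a:ℝ) ^ w - 1)))| ≤
      (C1 a w) ^ 2 * Real.exp (6 / (a:ℝ) ^ D) := by
  have h16 := aw_ge a w ha hw
  have h4 : (4:ℝ) ≤ a := by exact_mod_cast ha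
  have hw0 : 0 < w := by omega
  have hlt : ∀ m, m % w < w := fun m => Nat.mod_lt m hw0
  have hterm : ∀ l ∈ range w,
      |Real.cos (Real.pi * (((a:ℝ) ^ (i + l) - (a:ℝ) ^ (j + l)) / ((a:ℝ) ^ w - 1)))| ≤
      Real.cos (yy a w ((i + l) % w)) * Real.cos (yy a w ((j + l) % w)) *
        Real.exp (4 * (yy a w ((i + l) % w) * yy a w ((j + l) % w))) := by
    intro l _
    obtain ⟨N, hN⟩ := pow_mod_w a w (i + l) ha hw
    obtain ⟨N', hN'⟩ := pow_mod_w a w (j + l) ha hw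
    rw [sub_div, hN, hN']
    rw [show (a:ℝ) ^ ((i + l) % w) / ((a:ℝ) ^ w - 1) + N - ((a:ℝ) ^ ((j + l) % w) / ((a:ℝ) ^ w - 1) + N') =
      ((a:ℝ) ^ ((i + l) % w) / ((a:ℝ) ^ w - 1) - (a:ℝ) ^ ((j + l) % w) / ((a:ℝ) ^ w - 1)) +
        ((N - N' : ℤ) : ℝ) by push_cast; ring, abs_cos_add_int, mul_sub]
    exact cos_sub_le _ _ (yy_pos a w _ ha hw).le (yy_le_third a w _ ha hw (hlt _))
      (yy_pos a w _ ha hw).le (yy_le_third a w _ ha hw (hlt _))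
  have hshift : ∀ (g : ℕ → ℝ) (i : ℕ), ∏ l ∈ range w, g ((i + l) % w) = ∏ l ∈ range w, g l := by
    intro g i
    have := prod_shift (fun m => g (m % w)) w (fun j => by simp) i
    rw [this]
    refine Finset.prod_congr rfl fun l hl => ?_
    rw [Nat.mod_eq_of_lt (Finset.mem_range.1 hl)]
  have hsshift : ∀ (g : ℕ → ℝ) (i : ℕ), ∑ l ∈ range w, g ((i + l) % w) = ∑ l ∈ range w, g l := by
    intro g i
    have := sum_shift (fun m => g (m % w)) w (fun j => by simp) i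
    rw [this]
    refine Finset.sum_congr rfl fun l hl => ?_
    rw [Nat.mod_eq_of_lt (Finset.mem_range.1 hl)]
  have haD : 0 < (a:ℝ) ^ D := by positivity
  have hsum : ∑ l ∈ range w, 4 * (yy a w ((i + l) % w) * yy a w ((j + l) % w)) ≤ 6 / (a:ℝ) ^ D := by
    have hp : ∀ l ∈ range w, 4 * (yy a w ((i + l) % w) * yy a w ((j + l) % w)) ≤
        4 / (a:ℝ) ^ D * ((yy a w ((i + l) % w)) ^ 2 + (yy a w ((j + l) % w)) ^ 2) := by
      intro l _
      obtain ⟨u, hu⟩ : ∃ u, u = (i + l) % w := ⟨_, rfl⟩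
      obtain ⟨v, hv⟩ : ∃ v, v = (j + l) % w := ⟨_, rfl⟩
      have hd := mod_dist w i j l D hw0 h1 h2
      rw [← hu, ← hv] at hd ⊢
      have key : ∀ u v : ℕ, u + D ≤ v → yy a w u * (a:ℝ) ^ D ≤ yy a w v := by
        intro u v huv
        rw [yy, yy, mul_assoc]
        apply mul_le_mul_of_nonneg_left _ Real.pi_pos.le
        rw [div_mul_eq_mul_div]
        apply div_le_div_of_nonneg_right _ (by linarith)
        rw [← pow_add]
        exact pow_le_pow_right₀ (by linarith) huv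
      have hu0 := (yy_pos a w u ha hw).le
      have hv0 := (yy_pos a w v ha hw).le
      rw [div_mul_eq_mul_div, le_div_iff₀ haD]
      rcases hd with hd | hd
      · have := key u v hd
        have h5 : yy a w u * yy a w v * (a:ℝ) ^ D ≤ yy a w v ^ 2 := by
          calc yy a w u * yy a w v * (a:ℝ) ^ D = (yy a w u * (a:ℝ) ^ D) * yy a w v := by ring
            _ ≤ yy a w v * yy a w v := mul_le_mul_of_nonneg_right this hv0
            _ = _ := by ring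
        nlinarith [sq_nonneg (yy a w u)]
      · have := key v u hd
        have h5 : yy a w u * yy a w v * (a:ℝ) ^ D ≤ yy a w u ^ 2 := by
          calc yy a w u * yy a w v * (a:ℝ) ^ D = (yy a w v * (a:ℝ) ^ D) * yy a w u := by ring
            _ ≤ yy a w u * yy a w u := mul_le_mul_of_nonneg_right this hu0
            _ = _ := by ring
        nlinarith [sq_nonneg (yy a w v)]
    refine (Finset.sum_le_sum hp).trans ?_
    rw [← Finset.mul_sum, Finset.sum_add_distrib,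
      hsshift (fun m => (yy a w m) ^ 2) i, hsshift (fun m => (yy a w m) ^ 2) j]
    have h3 := yy_sq' a w ha hw
    rw [div_mul_eq_mul_div]
    apply div_le_div_of_nonneg_right _ haD.le
    linarith
  calc ∏ l ∈ range w, |Real.cos (Real.pi * (((a:ℝ) ^ (i + l) - (a:ℝ) ^ (j + l)) / ((a:ℝ) ^ w - 1)))|
      ≤ ∏ l ∈ range w, (Real.cos (yy a w ((i + l) % w)) * Real.cos (yy a w ((j + l) % w)) *
        Real.exp (4 * (yy a w ((i + l) % w) * yy a w ((j + l) % w)))) :=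
        Finset.prod_le_prod (fun l _ => abs_nonneg _) hterm
    _ = (C1 a w) ^ 2 * Real.exp (∑ l ∈ range w, 4 * (yy a w ((i + l) % w) * yy a w ((j + l) % w))) := by
        rw [Finset.prod_mul_distrib, Finset.prod_mul_distrib, Real.exp_sum,
          hshift (fun m => Real.cos (yy a w m)) i, hshift (fun m => Real.cos (yy a w m)) j, C1]
        ring
    _ ≤ _ := by
        apply mul_le_mul_of_nonneg_left _ (sq_nonneg _)
        rw [Real.exp_le_exp]; exact hsum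

end Pool.Agent.KS6_18.MX
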