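import Pool.Agent.KS6_18.MX.Core
import Pool.Graph.R_seed8.Results.MP_456481_pr.Cutoff

/-!
The upper bound for the number of exceptional moduli, uniformly in the level `exp (-H)`.
-/

set_option autoImplicit false

open Finset Filter Topology

namespace Pool.Agent.KS6_18.MX

open H942R3.AX

/-- `(1 + y) ^ w - 1 ≤ 2 w y` if `w y ≤ 1` -/
theorem one_add_pow_le (y : ℝ) (hy : 0 ≤ y) (w : ℕ) (h : w * y ≤ 1) :
    (1 + y) ^ w - 1 ≤ 2 * (w * y) := by
  have h1 : (1 + y) ^ w ≤ Real.exp (w * y) := by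
    rw [Real.exp_nat_mul]
    apply pow_le_pow_left₀ (by linarith)
    have := Real.add_one_le_exp y
    linarith
  have h0 : 0 ≤ w * y := by positivity
  have h2 := Real.abs_exp_sub_one_le (x := w * y) (by rw [abs_of_nonneg h0]; exact h)
  rw [abs_of_nonneg h0] at h2
  have h3 := (abs_le.1 h2).2
  linarith

open Classical in
theorem upper (a : ℕ) (ha : 4 ≤ a) (δ : ℝ) (hδ : 0 < δ) :
    ∃ c : ℝ, 0 < c ∧ ∃ X0 : ℕ, ∀ X ≥ X0, ∀ H : ℝ, 0 ≤ H → H ≤ c * Real.log X →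
      (((Icc 2 X).filter (fun q : ℕ => q.Coprime a ∧
        ∃ n : ℕ, (1 + δ) * Real.logb 2 q ≤ n ∧ Real.exp (-H) ≤ tv a q n)).card : ℝ) ≤
        X * Real.exp (-(c * Real.log X / (H + Real.log (Real.log X)))) := by
  have ha1 : (1:ℝ) < a := by
    have : 1 < a := by omega
    exact_mod_cast this
  have ha0 : (0:ℝ) < a := by linarith
  -- choose `R`
  obtain ⟨R, hR2, hRδ⟩ : ∃ R : ℕ, 2 ≤ R ∧ (R : ℝ) ≤ (1 + δ / 4) * (R - 1) := by
    obtain ⟨n, hn⟩ := exists_nat_gt (4 / δ)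
    refine ⟨n + 2, by omega, ?_⟩
    push_cast
    have h1 : 4 / δ < n + 1 := by linarith
    rw [div_lt_iff₀ hδ] at h1
    nlinarith
  have hRpos : (0:ℝ) < R := by
    have : 0 < R := by omega
    exact_mod_cast this
  obtain ⟨lam, C, hlam0, hlam1, hC0, hcore⟩ := count_core a ha R hR2
  set ρ : ℝ := 1 - 1 / (a:ℝ) ^ 2 with hρ
  have hρ0 : 0 < ρ := by
    rw [hρ, sub_pos, div_lt_one (by positivity)]
    nlinarith
  have hρ1 : ρ < 1 := by
    rw [hρ]
    have : 0 < 1 / (a:ℝ) ^ 2 := by positivity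
    linarith
  obtain ⟨u, hu⟩ : ∃ u, u = -Real.log ρ := ⟨_, rfl⟩
  have hu0 : 0 < u := by rw [hu]; have := Real.log_neg hρ0 hρ1; linarith
  obtain ⟨A, hA⟩ : ∃ A, A = 5 / u := ⟨_, rfl⟩
  have hA0 : 0 < A := by rw [hA]; positivity
  obtain ⟨v, hv⟩ : ∃ v, v = -Real.log lam := ⟨_, rfl⟩
  have hv0 : 0 < v := by rw [hv]; have := Real.log_neg hlam0 hlam1; linarith
  obtain ⟨c5, hc5⟩ : ∃ c5, c5 = -Real.log (5 / 8 : ℝ) := ⟨_, rfl⟩
  have hc50 : 0 < c5 := by
    rw [hc5]; have := Real.log_neg (show (0:ℝ) < 5 / 8 by norm_num) (by norm_num); linarith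
  obtain ⟨c6, hc6⟩ : ∃ c6, c6 = c5 / (A + 1) := ⟨_, rfl⟩
  have hc60 : 0 < c6 := by rw [hc6]; positivity
  obtain ⟨δ3, hδ3⟩ : ∃ δ3, δ3 = δ / (2 * (1 + δ)) := ⟨_, rfl⟩
  have hδ30 : 0 < δ3 := by rw [hδ3]; positivity
  obtain ⟨c, hc⟩ : ∃ c, c = min (c6 / 12) (min (v / (6 * R)) (δ3 / 2)) := ⟨_, rfl⟩
  have hc0 : 0 < c := by
    rw [hc]; exact lt_min (by positivity) (lt_min (by positivity) (by positivity))
  have hcc6 : c ≤ c6 / 12 := by rw [hc]; exact min_le_left _ _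
  have hcv : c ≤ v / (6 * R) := by rw [hc]; exact (min_le_right _ _).trans (min_le_left _ _)
  have hcδ : c ≤ δ3 / 2 := by rw [hc]; exact (min_le_right _ _).trans (min_le_right _ _)
  obtain ⟨B, hB⟩ : ∃ B : ℝ, B = (1 + δ / 4) / Real.log 2 + R := ⟨_, rfl⟩
  have hlog2 : 0 < Real.log 2 := Real.log_pos (by norm_num)
  have hlog2' : Real.log 2 < 1 := by have := Real.log_two_lt_d9; linarith
  have hB0 : 0 < B := by rw [hB]; positivity
  -- the largeness of `X`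
  have hlogX : Tendsto (fun X : ℕ => Real.log X) atTop atTop :=
    Real.tendsto_log_atTop.comp tendsto_natCast_atTop_atTop
  have hlo : ∀ᶠ y : ℝ in atTop, Real.log y ≤ c * y := by
    have h1 := Real.isLittleO_log_id_atTop.bound hc0
    filter_upwards [h1, eventually_ge_atTop 1] with y hy hy1
    rw [Real.norm_eq_abs, Real.norm_eq_abs, abs_of_nonneg (Real.log_nonneg hy1)] at hy
    simpa [abs_of_nonneg (by linarith : (0:ℝ) ≤ y)] using hy
  have hll1 : ∀ᶠ y : ℝ in atTop, 1 ≤ Real.log y := Real.tendsto_log_atTop.eventually_ge_atTop 1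
  obtain ⟨X1, hX1⟩ := Filter.eventually_atTop.1 (hlogX.eventually (hlo.and (hll1.and
    (eventually_ge_atTop (1 + 8 * a * B + Real.log (12 * C + 1) / (v / (2 * R)) +
      Real.log 3 / (δ3 / 2) + 4 * R * (1 + δ) / δ)))))
  refine ⟨c, hc0, max X1 2, fun X hX H hH0 hH => ?_⟩
  have hX2 : 2 ≤ X := le_trans (le_max_right _ _) hX
  obtain ⟨hloX, hllX, hbig⟩ := hX1 X (le_trans (le_max_left _ _) hX)
  have hXpos : (0:ℝ) < X := by
    have : 0 < X := by omega
    exact_mod_cast this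
  obtain ⟨ℓ, hℓ⟩ : ∃ ℓ, ℓ = Real.log X := ⟨_, rfl⟩
  rw [← hℓ] at hloX hllX hbig hH ⊢
  obtain ⟨Λ, hΛ⟩ : ∃ Λ, Λ = H + Real.log ℓ := ⟨_, rfl⟩
  rw [← hΛ]
  have hΛ1 : 1 ≤ Λ := by rw [hΛ]; linarith
  have hpos1 : 0 ≤ 8 * a * B := by positivity
  have hpos2 : 0 ≤ Real.log (12 * C + 1) / (v / (2 * R)) :=
    div_nonneg (Real.log_nonneg (by linarith)) (by positivity)
  have hpos3 : 0 ≤ Real.log 3 / (δ3 / 2) := div_nonneg (Real.log_nonneg (by norm_num)) (by positivity)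
  have hpos4 : 0 ≤ 4 * R * (1 + δ) / δ := by positivity
  have hℓ1 : 1 ≤ ℓ := by linarith
  have hℓa : 8 * a * B ≤ ℓ := by linarith
  have hℓC : Real.log (12 * C + 1) ≤ v / (2 * R) * ℓ := by
    have h1 : Real.log (12 * C + 1) / (v / (2 * R)) ≤ ℓ := by linarith
    rw [div_le_iff₀ (by positivity)] at h1
    linarith
  have hℓ3 : Real.log 3 ≤ δ3 / 2 * ℓ := by
    have h1 : Real.log 3 / (δ3 / 2) ≤ ℓ := by linarith
    rw [div_le_iff₀ (by positivity)] at h1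
    linarith
  have hℓR : 4 * R * (1 + δ) ≤ δ * ℓ := by
    have h1 : 4 * R * (1 + δ) / δ ≤ ℓ := by linarith
    rw [div_le_iff₀ (by positivity)] at h1
    linarith
  have hΛc : Λ ≤ 2 * c * ℓ := by rw [hΛ]; linarith
  -- the parameters `m`, `N`, `w0`
  set l := Nat.log 2 X with hl
  set m := l / (R - 1) + 1 with hm
  have hm1 : l + 1 ≤ (R - 1) * m := by
    rw [hm]
    have := Nat.lt_mul_div_succ l (show 0 < R - 1 by omega)
    omega
  obtain ⟨LX, hLX⟩ : ∃ LX, LX = Real.logb 2 X := ⟨_, rfl⟩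
  have hLXℓ : LX = ℓ / Real.log 2 := by rw [hLX, hℓ, Real.logb]
  have hLX0 : ℓ ≤ LX := by
    rw [hLXℓ, le_div_iff₀ hlog2]
    exact mul_le_of_le_one_right (by linarith) hlog2'.le
  have hlLX : (l : ℝ) ≤ LX := by
    rw [hLX, Real.le_logb_iff_rpow_le (by norm_num) hXpos, Real.rpow_natCast]
    have := Nat.pow_log_le_self 2 (show X ≠ 0 by omega)
    exact_mod_cast this
  have hLXm : LX ≤ ((R * m : ℕ) : ℝ) := by
    have h1 : LX ≤ ((l + 1 : ℕ) : ℝ) := by
      rw [hLX, Real.logb_le_iff_le_rpow (by norm_num) hXpos, Real.rpow_natCast]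
      have := (Nat.lt_pow_succ_log_self (b := 2) (by norm_num) X).le
      exact_mod_cast this
    have h2 : l + 1 ≤ R * m := hm1.trans (Nat.mul_le_mul_right m (by omega))
    have h3 : ((l + 1 : ℕ) : ℝ) ≤ ((R * m : ℕ) : ℝ) := by exact_mod_cast h2
    linarith
  have hLm : ((R * m : ℕ) : ℝ) ≤ (1 + δ / 4) * LX + R := by
    have h1 : ((l / (R - 1) : ℕ) : ℝ) ≤ (l : ℝ) / ((R - 1 : ℕ) : ℝ) := Nat.cast_div_le
    have hR1 : ((R - 1 : ℕ) : ℝ) = (R : ℝ) - 1 := by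
      rw [Nat.cast_sub (by omega)]; simp
    rw [hR1] at h1
    have hR1pos : (0:ℝ) < (R : ℝ) - 1 := by
      have : (2:ℝ) ≤ R := by exact_mod_cast hR2
      linarith
    rw [hm]
    push_cast
    have h2 : (R : ℝ) * ((l : ℝ) / ((R:ℝ) - 1)) ≤ (1 + δ / 4) * LX := by
      rw [mul_div_assoc', div_le_iff₀ hR1pos]
      have hl0 : (0:ℝ) ≤ l := Nat.cast_nonneg l
      have hR0 : (0:ℝ) ≤ R := Nat.cast_nonneg R
      calc (R:ℝ) * l ≤ ((1 + δ / 4) * (R - 1)) * l := mul_le_mul_of_nonneg_right hRδ hl0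
        _ ≤ ((1 + δ / 4) * (R - 1)) * LX := by
            apply mul_le_mul_of_nonneg_left hlLX
            apply mul_nonneg (by linarith) hR1pos.le
        _ = _ := by ring
    have hR0 : (0:ℝ) ≤ R := Nat.cast_nonneg R
    calc (R:ℝ) * ((l / (R - 1) : ℕ) + 1) = R * ((l / (R - 1) : ℕ) : ℝ) + R := by ring
      _ ≤ R * ((l : ℝ) / ((R:ℝ) - 1)) + R := by
          have := mul_le_mul_of_nonneg_left h1 hR0
          linarith
      _ ≤ _ := by linarith
  obtain ⟨L, hL⟩ : ∃ L, L = R * m := ⟨_, rfl⟩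
  rw [← hL] at hLXm hLm
  have hLℓ : ℓ ≤ L := hLX0.trans hLXm
  have hLB : (L : ℝ) ≤ B * ℓ := by
    refine hLm.trans ?_
    rw [hB, hLXℓ]
    have : (R:ℝ) ≤ R * ℓ := le_mul_of_one_le_right hRpos.le hℓ1
    calc (1 + δ / 4) * (ℓ / Real.log 2) + R ≤ (1 + δ / 4) * (ℓ / Real.log 2) + R * ℓ := by linarith
      _ = _ := by ring
  obtain ⟨N, hN⟩ : ∃ N, N = ⌈A * Λ⌉₊ := ⟨_, rfl⟩
  have hAΛ : 0 < A * Λ := by positivity
  have hN1 : 1 ≤ N := by rw [hN]; exact Nat.ceil_pos.2 hAΛ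
  have hNlow : A * Λ ≤ N := by rw [hN]; exact Nat.le_ceil _
  have hNup : (N : ℝ) ≤ (A + 1) * Λ := by
    have := (Nat.ceil_lt_add_one hAΛ.le).le
    rw [← hN] at this
    linarith
  obtain ⟨w0, hw0⟩ : ∃ w0, w0 = L / N := ⟨_, rfl⟩
  have hNw : N * w0 ≤ L := by rw [hw0]; exact Nat.mul_div_le L N
  have hw1 : (L : ℝ) ≤ N * (w0 + 1) := by
    have h1 : L < N * (L / N + 1) := by
      have := Nat.lt_mul_div_succ L (show 0 < N by omega)
      exact this
    rw [← hw0] at h1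
    exact_mod_cast h1.le
  -- the power of `ρ`
  have hρN : ρ ^ N ≤ Real.exp (-(5 * Λ)) := by
    have h1 : ρ ^ N = Real.exp (-(u * N)) := by
      rw [hu, neg_mul, neg_neg, mul_comm, Real.exp_nat_mul, Real.exp_log hρ0]
    rw [h1, Real.exp_le_exp]
    have h2 : 5 * Λ ≤ u * N := by
      calc 5 * Λ = u * (A * Λ) := by rw [hA]; field_simp
        _ ≤ u * N := by gcongr
    linarith
  have hℓ0 : 0 < ℓ := by linarith
  have hexpΛ : Real.exp (-(5 * Λ)) = Real.exp (-(5 * H)) * (1 / ℓ ^ 5) := by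
    rw [hΛ, show -(5 * (H + Real.log ℓ)) = -(5 * H) + -(5 * Real.log ℓ) by ring, Real.exp_add]
    congr 1
    rw [Real.exp_neg, one_div]
    congr 1
    have : Real.exp (5 * Real.log ℓ) = Real.exp (((5:ℕ):ℝ) * Real.log ℓ) := by norm_num
    rw [this, Real.exp_nat_mul, Real.exp_log hℓ0]
  have hsmallρ : 8 * a * L * ρ ^ N ≤ Real.exp (-(5 * H)) := by
    have h1 : 8 * a * L ≤ ℓ ^ 5 := by
      calc 8 * a * L ≤ 8 * a * (B * ℓ) := by gcongr
        _ = (8 * a * B) * ℓ := by ring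
        _ ≤ ℓ * ℓ := by gcongr
        _ = ℓ ^ 2 := by ring
        _ ≤ ℓ ^ 5 := pow_le_pow_right₀ hℓ1 (by norm_num)
    calc 8 * a * L * ρ ^ N ≤ ℓ ^ 5 * Real.exp (-(5 * Λ)) := by
          apply mul_le_mul h1 hρN (by positivity) (by positivity)
      _ = Real.exp (-(5 * H)) := by rw [hexpΛ]; field_simp
  obtain ⟨E, hE⟩ : ∃ E, E = Real.exp (-H) / 2 := ⟨_, rfl⟩
  have hE0 : 0 < E := by rw [hE]; positivity
  have hexpH : Real.exp (-(5 * H)) ≤ Real.exp (-H) ^ 2 := by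
    rw [← Real.exp_nat_mul, Real.exp_le_exp]; push_cast; linarith
  have hexpH1 : Real.exp (-(5 * H)) ≤ 1 := by
    rw [Real.exp_le_one_iff]; linarith
  have hw0N : (w0 : ℝ) ≤ L := by
    have h1 : w0 ≤ N * w0 := Nat.le_mul_of_pos_left _ (by omega)
    exact_mod_cast h1.trans hNw
  have hρNpos : 0 < ρ ^ N := by positivity
  have hcond : N * ((1 + 2 * a * ρ ^ N) ^ w0 - 1) ≤ 2 * E ^ 2 := by
    have h1 : (w0 : ℝ) * (2 * a * ρ ^ N) ≤ 1 := by
      calc (w0 : ℝ) * (2 * a * ρ ^ N) ≤ L * (2 * a * ρ ^ N) := by gcongr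
        _ ≤ 8 * a * L * ρ ^ N := by
            have : 0 ≤ a * (L:ℝ) * ρ ^ N := by positivity
            linarith
        _ ≤ 1 := hsmallρ.trans hexpH1
    have h2 := one_add_pow_le (2 * a * ρ ^ N) (by positivity) w0 h1
    have hNw' : (N : ℝ) * w0 ≤ L := by exact_mod_cast hNw
    calc N * ((1 + 2 * a * ρ ^ N) ^ w0 - 1) ≤ N * (2 * (w0 * (2 * a * ρ ^ N))) := by gcongr
      _ = 4 * a * (N * w0) * ρ ^ N := by ring
      _ ≤ 4 * a * L * ρ ^ N := by gcongr
      _ = (8 * a * L * ρ ^ N) / 2 := by ring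
      _ ≤ Real.exp (-H) ^ 2 / 2 := by linarith
      _ = 2 * E ^ 2 := by rw [hE]; ring
  have hmain := hcore X m w0 N E hE0 hN1 (by rw [← hL]; exact hNw) hm1 hcond
  rw [← hL] at hmain
  -- the three terms
  obtain ⟨T, hT⟩ : ∃ T, T = Real.exp (-(c * ℓ / Λ)) := ⟨_, rfl⟩
  have hΛ0 : 0 < Λ := by linarith
  have hT1 : 16 / 3 * (5 / 8 : ℝ) ^ (w0 + 1) ≤ T / 3 := by
    have h1 : (5 / 8 : ℝ) ^ (w0 + 1) = Real.exp (-(c5 * (w0 + 1))) := by
      rw [hc5, neg_mul, neg_neg, mul_comm]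
      have : ((w0 : ℝ) + 1) * Real.log (5 / 8) = ((w0 + 1 : ℕ) : ℝ) * Real.log (5 / 8) := by push_cast; ring
      rw [this, Real.exp_nat_mul, Real.exp_log (by norm_num)]
    have h2 : ℓ / ((A + 1) * Λ) ≤ w0 + 1 := by
      rw [div_le_iff₀ (by positivity)]
      calc ℓ ≤ L := hLℓ
        _ ≤ N * (w0 + 1) := hw1
        _ ≤ ((A + 1) * Λ) * (w0 + 1) := by gcongr
        _ = _ := by ring
    have h3 : c6 * (ℓ / Λ) ≤ c5 * (w0 + 1) := by
      calc c6 * (ℓ / Λ) = c5 * (ℓ / ((A + 1) * Λ)) := by rw [hc6]; field_simp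
        _ ≤ _ := by gcongr
    have h4 : 1 / (2 * c) ≤ ℓ / Λ := by
      rw [div_le_div_iff₀ (by positivity) hΛ0]
      linarith
    have h5 : Real.log 16 ≤ c6 * (ℓ / Λ) - c * (ℓ / Λ) := by
      have h6 : 6 * c * (ℓ / Λ) ≤ c6 * (ℓ / Λ) - c * (ℓ / Λ) := by
        have h60 : 0 ≤ ℓ / Λ := by positivity
        have h61 : c * 12 * (ℓ / Λ) ≤ c6 * (ℓ / Λ) :=
          mul_le_mul_of_nonneg_right (by linarith) h60
        have h62 : 0 ≤ c * (ℓ / Λ) := mul_nonneg hc0.le h60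
        linarith
      have h7 : 3 ≤ 6 * c * (ℓ / Λ) := by
        calc (3:ℝ) = 6 * c * (1 / (2 * c)) := by field_simp; norm_num
          _ ≤ _ := by gcongr
      have h8 : Real.log 16 ≤ 3 := by
        rw [show (16:ℝ) = 2 ^ 4 by norm_num, Real.log_pow]
        have := Real.log_two_lt_d9
        push_cast; linarith
      linarith
    rw [h1, hT]
    have h9 : Real.exp (-(c5 * (w0 + 1))) ≤ Real.exp (-(c6 * (ℓ / Λ))) := by
      rw [Real.exp_le_exp]; linarith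
    have h10 : Real.exp (-(c6 * (ℓ / Λ))) * 16 ≤ Real.exp (-(c * ℓ / Λ)) := by
      rw [show (16:ℝ) = Real.exp (Real.log 16) by rw [Real.exp_log (by norm_num)], ← Real.exp_add,
        Real.exp_le_exp]
      have : c * ℓ / Λ = c * (ℓ / Λ) := by ring
      linarith
    linarith
  have hΛℓ : c * ℓ / Λ ≤ c * ℓ := div_le_self (by positivity) hΛ1
  have hT2 : C * lam ^ m / E ^ 2 ≤ T / 3 := by
    have h1 : lam ^ m = Real.exp (-(v * m)) := by
      rw [hv, neg_mul, neg_neg, mul_comm, Real.exp_nat_mul, Real.exp_log hlam0]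
    have h2 : ℓ / R ≤ m := by
      rw [div_le_iff₀ hRpos]
      have : ((L : ℕ) : ℝ) = R * m := by rw [hL]; push_cast; ring
      linarith
    have h3 : E ^ 2 = Real.exp (-(2 * H)) / 4 := by
      rw [hE, div_pow, ← Real.exp_nat_mul]
      norm_num
    have h4 : Real.log (12 * C + 1) + c * ℓ / Λ + 2 * H ≤ v * m := by
      have h5 : v * (ℓ / R) ≤ v * m := by gcongr
      have h6 : c * ℓ ≤ v / (6 * R) * ℓ := by gcongr
      have h7 : v * (ℓ / R) = v / (2 * R) * ℓ + 3 * (v / (6 * R) * ℓ) := by field_simp; ring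
      linarith
    have h8 : 12 * C ≤ Real.exp (Real.log (12 * C + 1)) := by
      rw [Real.exp_log (by linarith)]; linarith
    rw [h1, h3, hT]
    rw [div_le_div_iff₀ (by positivity) (by norm_num)]
    have h9 : 12 * C * Real.exp (-(v * m)) ≤ Real.exp (-(c * ℓ / Λ)) * Real.exp (-(2 * H)) := by
      calc 12 * C * Real.exp (-(v * m)) ≤ Real.exp (Real.log (12 * C + 1)) * Real.exp (-(v * m)) := by
            gcongr
        _ = Real.exp (Real.log (12 * C + 1) + -(v * m)) := by rw [Real.exp_add]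
        _ ≤ Real.exp (-(c * ℓ / Λ) + -(2 * H)) := by rw [Real.exp_le_exp]; linarith
        _ = _ := by rw [Real.exp_add]
    linarith
  have hT3 : Real.exp (-(δ3 * ℓ)) ≤ T / 3 := by
    rw [hT, le_div_iff₀ (by norm_num), show (3:ℝ) = Real.exp (Real.log 3) by
      rw [Real.exp_log (by norm_num)], ← Real.exp_add, Real.exp_le_exp]
    have h1 : c * ℓ ≤ δ3 / 2 * ℓ := by gcongr
    linarith
  -- the cover
  have hcover : (Icc 2 X).filter (fun q : ℕ => q.Coprime a ∧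
        ∃ n : ℕ, (1 + δ) * Real.logb 2 q ≤ n ∧ Real.exp (-H) ≤ tv a q n) ⊆
      ((Icc 1 X).filter (fun q : ℕ => q.Coprime a ∧ E < tv a q L)) ∪
      Icc 1 ⌊X * Real.exp (-(δ3 * ℓ))⌋₊ := by
    intro q hq
    rw [Finset.mem_filter, Finset.mem_Icc] at hq
    obtain ⟨⟨hq2, hqX⟩, hqa, n, hn, htv⟩ := hq
    rw [Finset.mem_union, Finset.mem_filter, Finset.mem_Icc, Finset.mem_Icc]
    have hqpos : (0:ℝ) < q := by
      have : 0 < q := by omega
      exact_mod_cast this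
    by_cases hLn : L ≤ n
    · left
      refine ⟨⟨by omega, hqX⟩, hqa, ?_⟩
      have h1 := Pool.Agent.Results.MP_456481_pr.Cutoff.tv_mono a q (by omega) hqa hLn
      have h2 : E < Real.exp (-H) := by rw [hE]; have := Real.exp_pos (-H); linarith
      linarith
    · right
      refine ⟨by omega, Nat.le_floor ?_⟩
      have h1 : (n : ℝ) < L := by exact_mod_cast not_le.1 hLn
      have h2 : (1 + δ) * Real.logb 2 q < (1 + δ / 4) * LX + R := by linarith
      have h3 : Real.logb 2 q = Real.log q / Real.log 2 := rfl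
      rw [h3, hLXℓ] at h2
      have h4 : (1 + δ) * Real.log q < (1 + δ / 4) * ℓ + R * Real.log 2 := by
        have h5 := mul_lt_mul_of_pos_right h2 hlog2
        have e1 : (1 + δ) * (Real.log q / Real.log 2) * Real.log 2 = (1 + δ) * Real.log q := by
          field_simp
        have e2 : ((1 + δ / 4) * (ℓ / Real.log 2) + R) * Real.log 2 =
            (1 + δ / 4) * ℓ + R * Real.log 2 := by
          field_simp
        rwa [e1, e2] at h5
      have h6 : Real.log q ≤ ℓ - δ3 * ℓ := by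
        have h7 : (R:ℝ) * Real.log 2 ≤ R := mul_le_of_le_one_right hRpos.le hlog2'.le
        have h8 : R ≤ δ / 4 * ℓ := by
          have h81 : 4 * (R:ℝ) ≤ 4 * R * (1 + δ) := le_mul_of_one_le_right (by positivity) (by linarith)
          linarith
        have h9 : (1 + δ) * (ℓ - δ3 * ℓ) = (1 + δ / 2) * ℓ := by
          rw [hδ3]; field_simp; ring
        have h10 : (1 + δ) * Real.log q ≤ (1 + δ) * (ℓ - δ3 * ℓ) := by
          rw [h9]; linarith
        exact le_of_mul_le_mul_left h10 (by linarith)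
      calc (q:ℝ) = Real.exp (Real.log q) := (Real.exp_log hqpos).symm
        _ ≤ Real.exp (ℓ + -(δ3 * ℓ)) := by rw [Real.exp_le_exp]; linarith
        _ = X * Real.exp (-(δ3 * ℓ)) := by rw [Real.exp_add, hℓ, Real.exp_log hXpos]
  have hcard2 : (((Icc 1 ⌊X * Real.exp (-(δ3 * ℓ))⌋₊).card : ℕ) : ℝ) ≤
      X * Real.exp (-(δ3 * ℓ)) := by
    rw [Nat.card_Icc, Nat.add_sub_cancel]
    exact Nat.floor_le (by positivity)
  have hfin : (((Icc 2 X).filter (fun q : ℕ => q.Coprime a ∧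
        ∃ n : ℕ, (1 + δ) * Real.logb 2 q ≤ n ∧ Real.exp (-H) ≤ tv a q n)).card : ℝ) ≤
      (((Icc 1 X).filter (fun q : ℕ => q.Coprime a ∧ E < tv a q L)).card : ℝ) +
      (((Icc 1 ⌊X * Real.exp (-(δ3 * ℓ))⌋₊).card : ℕ) : ℝ) := by
    have := (Finset.card_le_card hcover).trans (Finset.card_union_le _ _)
    exact_mod_cast this
  rw [← hT]
  calc _ ≤ (X * (16 / 3 * (5 / 8) ^ (w0 + 1)) + X * (C * lam ^ m / E ^ 2)) +
        X * Real.exp (-(δ3 * ℓ)) := hfin.trans (add_le_add hmain hcard2)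
    _ ≤ (X * (T / 3) + X * (T / 3)) + X * (T / 3) := by gcongr
    _ = X * T := by ring

end Pool.Agent.KS6_18.MX
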