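import Pool.Agent.KS6_18.MX.Up

/-!
The upper bound for the number of exceptional moduli, uniformly in the level `exp (-H)` and in the
time `T`.
-/

set_option autoImplicit false

open Finset Filter Topology

namespace Pool.Agent.KS6_18.MX

open H942R3.AX

open Classical in
theorem upperT0 (a : ℕ) (ha : 4 ≤ a) (δ : ℝ) (hδ : 0 < δ) :
    ∃ c : ℝ, 0 < c ∧ ∃ X0 : ℕ, ∀ X ≥ X0, ∀ T : ℕ, (1 + δ) * Real.logb 2 X ≤ T →
      ∀ H : ℝ, 0 ≤ H → H ≤ c * T →
      (((Icc 2 X).filter (fun q : ℕ => q.Coprime a ∧ Real.exp (-H) ≤ tv a q T)).card : ℝ) ≤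
        X * Real.exp (-(c * T / (H + Real.log T))) := by
  have ha1 : (1:ℝ) < a := by
    have : 1 < a := by omega
    exact_mod_cast this
  have ha0 : (0:ℝ) < a := by linarith
  -- choose `R`
  obtain ⟨R, hR2, hRδ⟩ : ∃ R : ℕ, 2 ≤ R ∧ (R : ℝ) ≤ (1 + δ / 4) * (R - 1) := by
    obtain ⟨n, hn⟩ := exists_nat_gt (4 / δ)
    refine ⟨n + 2, by omega, ?_⟩
    push_cast
    have h1 : 4 / δ < n + 1 := by linarith
    rw [div_lt_iff₀ hδ] at h1
    nlinarith
  have hRpos : (0:ℝ) < R := by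
    have : 0 < R := by omega
    exact_mod_cast this
  obtain ⟨lam, C, hlam0, hlam1, hC0, hcore⟩ := count_core a ha R hR2
  set ρ : ℝ := 1 - 1 / (a:ℝ) ^ 2 with hρ
  have hρ0 : 0 < ρ := by
    rw [hρ, sub_pos, div_lt_one (by positivity)]
    nlinarith
  have hρ1 : ρ < 1 := by
    rw [hρ]
    have : 0 < 1 / (a:ℝ) ^ 2 := by positivity
    linarith
  obtain ⟨u, hu⟩ : ∃ u, u = -Real.log ρ := ⟨_, rfl⟩
  have hu0 : 0 < u := by rw [hu]; have := Real.log_neg hρ0 hρ1; linarith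
  obtain ⟨A, hA⟩ : ∃ A, A = 5 / u := ⟨_, rfl⟩
  have hA0 : 0 < A := by rw [hA]; positivity
  obtain ⟨v, hv⟩ : ∃ v, v = -Real.log lam := ⟨_, rfl⟩
  have hv0 : 0 < v := by rw [hv]; have := Real.log_neg hlam0 hlam1; linarith
  obtain ⟨c5, hc5⟩ : ∃ c5, c5 = -Real.log (5 / 8 : ℝ) := ⟨_, rfl⟩
  have hc50 : 0 < c5 := by
    rw [hc5]; have := Real.log_neg (show (0:ℝ) < 5 / 8 by norm_num) (by norm_num); linarith
  obtain ⟨c6, hc6⟩ : ∃ c6, c6 = c5 / (2 * (A + 1)) := ⟨_, rfl⟩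
  have hc60 : 0 < c6 := by rw [hc6]; positivity
  obtain ⟨c, hc⟩ : ∃ c, c = min (c6 / 12) (v / (12 * R)) := ⟨_, rfl⟩
  have hc0 : 0 < c := by
    rw [hc]; exact lt_min (by positivity) (by positivity)
  have hcc6 : c ≤ c6 / 12 := by rw [hc]; exact min_le_left _ _
  have hcv : c ≤ v / (12 * R) := by rw [hc]; exact min_le_right _ _
  have hlog2 : 0 < Real.log 2 := Real.log_pos (by norm_num)
  have hlog2' : Real.log 2 < 1 := by have := Real.log_two_lt_d9; linarith
  -- the largeness of `T`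
  have hlo : ∀ᶠ y : ℝ in atTop, Real.log y ≤ c * y := by
    have h1 := Real.isLittleO_log_id_atTop.bound hc0
    filter_upwards [h1, eventually_ge_atTop 1] with y hy hy1
    rw [Real.norm_eq_abs, Real.norm_eq_abs, abs_of_nonneg (Real.log_nonneg hy1)] at hy
    simpa [abs_of_nonneg (by linarith : (0:ℝ) ≤ y)] using hy
  have hll1 : ∀ᶠ y : ℝ in atTop, 1 ≤ Real.log y := Real.tendsto_log_atTop.eventually_ge_atTop 1
  obtain ⟨T1, hT1⟩ := Filter.eventually_atTop.1 (hlo.and (hll1.and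
    (eventually_ge_atTop (1 + 8 * a + Real.log (8 * C + 1) / (v / (4 * R)) + 2 * R))))
  have hlogX : Tendsto (fun X : ℕ => Real.log X) atTop atTop :=
    Real.tendsto_log_atTop.comp tendsto_natCast_atTop_atTop
  obtain ⟨X1, hX1⟩ := Filter.eventually_atTop.1 (hlogX.eventually
    (eventually_ge_atTop (max (max T1 1) (4 * (R + 1) * (1 + δ) / δ))))
  refine ⟨c, hc0, max X1 2, fun X hX T hT H hH0 hH => ?_⟩
  have hX2 : 2 ≤ X := le_trans (le_max_right _ _) hX
  have hXbig := hX1 X (le_trans (le_max_left _ _) hX)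
  have hXpos : (0:ℝ) < X := by
    have : 0 < X := by omega
    exact_mod_cast this
  obtain ⟨LX, hLX⟩ : ∃ LX, LX = Real.logb 2 X := ⟨_, rfl⟩
  rw [← hLX] at hT
  have hLXl : Real.log X ≤ LX := by
    rw [hLX, Real.logb, le_div_iff₀ hlog2]
    have h0 : 0 ≤ Real.log X := Real.log_natCast_nonneg X
    exact mul_le_of_le_one_right h0 hlog2'.le
  have hLX1 : 1 ≤ LX := by
    have h1 := (le_max_right T1 1).trans ((le_max_left _ _).trans hXbig)
    linarith
  have hLXT : LX ≤ T := by nlinarith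
  have hT1T : T1 ≤ T := by
    have h1 := (le_max_left T1 1).trans ((le_max_left _ _).trans hXbig)
    linarith
  have hLXR : 4 * (R + 1) * (1 + δ) ≤ δ * LX := by
    have h1 := (le_max_right _ _).trans hXbig
    rw [div_le_iff₀ hδ] at h1
    nlinarith
  obtain ⟨hloT, hllT, hbigT⟩ := hT1 T hT1T
  obtain ⟨Λ, hΛ⟩ : ∃ Λ, Λ = H + Real.log T := ⟨_, rfl⟩
  rw [← hΛ]
  have hΛ1 : 1 ≤ Λ := by rw [hΛ]; linarith
  have hΛ0 : 0 < Λ := by linarith
  have hpos1 : 0 ≤ 8 * (a:ℝ) := by positivity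
  have hpos2 : 0 ≤ Real.log (8 * C + 1) / (v / (4 * R)) :=
    div_nonneg (Real.log_nonneg (by linarith)) (by positivity)
  have hT1' : (1:ℝ) ≤ T := by linarith
  have hT0 : (0:ℝ) < T := by linarith
  have hTa : 8 * (a:ℝ) ≤ T := by linarith
  have hTR : 2 * (R:ℝ) ≤ T := by linarith
  have hTC : Real.log (8 * C + 1) ≤ v / (4 * R) * T := by
    have h1 : Real.log (8 * C + 1) / (v / (4 * R)) ≤ T := by linarith
    rw [div_le_iff₀ (by positivity)] at h1
    linarith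
  have hΛc : Λ ≤ 2 * c * T := by rw [hΛ]; linarith
  -- the parameters `m`, `N`, `w0`
  set m := T / R with hm
  obtain ⟨L, hL⟩ : ∃ L, L = R * m := ⟨_, rfl⟩
  have hLT : L ≤ T := by rw [hL, hm]; exact Nat.mul_div_le T R
  have hLT' : (L:ℝ) ≤ T := by exact_mod_cast hLT
  have hTL : (T:ℝ) ≤ R * m + R := by
    have : T < R * (T / R + 1) := Nat.lt_mul_div_succ T (show 0 < R by omega)
    rw [← hm] at this
    have h2 : (T:ℝ) < R * (m + 1) := by exact_mod_cast this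
    linarith
  have hLcast : (L:ℝ) = R * m := by rw [hL]; push_cast; ring
  have hLlow : (T:ℝ) / 2 ≤ L := by rw [hLcast]; linarith
  have hR1pos : (1:ℝ) ≤ (R : ℝ) - 1 := by
    have : (2:ℝ) ≤ R := by exact_mod_cast hR2
    linarith
  have hm1 : Nat.log 2 X + 1 ≤ (R - 1) * m := by
    have hlLX : (Nat.log 2 X : ℝ) ≤ LX := by
      rw [hLX, Real.le_logb_iff_rpow_le (by norm_num) hXpos, Real.rpow_natCast]
      have := Nat.pow_log_le_self 2 (show X ≠ 0 by omega)
      exact_mod_cast this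
    have hR1 : ((R - 1 : ℕ) : ℝ) = (R : ℝ) - 1 := by
      rw [Nat.cast_sub (by omega)]; simp
    have h1 : LX + 1 ≤ ((R:ℝ) - 1) * m := by
      -- `(R - 1) m ≥ (R - 1) (T / R - 1) ≥ T / (1 + δ/4) - R`
      have e1 : (1 + δ / 4) * (((R:ℝ) - 1) * m) ≥ R * m := by
        have := mul_le_mul_of_nonneg_right hRδ (Nat.cast_nonneg m : (0:ℝ) ≤ m)
        linarith
      have e2 : (1 + δ) * LX - R ≤ (1 + δ / 4) * (((R:ℝ) - 1) * m) := by linarith
      have e3 : (1 + δ / 4) * (LX + 1) ≤ (1 + δ) * LX - R := by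
        have : (1 + δ / 4) * (LX + 1) = LX + δ / 4 * LX + 1 + δ / 4 := by ring
        have h5 : (R:ℝ) + 1 ≤ (R + 1) * (1 + δ) := le_mul_of_one_le_right (by positivity) (by linarith)
        have h6 : δ ≤ (R + 1) * (1 + δ) := by nlinarith
        nlinarith
      have e4 : (1 + δ / 4) * (LX + 1) ≤ (1 + δ / 4) * (((R:ℝ) - 1) * m) := e3.trans e2
      exact le_of_mul_le_mul_left e4 (by linarith)
    have h2 : ((Nat.log 2 X + 1 : ℕ) : ℝ) ≤ (((R - 1) * m : ℕ) : ℝ) := by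
      push_cast
      rw [hR1]
      linarith
    exact_mod_cast h2
  obtain ⟨N, hN⟩ : ∃ N, N = ⌈A * Λ⌉₊ := ⟨_, rfl⟩
  have hAΛ : 0 < A * Λ := by positivity
  have hN1 : 1 ≤ N := by rw [hN]; exact Nat.ceil_pos.2 hAΛ
  have hNlow : A * Λ ≤ N := by rw [hN]; exact Nat.le_ceil _
  have hNup : (N : ℝ) ≤ (A + 1) * Λ := by
    have := (Nat.ceil_lt_add_one hAΛ.le).le
    rw [← hN] at this
    linarith
  obtain ⟨w0, hw0⟩ : ∃ w0, w0 = L / N := ⟨_, rfl⟩
  have hNw : N * w0 ≤ L := by rw [hw0]; exact Nat.mul_div_le L N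
  have hw1 : (L : ℝ) ≤ N * (w0 + 1) := by
    have h1 : L < N * (L / N + 1) := by
      have := Nat.lt_mul_div_succ L (show 0 < N by omega)
      exact this
    rw [← hw0] at h1
    exact_mod_cast h1.le
  -- the power of `ρ`
  have hρN : ρ ^ N ≤ Real.exp (-(5 * Λ)) := by
    have h1 : ρ ^ N = Real.exp (-(u * N)) := by
      rw [hu, neg_mul, neg_neg, mul_comm, Real.exp_nat_mul, Real.exp_log hρ0]
    rw [h1, Real.exp_le_exp]
    have h2 : 5 * Λ ≤ u * N := by
      calc 5 * Λ = u * (A * Λ) := by rw [hA]; field_simp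
        _ ≤ u * N := by gcongr
    linarith
  have hexpΛ : Real.exp (-(5 * Λ)) = Real.exp (-(5 * H)) * (1 / (T:ℝ) ^ 5) := by
    rw [hΛ, show -(5 * (H + Real.log T)) = -(5 * H) + -(5 * Real.log T) by ring, Real.exp_add]
    congr 1
    rw [Real.exp_neg, one_div]
    congr 1
    have : Real.exp (5 * Real.log T) = Real.exp (((5:ℕ):ℝ) * Real.log T) := by norm_num
    rw [this, Real.exp_nat_mul, Real.exp_log hT0]
  have hsmallρ : 8 * a * L * ρ ^ N ≤ Real.exp (-(5 * H)) := by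
    have h1 : 8 * a * (L:ℝ) ≤ (T:ℝ) ^ 5 := by
      calc 8 * a * (L:ℝ) ≤ 8 * a * T := by gcongr
        _ ≤ T * T := by gcongr
        _ = (T:ℝ) ^ 2 := by ring
        _ ≤ (T:ℝ) ^ 5 := pow_le_pow_right₀ hT1' (by norm_num)
    calc 8 * a * (L:ℝ) * ρ ^ N ≤ (T:ℝ) ^ 5 * Real.exp (-(5 * Λ)) := by
          apply mul_le_mul h1 hρN (by positivity) (by positivity)
      _ = Real.exp (-(5 * H)) := by rw [hexpΛ]; field_simp
  obtain ⟨E, hE⟩ : ∃ E, E = Real.exp (-H) / 2 := ⟨_, rfl⟩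
  have hE0 : 0 < E := by rw [hE]; positivity
  have hexpH : Real.exp (-(5 * H)) ≤ Real.exp (-H) ^ 2 := by
    rw [← Real.exp_nat_mul, Real.exp_le_exp]; push_cast; linarith
  have hexpH1 : Real.exp (-(5 * H)) ≤ 1 := by
    rw [Real.exp_le_one_iff]; linarith
  have hw0N : (w0 : ℝ) ≤ L := by
    have h1 : w0 ≤ N * w0 := Nat.le_mul_of_pos_left _ (by omega)
    exact_mod_cast h1.trans hNw
  have hρNpos : 0 < ρ ^ N := by positivity
  have hcond : N * ((1 + 2 * a * ρ ^ N) ^ w0 - 1) ≤ 2 * E ^ 2 := by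
    have h1 : (w0 : ℝ) * (2 * a * ρ ^ N) ≤ 1 := by
      calc (w0 : ℝ) * (2 * a * ρ ^ N) ≤ L * (2 * a * ρ ^ N) := by gcongr
        _ ≤ 8 * a * L * ρ ^ N := by
            have : 0 ≤ a * (L:ℝ) * ρ ^ N := by positivity
            linarith
        _ ≤ 1 := hsmallρ.trans hexpH1
    have h2 := one_add_pow_le (2 * a * ρ ^ N) (by positivity) w0 h1
    have hNw' : (N : ℝ) * w0 ≤ L := by exact_mod_cast hNw
    calc N * ((1 + 2 * a * ρ ^ N) ^ w0 - 1) ≤ N * (2 * (w0 * (2 * a * ρ ^ N))) := by gcongr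
      _ = 4 * a * (N * w0) * ρ ^ N := by ring
      _ ≤ 4 * a * L * ρ ^ N := by gcongr
      _ = (8 * a * L * ρ ^ N) / 2 := by ring
      _ ≤ Real.exp (-H) ^ 2 / 2 := by linarith
      _ = 2 * E ^ 2 := by rw [hE]; ring
  have hmain := hcore X m w0 N E hE0 hN1 (by rw [← hL]; exact hNw) hm1 hcond
  rw [← hL] at hmain
  -- the two terms
  obtain ⟨Q, hQ⟩ : ∃ Q, Q = Real.exp (-(c * T / Λ)) := ⟨_, rfl⟩
  have hT1'' : 16 / 3 * (5 / 8 : ℝ) ^ (w0 + 1) ≤ Q / 3 := by
    have h1 : (5 / 8 : ℝ) ^ (w0 + 1) = Real.exp (-(c5 * (w0 + 1))) := by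
      rw [hc5, neg_mul, neg_neg, mul_comm]
      have : ((w0 : ℝ) + 1) * Real.log (5 / 8) = ((w0 + 1 : ℕ) : ℝ) * Real.log (5 / 8) := by push_cast; ring
      rw [this, Real.exp_nat_mul, Real.exp_log (by norm_num)]
    have h2 : T / (2 * (A + 1) * Λ) ≤ w0 + 1 := by
      rw [div_le_iff₀ (by positivity)]
      have : (L:ℝ) ≤ ((A + 1) * Λ) * (w0 + 1) := hw1.trans (by gcongr)
      linarith
    have h3 : c6 * (T / Λ) ≤ c5 * (w0 + 1) := by
      calc c6 * (T / Λ) = c5 * (T / (2 * (A + 1) * Λ)) := by rw [hc6]; field_simp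
        _ ≤ _ := by gcongr
    have h4 : 1 / (2 * c) ≤ T / Λ := by
      rw [div_le_div_iff₀ (by positivity) hΛ0]
      linarith
    have h5 : Real.log 16 ≤ c6 * (T / Λ) - c * (T / Λ) := by
      have h6 : 6 * c * (T / Λ) ≤ c6 * (T / Λ) - c * (T / Λ) := by
        have h60 : 0 ≤ T / Λ := by positivity
        have h61 : c * 12 * (T / Λ) ≤ c6 * (T / Λ) :=
          mul_le_mul_of_nonneg_right (by linarith) h60
        have h62 : 0 ≤ c * (T / Λ) := mul_nonneg hc0.le h60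
        linarith
      have h7 : 3 ≤ 6 * c * (T / Λ) := by
        calc (3:ℝ) = 6 * c * (1 / (2 * c)) := by field_simp; norm_num
          _ ≤ _ := by gcongr
      have h8 : Real.log 16 ≤ 3 := by
        rw [show (16:ℝ) = 2 ^ 4 by norm_num, Real.log_pow]
        have := Real.log_two_lt_d9
        push_cast; linarith
      linarith
    rw [h1, hQ]
    have h9 : Real.exp (-(c5 * (w0 + 1))) ≤ Real.exp (-(c6 * (T / Λ))) := by
      rw [Real.exp_le_exp]; linarith
    have h10 : Real.exp (-(c6 * (T / Λ))) * 16 ≤ Real.exp (-(c * T / Λ)) := by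
      rw [show (16:ℝ) = Real.exp (Real.log 16) by rw [Real.exp_log (by norm_num)], ← Real.exp_add,
        Real.exp_le_exp]
      have : c * T / Λ = c * (T / Λ) := by ring
      linarith
    linarith
  have hΛT : c * T / Λ ≤ c * T := div_le_self (by positivity) hΛ1
  have hT2 : C * lam ^ m / E ^ 2 ≤ Q / 2 := by
    have h1 : lam ^ m = Real.exp (-(v * m)) := by
      rw [hv, neg_mul, neg_neg, mul_comm, Real.exp_nat_mul, Real.exp_log hlam0]
    have h2 : (T:ℝ) / (2 * R) ≤ m := by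
      rw [div_le_iff₀ (by positivity)]
      rw [hLcast] at hLlow
      linarith
    have h3 : E ^ 2 = Real.exp (-(2 * H)) / 4 := by
      rw [hE, div_pow, ← Real.exp_nat_mul]
      norm_num
    have h4 : Real.log (8 * C + 1) + c * T / Λ + 2 * H ≤ v * m := by
      have h5 : v * (T / (2 * R)) ≤ v * m := by gcongr
      have h6 : c * T ≤ v / (12 * R) * T := by gcongr
      have h7 : v * (T / (2 * R)) = v / (4 * R) * T + 3 * (v / (12 * R) * T) := by field_simp; ring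
      linarith
    have h8 : 8 * C ≤ Real.exp (Real.log (8 * C + 1)) := by
      rw [Real.exp_log (by linarith)]; linarith
    rw [h1, h3, hQ]
    rw [div_le_div_iff₀ (by positivity) (by norm_num)]
    have h9 : 8 * C * Real.exp (-(v * m)) ≤ Real.exp (-(c * T / Λ)) * Real.exp (-(2 * H)) := by
      calc 8 * C * Real.exp (-(v * m)) ≤ Real.exp (Real.log (8 * C + 1)) * Real.exp (-(v * m)) := by
            gcongr
        _ = Real.exp (Real.log (8 * C + 1) + -(v * m)) := by rw [Real.exp_add]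
        _ ≤ Real.exp (-(c * T / Λ) + -(2 * H)) := by rw [Real.exp_le_exp]; linarith
        _ = _ := by rw [Real.exp_add]
    linarith
  -- the inclusion
  have hsub : (Icc 2 X).filter (fun q : ℕ => q.Coprime a ∧ Real.exp (-H) ≤ tv a q T) ⊆
      (Icc 1 X).filter (fun q : ℕ => q.Coprime a ∧ E < tv a q L) := by
    intro q hq
    rw [Finset.mem_filter, Finset.mem_Icc] at hq ⊢
    obtain ⟨⟨hq2, hqX⟩, hqa, htv⟩ := hq
    refine ⟨⟨by omega, hqX⟩, hqa, ?_⟩
    have h1 := Pool.Agent.Results.MP_456481_pr.Cutoff.tv_mono a q (by omega) hqa hLT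
    have h2 : E < Real.exp (-H) := by rw [hE]; have := Real.exp_pos (-H); linarith
    linarith
  have hfin : (((Icc 2 X).filter (fun q : ℕ => q.Coprime a ∧ Real.exp (-H) ≤ tv a q T)).card : ℝ) ≤
      (((Icc 1 X).filter (fun q : ℕ => q.Coprime a ∧ E < tv a q L)).card : ℝ) := by
    exact_mod_cast Finset.card_le_card hsub
  have hQ0 : 0 ≤ Q := by rw [hQ]; exact (Real.exp_pos _).le
  rw [← hQ]
  calc _ ≤ X * (16 / 3 * (5 / 8) ^ (w0 + 1)) + X * (C * lam ^ m / E ^ 2) := hfin.trans hmain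
    _ ≤ X * (Q / 3) + X * (Q / 2) := by gcongr
    _ ≤ X * Q := by nlinarith [mul_nonneg hXpos.le hQ0]

open Classical in
/-- the final form of the upper bound -/
theorem upperT (a : ℕ) (ha : 4 ≤ a) (δ : ℝ) (hδ : 0 < δ) :
    ∃ c : ℝ, 0 < c ∧ ∃ X0 : ℕ, ∀ X ≥ X0, ∀ T : ℕ, (1 + δ) * Real.logb 2 X ≤ T →
      ∀ H : ℝ, 0 ≤ H → H ≤ c * T →
      (((Icc 2 X).filter (fun q : ℕ => q.Coprime a ∧ Real.exp (-H) ≤ tv a q T)).card : ℝ) ≤
        X * Real.exp (-(c * T / (H + Real.log (Real.log X)))) := by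
  obtain ⟨c, hc0, X0, hX0⟩ := upperT0 a ha δ hδ
  have hlo : ∀ᶠ y : ℝ in atTop, Real.log y ≤ c / 4 * y ^ ((1:ℝ) / 2) := by
    have h1 := (isLittleO_log_rpow_atTop (show (0:ℝ) < 1 / 2 by norm_num)).bound
      (show (0:ℝ) < c / 4 by positivity)
    filter_upwards [h1, eventually_ge_atTop 1] with y hy hy1
    rw [Real.norm_eq_abs, Real.norm_eq_abs, abs_of_nonneg (Real.log_nonneg hy1),
      abs_of_nonneg (Real.rpow_nonneg (by linarith) _)] at hy
    exact hy
  obtain ⟨y1, hy1⟩ := Filter.eventually_atTop.1 hlo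
  have hlogX : Tendsto (fun X : ℕ => Real.log X) atTop atTop :=
    Real.tendsto_log_atTop.comp tendsto_natCast_atTop_atTop
  obtain ⟨X1, hX1⟩ := Filter.eventually_atTop.1 (hlogX.eventually
    (eventually_ge_atTop (max (max y1 (Real.exp 1)) 3)))
  refine ⟨c / 2, by positivity, max X0 (max X1 2), fun X hX T hT H hH0 hH => ?_⟩
  have hX2 : 2 ≤ X := le_trans ((le_max_right _ _).trans (le_max_right _ _)) hX
  have hXb := hX1 X (le_trans ((le_max_left _ _).trans (le_max_right _ _)) hX)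
  have hXpos : (0:ℝ) < X := by
    have : 0 < X := by omega
    exact_mod_cast this
  have hH' : H ≤ c * T := by
    have : 0 ≤ (T:ℝ) := Nat.cast_nonneg T
    nlinarith
  have hmain := hX0 X (le_trans (le_max_left _ _) hX) T hT H hH0 hH'
  obtain ⟨l, hl⟩ : ∃ l, l = Real.log X := ⟨_, rfl⟩
  rw [← hl] at hXb ⊢
  have hlpos : 3 ≤ l := (le_max_right _ _).trans hXb
  have hle : Real.exp 1 ≤ l := (le_max_right _ _).trans ((le_max_left _ _).trans hXb)
  have hly1 : y1 ≤ l := (le_max_left _ _).trans ((le_max_left _ _).trans hXb)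
  have hll : 1 ≤ Real.log l := by
    rw [Real.le_log_iff_exp_le (by linarith)]; exact hle
  have hlog2 : 0 < Real.log 2 := Real.log_pos (by norm_num)
  have hlog2' : Real.log 2 < 1 := by have := Real.log_two_lt_d9; linarith
  have hlT : l ≤ T := by
    have h1 : l ≤ Real.logb 2 X := by
      rw [Real.logb, ← hl, le_div_iff₀ hlog2]
      exact mul_le_of_le_one_right (by linarith) hlog2'.le
    have h2 : 0 ≤ Real.logb 2 X := by linarith
    nlinarith
  have hT0 : (0:ℝ) < T := by linarith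
  obtain ⟨Z, hZ⟩ : ∃ Z : ℝ, Z = (((Icc 2 X).filter (fun q : ℕ => q.Coprime a ∧
    Real.exp (-H) ≤ tv a q T)).card : ℝ) := ⟨_, rfl⟩
  have hlogT : Real.log l ≤ Real.log T := Real.log_le_log (by linarith) hlT
  by_cases hcase : Real.log T ≤ 2 * Real.log l ∨ Real.log T ≤ H
  · refine hmain.trans ?_
    apply mul_le_mul_of_nonneg_left _ hXpos.le
    rw [Real.exp_le_exp, neg_le_neg_iff]
    have h1 : H + Real.log T ≤ 2 * (H + Real.log l) := by
      rcases hcase with h | h <;> linarith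
    rw [div_le_div_iff₀ (by linarith) (by linarith)]
    have h2 : c / 2 * T * (H + Real.log T) ≤ c / 2 * T * (2 * (H + Real.log l)) :=
      mul_le_mul_of_nonneg_left h1 (by positivity)
    linarith
  · push Not at hcase
    obtain ⟨h1, h2⟩ := hcase
    -- the set is empty
    have hTl2 : l < (T:ℝ) ^ ((1:ℝ) / 2) := by
      have e1 : Real.log l < 1 / 2 * Real.log T := by linarith
      rw [← Real.log_rpow hT0] at e1
      exact (Real.log_lt_log_iff (by linarith) (by positivity)).1 e1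
    have hTy : Real.log T ≤ c / 4 * (T:ℝ) ^ ((1:ℝ) / 2) := hy1 T (hly1.trans hlT)
    have hlogTpos : 0 < Real.log T := by linarith
    have hTT : (T:ℝ) = (T:ℝ) ^ ((1:ℝ) / 2) * (T:ℝ) ^ ((1:ℝ) / 2) := by
      rw [← Real.rpow_add hT0]; norm_num
    have h3 : l < c * T / (H + Real.log T) := by
      rw [lt_div_iff₀ (by linarith)]
      have hs : 0 < (T:ℝ) ^ ((1:ℝ) / 2) := by positivity
      have e1 : l * (H + Real.log T) ≤ (T:ℝ) ^ ((1:ℝ) / 2) * (2 * Real.log T) :=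
        mul_le_mul hTl2.le (by linarith) (by linarith) hs.le
      have e2 : (T:ℝ) ^ ((1:ℝ) / 2) * (2 * Real.log T) ≤
          (T:ℝ) ^ ((1:ℝ) / 2) * (2 * (c / 4 * (T:ℝ) ^ ((1:ℝ) / 2))) := by gcongr
      have e3 : (T:ℝ) ^ ((1:ℝ) / 2) * (2 * (c / 4 * (T:ℝ) ^ ((1:ℝ) / 2))) = c / 2 * T := by
        calc (T:ℝ) ^ ((1:ℝ) / 2) * (2 * (c / 4 * (T:ℝ) ^ ((1:ℝ) / 2))) =
            c / 2 * ((T:ℝ) ^ ((1:ℝ) / 2) * (T:ℝ) ^ ((1:ℝ) / 2)) := by ring
          _ = c / 2 * T := by rw [← hTT]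
      have e4 : 0 < c * (T:ℝ) := by positivity
      linarith
    have h4 : Z < 1 := by
      rw [hZ]
      refine lt_of_le_of_lt hmain ?_
      have : (X:ℝ) = Real.exp l := by rw [hl, Real.exp_log hXpos]
      rw [this, ← Real.exp_add, Real.exp_lt_one_iff]
      linarith
    have h5 : Z = 0 := by
      rw [hZ] at h4 ⊢
      have : ((Icc 2 X).filter (fun q : ℕ => q.Coprime a ∧ Real.exp (-H) ≤ tv a q T)).card < 1 := by
        exact_mod_cast h4
      have h6 : ((Icc 2 X).filter (fun q : ℕ => q.Coprime a ∧ Real.exp (-H) ≤ tv a q T)).card = 0 := by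
        omega
      rw [h6]; simp
    rw [← hZ, h5]
    positivity

end Pool.Agent.KS6_18.MX
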